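import Pool.Agent.Helper10.CB.U5

/-!
# Facts about the central binomial coefficients
-/

set_option autoImplicit false

open Finset Filter Topology

open scoped Classical

namespace Pool.Agent.Helper10.CB

open Pool.Agent.Helper90.Twin (Ps mem_Ps Sz)
open Pool.Agent.Helper94.Tot (allSz)

theorem cb_le (k : ℕ) : Nat.centralBinom k ≤ 4 ^ k := by
  rw [Nat.centralBinom_eq_two_mul_choose]
  calc (2 * k).choose k ≤ 2 ^ (2 * k) := Nat.choose_le_two_pow _ _
    _ = 4 ^ k := by rw [pow_mul]; norm_num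

theorem cb_lt_succ (k : ℕ) : Nat.centralBinom k < Nat.centralBinom (k + 1) := by
  have h1 := Nat.succ_mul_centralBinom_succ k
  have h2 := Nat.centralBinom_pos k
  by_contra h
  push Not at h
  have h3 : (k + 1) * Nat.centralBinom (k + 1) ≤ (k + 1) * Nat.centralBinom k :=
    Nat.mul_le_mul_left _ h
  rw [h1] at h3
  have h4 : (k + 1) * Nat.centralBinom k < 2 * (2 * k + 1) * Nat.centralBinom k :=
    Nat.mul_lt_mul_of_pos_right (by omega) h2
  omega

theorem cb_strictMono : StrictMono Nat.centralBinom := strictMono_nat_of_lt_succ cb_lt_succ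

theorem prime_dvd_cb {p k : ℕ} (hp : p.Prime) (h : p ∣ Nat.centralBinom k) : p ≤ 2 * k := by
  rw [Nat.centralBinom_eq_two_mul_choose] at h
  have h1 : (2 * k).choose k ∣ (2 * k).factorial := by
    refine ⟨k.factorial * (2 * k - k).factorial, ?_⟩
    rw [← mul_assoc]
    exact (Nat.choose_mul_factorial_mul_factorial (by omega)).symm
  exact (hp.dvd_factorial).1 (h.trans h1)

theorem cb_ge {k : ℕ} (hk : 1 ≤ k) : 1 ≤ Nat.centralBinom k := Nat.centralBinom_pos k

theorem cb_even {k : ℕ} (hk : 1 ≤ k) : Even (Nat.centralBinom k) :=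
  even_iff_two_dvd.2 (Nat.two_dvd_centralBinom_of_one_le hk)

/-- the upper bound for the main factor -/
theorem up_k : ∃ C : ℝ, 1 ≤ C ∧ ∀ K z k : ℕ, 3 ≤ K → 1 ≤ k → k ≤ K →
    Real.exp (Sd z (Nat.centralBinom k)) ≤ C * Real.log K := by
  obtain ⟨C, hC, h⟩ := exp_Sz_up
  refine ⟨2 * C, by linarith, fun K z k hK hk hkK => ?_⟩
  have h1 : Sd z (Nat.centralBinom k) ≤ Sz (2 * K) := by
    unfold Sd Pool.Agent.Helper90.Twin.Sz
    refine sum_le_sum_of_subset_of_nonneg ?_ fun _ _ _ => by positivity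
    intro p hp
    rw [mem_filter, mem_Ps] at hp
    rw [mem_Ps]
    have := prime_dvd_cb hp.1.2.2 hp.2
    exact ⟨hp.1.1, by omega, hp.1.2.2⟩
  have h2 := h (2 * K) (by omega)
  have hlK := log_ge_one hK
  have h3 : Real.log ((2 * K : ℕ) : ℝ) ≤ 2 * Real.log K := by
    have hK0 : (0 : ℝ) < K := by exact_mod_cast (by omega : 0 < K)
    push_cast
    rw [Real.log_mul (by norm_num) hK0.ne']
    have := Real.log_two_lt_d9
    linarith
  calc Real.exp (Sd z (Nat.centralBinom k)) ≤ Real.exp (Sz (2 * K)) := Real.exp_le_exp.2 h1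
    _ ≤ C * Real.log ((2 * K : ℕ) : ℝ) := h2
    _ ≤ C * (2 * Real.log K) := mul_le_mul_of_nonneg_left h3 (by linarith)
    _ = 2 * C * Real.log K := by ring

/-- the lower bound for the main factor -/
theorem low_k : ∃ c : ℝ, 0 < c ∧ ∀ K z k : ℕ, 3 ≤ K → 2 * K ≤ z →
    c * Real.log K * Real.exp (-(T (2 * K) k)) ≤ Real.exp (Sd z (Nat.centralBinom k)) := by
  obtain ⟨C, hC, h⟩ := allSz
  refine ⟨1 / C, by positivity, fun K z k hK hz => ?_⟩
  have h1 : Sz (2 * K) ≤ Sd z (Nat.centralBinom k) + T (2 * K) k := by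
    have h2 : Sz (2 * K) = ∑ p ∈ (Ps (2 * K)).filter (fun p => p ∣ Nat.centralBinom k), 1 / (p : ℝ)
        + ∑ p ∈ (Ps (2 * K)).filter (fun p => ¬ p ∣ Nat.centralBinom k), 1 / (p : ℝ) := by
      unfold Pool.Agent.Helper90.Twin.Sz
      exact (sum_filter_add_sum_filter_not _ _ _).symm
    rw [h2]
    refine add_le_add ?_ ?_
    · unfold Sd
      refine sum_le_sum_of_subset_of_nonneg ?_ fun _ _ _ => by positivity
      intro p hp
      rw [mem_filter, mem_Ps] at hp ⊢
      exact ⟨⟨hp.1.1, by omega, hp.1.2.2⟩, hp.2⟩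
    · unfold T
      refine sum_le_sum_of_subset_of_nonneg ?_ fun _ _ _ => by positivity
      intro p hp
      rw [mem_filter, mem_Ps] at hp
      rw [mem_filter, mem_pr3]
      exact ⟨⟨⟨by omega, hp.1.2.1⟩, hp.1.2.2⟩, hp.2⟩
  have h3 := h (2 * K) (by omega)
  have hlK := log_ge_one hK
  have hlog : Real.log K ≤ Real.log ((2 * K : ℕ) : ℝ) := by
    apply Real.log_le_log (by exact_mod_cast (by omega : 0 < K))
    exact_mod_cast (by omega : K ≤ 2 * K)
  have h4 : Real.log K / C ≤ Real.exp (Sz (2 * K)) := by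
    rw [div_le_iff₀ hC]
    rw [Real.exp_neg, inv_eq_one_div, div_le_div_iff₀ (Real.exp_pos _) (by linarith)] at h3
    linarith
  have h5 : Real.exp (Sz (2 * K)) ≤ Real.exp (Sd z (Nat.centralBinom k)) * Real.exp (T (2 * K) k) := by
    rw [← Real.exp_add]
    exact Real.exp_le_exp.2 h1
  calc 1 / C * Real.log K * Real.exp (-(T (2 * K) k))
      = (Real.log K / C) * Real.exp (-(T (2 * K) k)) := by ring
    _ ≤ (Real.exp (Sd z (Nat.centralBinom k)) * Real.exp (T (2 * K) k)) *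
        Real.exp (-(T (2 * K) k)) :=
        mul_le_mul_of_nonneg_right (h4.trans h5) (Real.exp_pos _).le
    _ = Real.exp (Sd z (Nat.centralBinom k)) := by
        rw [mul_assoc, ← Real.exp_add, add_neg_cancel, Real.exp_zero, mul_one]

/-- the third term for two different central binomial coefficients -/
theorem third {K z k k' : ℕ} (hK : 3 ≤ K) (hkK : k ≤ K) (hk'K : k' ≤ K) (hne : k ≠ k') :
    ∑ p ∈ (Ps z).filter (fun p => p ∣ dd (Nat.centralBinom k) (Nat.centralBinom k') ∧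
      ¬ p ∣ Nat.centralBinom k), 1 / (p : ℝ) ≤ T (2 * K) k + 2 := by
  set m := dd (Nat.centralBinom k) (Nat.centralBinom k') with hm
  have hm0 : m ≠ 0 := by
    intro h0
    apply hne
    apply cb_strictMono.injective
    rw [hm] at h0
    unfold dd at h0
    omega
  have hml : m ≤ 4 ^ K := by
    have h1 := cb_le k
    have h2 := cb_le k'
    have h3 : 4 ^ k ≤ 4 ^ K := Nat.pow_le_pow_right (by norm_num) hkK
    have h4 : 4 ^ k' ≤ 4 ^ K := Nat.pow_le_pow_right (by norm_num) hk'K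
    rw [hm]
    unfold dd
    omega
  have hlog : Real.log m ≤ ((2 * K : ℕ) : ℝ) := by
    have h1 : (m : ℝ) ≤ (4 : ℝ) ^ K := by exact_mod_cast hml
    have h2 := Real.log_le_log (by exact_mod_cast Nat.pos_of_ne_zero hm0) h1
    rw [Real.log_pow] at h2
    have h3 : Real.log 4 ≤ 2 := by
      have h4 : Real.log 4 = 2 * Real.log 2 := by
        rw [show (4 : ℝ) = 2 ^ 2 by norm_num, Real.log_pow]; norm_num
      have := Real.log_two_lt_d9
      linarith
    have h4 : (0 : ℝ) ≤ K := Nat.cast_nonneg _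
    push_cast
    nlinarith
  -- split at 2K
  have h1 : (Ps z).filter (fun p => p ∣ m ∧ ¬ p ∣ Nat.centralBinom k) ⊆
      ((pr3 (2 * K)).filter (fun q => ¬ q ∣ Nat.centralBinom k)) ∪
      (m.primeFactors.filter (fun p => 2 * K < p)) := by
    intro p hp
    rw [mem_filter, mem_Ps] at hp
    rw [mem_union, mem_filter, mem_filter, mem_pr3, Nat.mem_primeFactors]
    rcases Nat.lt_or_ge (2 * K) p with h | h
    · exact Or.inr ⟨⟨hp.1.2.2, hp.2.1, hm0⟩, h⟩
    · exact Or.inl ⟨⟨⟨by omega, h⟩, hp.1.2.2⟩, hp.2.2⟩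
  have h2 : ∑ p ∈ (Ps z).filter (fun p => p ∣ m ∧ ¬ p ∣ Nat.centralBinom k), 1 / (p : ℝ)
      ≤ ∑ p ∈ ((pr3 (2 * K)).filter (fun q => ¬ q ∣ Nat.centralBinom k)) ∪
      (m.primeFactors.filter (fun p => 2 * K < p)), 1 / (p : ℝ) :=
    sum_le_sum_of_subset_of_nonneg h1 fun _ _ _ => by positivity
  refine h2.trans ?_
  have hui := sum_union_inter (s₁ := (pr3 (2 * K)).filter (fun q => ¬ q ∣ Nat.centralBinom k))
    (s₂ := m.primeFactors.filter (fun p => 2 * K < p)) (f := fun p : ℕ => 1 / (p : ℝ))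
  have hi0 : 0 ≤ ∑ p ∈ ((pr3 (2 * K)).filter (fun q => ¬ q ∣ Nat.centralBinom k)) ∩
      (m.primeFactors.filter (fun p => 2 * K < p)), 1 / (p : ℝ) :=
    sum_nonneg fun _ _ => by positivity
  have h3 : ∑ p ∈ m.primeFactors.filter (fun p => 2 * K < p), 1 / (p : ℝ) ≤ 2 :=
    big_primes (by omega) hm0 hlog
  have e : T (2 * K) k = ∑ p ∈ (pr3 (2 * K)).filter (fun q => ¬ q ∣ Nat.centralBinom k),
      1 / (p : ℝ) := rfl
  rw [e]
  linarith

end Pool.Agent.Helper10.CB
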