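import Mathlib

/-!
# Central binomial coefficients not divisible by a prime: counting by digits
-/

set_option autoImplicit false

open Finset

namespace Pool.Agent.Helper10.CB

/-- the `k < M` such that `q` does not divide `binom(2k, k)` -/
def ND (q M : ℕ) : Finset ℕ := (range M).filter (fun k => ¬ q ∣ Nat.centralBinom k)

theorem mem_ND {q M k : ℕ} : k ∈ ND q M ↔ k < M ∧ ¬ q ∣ Nat.centralBinom k := by
  unfold ND
  rw [mem_filter, mem_range]

theorem digit_lt {q k : ℕ} (hq : q.Prime) (h : ¬ q ∣ Nat.centralBinom k) : 2 * (k % q) < q := by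
  by_contra hcon
  push Not at hcon
  apply h
  have := Fact.mk hq
  have hr : k % q < q := Nat.mod_lt _ hq.pos
  have h1 := Choose.choose_modEq_choose_mod_mul_choose_div_nat (n := 2 * k) (k := k) (p := q)
  have h2 : (2 * k) % q = 2 * (k % q) - q := by
    have h3 : 2 * k = (2 * (k % q) - q) + q * (2 * (k / q) + 1) := by
      have := Nat.div_add_mod k q
      have h4 : q * (2 * (k / q) + 1) = 2 * (q * (k / q)) + q := by ring
      omega
    rw [h3, Nat.add_mul_mod_self_left, Nat.mod_eq_of_lt (by omega)]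
  have h5 : Nat.choose (2 * (k % q) - q) (k % q) = 0 := Nat.choose_eq_zero_of_lt (by omega)
  rw [h2, h5, zero_mul] at h1
  rw [Nat.centralBinom_eq_two_mul_choose]
  exact (Nat.modEq_zero_iff_dvd).1 h1

theorem div_not_dvd {q k : ℕ} (hq : q.Prime) (h : ¬ q ∣ Nat.centralBinom k) :
    ¬ q ∣ Nat.centralBinom (k / q) := by
  intro hcon
  have hlt := digit_lt hq h
  apply h
  have := Fact.mk hq
  have h1 := Choose.choose_modEq_choose_mod_mul_choose_div_nat (n := 2 * k) (k := k) (p := q)
  have h2 : (2 * k) / q = 2 * (k / q) := by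
    have h3 : 2 * k = 2 * (k % q) + q * (2 * (k / q)) := by
      have := Nat.div_add_mod k q
      have h4 : q * (2 * (k / q)) = 2 * (q * (k / q)) := by ring
      omega
    rw [h3, Nat.add_mul_div_left _ _ hq.pos, Nat.div_eq_of_lt hlt, zero_add]
  rw [h2] at h1
  rw [Nat.centralBinom_eq_two_mul_choose]
  rw [Nat.centralBinom_eq_two_mul_choose] at hcon
  refine (Nat.modEq_zero_iff_dvd).1 (h1.trans ?_)
  exact (Nat.modEq_zero_iff_dvd).2 (hcon.mul_left _)

theorem card_ND (q : ℕ) (hq : q.Prime) (T D : ℕ) :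
    (ND q (T * q ^ D)).card ≤ T * ((q + 1) / 2) ^ D := by
  induction D with
  | zero =>
    simp only [pow_zero, mul_one]
    calc (ND q T).card ≤ (range T).card := card_filter_le _ _
      _ = T := card_range T
  | succ D ih =>
    have h1 : (ND q (T * q ^ (D + 1))).card
        ≤ (ND q (T * q ^ D) ×ˢ range ((q + 1) / 2)).card := by
      refine card_le_card_of_injOn (fun k => (k / q, k % q)) ?_ ?_
      · intro k hk
        rw [mem_coe, mem_ND] at hk
        rw [mem_coe, mem_product, mem_ND, mem_range]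
        refine ⟨⟨?_, div_not_dvd hq hk.2⟩, ?_⟩
        · rw [Nat.div_lt_iff_lt_mul hq.pos]
          calc k < T * q ^ (D + 1) := hk.1
            _ = T * q ^ D * q := by ring
        · have := digit_lt hq hk.2
          show k % q < (q + 1) / 2
          omega
      · intro k _ l _ h
        simp only [Prod.mk.injEq] at h
        rw [← Nat.div_add_mod k q, ← Nat.div_add_mod l q, h.1, h.2]
    refine h1.trans ?_
    rw [card_product, card_range]
    calc (ND q (T * q ^ D)).card * ((q + 1) / 2) ≤ (T * ((q + 1) / 2) ^ D) * ((q + 1) / 2) :=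
          Nat.mul_le_mul_right _ ih
      _ = T * ((q + 1) / 2) ^ (D + 1) := by ring

/-- the proportion of the `k < M` -/
theorem card_ND_le (q : ℕ) (hq : q.Prime) (h3 : 3 ≤ q) (M D : ℕ) (hD : q ^ D ≤ M) :
    ((ND q M).card : ℝ) ≤ 2 * M * (2 / 3 : ℝ) ^ D := by
  have hpos : 0 < q ^ D := Nat.pow_pos (by omega)
  set T := M / q ^ D + 1 with hT
  have hM : M ≤ T * q ^ D := by
    have := Nat.lt_div_mul_add hpos (a := M)
    rw [hT, add_mul, one_mul]
    omega
  have h1 : (ND q M).card ≤ T * ((q + 1) / 2) ^ D := by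
    refine le_trans (card_le_card ?_) (card_ND q hq T D)
    intro k hk
    rw [mem_ND] at hk ⊢
    exact ⟨by omega, hk.2⟩
  have h2 : (T : ℝ) * q ^ D ≤ 2 * M := by
    have h4 : T * q ^ D ≤ 2 * M := by
      have := Nat.div_mul_le_self M (q ^ D)
      rw [hT, add_mul, one_mul]
      omega
    exact_mod_cast h4
  have hq3 : (3 : ℝ) ≤ q := by exact_mod_cast h3
  have h5 : (((q + 1) / 2 : ℕ) : ℝ) ≤ 2 / 3 * q := by
    have h6 : (((q + 1) / 2 : ℕ) : ℝ) ≤ ((q : ℝ) + 1) / 2 := by
      have := Nat.cast_div_le (m := q + 1) (n := 2) (α := ℝ)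
      push_cast at this
      exact this
    linarith
  calc ((ND q M).card : ℝ) ≤ ((T * ((q + 1) / 2) ^ D : ℕ) : ℝ) := by exact_mod_cast h1
    _ = T * (((q + 1) / 2 : ℕ) : ℝ) ^ D := by push_cast; ring
    _ ≤ T * (2 / 3 * q) ^ D := by
      refine mul_le_mul_of_nonneg_left ?_ (Nat.cast_nonneg _)
      exact pow_le_pow_left₀ (Nat.cast_nonneg _) h5 D
    _ = (T * q ^ D) * (2 / 3 : ℝ) ^ D := by rw [mul_pow]; ring
    _ ≤ 2 * M * (2 / 3 : ℝ) ^ D := mul_le_mul_of_nonneg_right h2 (by positivity)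

end Pool.Agent.Helper10.CB
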