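import Pool.Agent.Helper10.CB.SF

/-!
# Averages over short intervals of the primes dividing h + a
-/

set_option autoImplicit false

open Finset Filter Topology

namespace Pool.Agent.Helper10.CB

open Pool.Agent.Helper90.Twin

theorem card_dvd_le (d B : ℕ) (_ : 0 < d) (a : ℤ) :
    (((Icc 1 B).filter (fun h : ℕ => d ∣ ((h : ℤ) + a).natAbs)).card : ℝ) ≤ B / d + 1 := by
  have h1 : ((Icc 1 B).filter (fun h : ℕ => d ∣ ((h : ℤ) + a).natAbs)).card ≤ B / d + 1 := by
    refine (card_le_card_of_injOn (fun h => h / d) (t := range (B / d + 1)) ?_ ?_).trans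
      (card_range _).le
    · intro h hh
      rw [mem_coe, mem_filter, mem_Icc] at hh
      rw [mem_coe, mem_range]
      exact Nat.lt_succ_of_le (Nat.div_le_div_right hh.1.2)
    · intro h hh h' hh' heq
      rw [mem_coe, mem_filter, mem_Icc] at hh hh'
      have e1 : (d : ℤ) ∣ (h : ℤ) + a := Int.natCast_dvd.2 hh.2
      have e2 : (d : ℤ) ∣ (h' : ℤ) + a := Int.natCast_dvd.2 hh'.2
      have e3 := dvd_sub e1 e2
      have e4 : (h : ℤ) + a - (h' + a) = h - h' := by ring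
      rw [e4] at e3
      have e5 : h' % d = h % d := (Nat.modEq_iff_dvd.2 e3)
      simp only at heq
      rw [← Nat.div_add_mod h d, ← Nat.div_add_mod h' d, heq, e5]
  have h2 : ((B / d : ℕ) : ℝ) ≤ (B : ℝ) / d := Nat.cast_div_le
  have h3 : (((Icc 1 B).filter (fun h : ℕ => d ∣ ((h : ℤ) + a).natAbs)).card : ℝ)
      ≤ ((B / d + 1 : ℕ) : ℝ) := by exact_mod_cast h1
  push_cast at h3
  linarith

theorem exp_four_le {t : ℝ} (h0 : 0 ≤ t) (h1 : t ≤ 4 / 5) : Real.exp t ≤ 1 + 9 / 4 * t := by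
  have h2 := Real.abs_exp_sub_one_le (x := t) (by rw [abs_of_nonneg h0]; linarith)
  rw [abs_of_nonneg h0] at h2
  have h3 := (abs_le.1 h2).2
  linarith

/-- the primes above `B` dividing `m` -/
theorem big_primes {B m : ℕ} (hB : 1 ≤ B) (hm : m ≠ 0) (hl : Real.log m ≤ B) :
    ∑ p ∈ m.primeFactors.filter (fun p => B < p), 1 / (p : ℝ) ≤ 2 := by
  have hBr : (1 : ℝ) ≤ B := by exact_mod_cast hB
  have h4 : ∀ p ∈ m.primeFactors.filter (fun p => B < p), 1 / (p : ℝ) ≤ 1 / B := by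
    intro p hp
    rw [mem_filter] at hp
    apply div_le_div_of_nonneg_left (by norm_num) (by linarith)
    exact_mod_cast hp.2.le
  refine (sum_le_sum h4).trans ?_
  rw [sum_const, nsmul_eq_mul, mul_one_div, div_le_iff₀ (by linarith)]
  have h5 : 2 ^ m.primeFactors.card ≤ m := by
    calc 2 ^ m.primeFactors.card = ∏ p ∈ m.primeFactors, 2 := by rw [prod_const]
      _ ≤ ∏ p ∈ m.primeFactors, p :=
        prod_le_prod' fun p hp => (Nat.prime_of_mem_primeFactors hp).two_le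
      _ ≤ m := Nat.le_of_dvd (Nat.pos_of_ne_zero hm) (Nat.prod_primeFactors_dvd m)
  have h6 : (m.primeFactors.card : ℝ) * Real.log 2 ≤ Real.log m := by
    rw [← Real.log_pow]
    apply Real.log_le_log (by positivity)
    exact_mod_cast h5
  have h7 : ((m.primeFactors.filter (fun p => B < p)).card : ℝ) ≤ m.primeFactors.card := by
    exact_mod_cast card_filter_le _ _
  have h8 := Real.log_two_gt_d9
  have h9 : (0 : ℝ) ≤ m.primeFactors.card := Nat.cast_nonneg _
  nlinarith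

/-- the primes above `B` do not matter -/
theorem Sd_le_add {z B m : ℕ} (hB : 1 ≤ B) (hm : m ≠ 0) (hl : Real.log m ≤ B) :
    Sd z m ≤ Sd B m + 2 := by
  classical
  unfold Sd
  have h1 : ((Ps z).filter (fun p => p ∣ m)) ⊆ ((Ps B).filter (fun p => p ∣ m)) ∪
      (m.primeFactors.filter (fun p => B < p)) := by
    intro p hp
    rw [mem_filter, mem_Ps] at hp
    rw [mem_union, mem_filter, mem_filter, mem_Ps, Nat.mem_primeFactors]
    rcases Nat.lt_or_ge B p with h | h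
    · exact Or.inr ⟨⟨hp.1.2.2, hp.2, hm⟩, h⟩
    · exact Or.inl ⟨⟨hp.1.1, h, hp.1.2.2⟩, hp.2⟩
  have h2 : ∑ p ∈ (Ps z).filter (fun p => p ∣ m), 1 / (p : ℝ)
      ≤ ∑ p ∈ ((Ps B).filter (fun p => p ∣ m)) ∪ (m.primeFactors.filter (fun p => B < p)),
        1 / (p : ℝ) :=
    sum_le_sum_of_subset_of_nonneg h1 fun _ _ _ => by positivity
  refine h2.trans ?_
  have hui := sum_union_inter (s₁ := (Ps B).filter (fun p => p ∣ m))
    (s₂ := m.primeFactors.filter (fun p => B < p)) (f := fun p : ℕ => 1 / (p : ℝ))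
  have hi0 : 0 ≤ ∑ p ∈ ((Ps B).filter (fun p => p ∣ m)) ∩
      (m.primeFactors.filter (fun p => B < p)), 1 / (p : ℝ) := sum_nonneg fun _ _ => by positivity
  have h3 := big_primes hB hm hl
  linarith

theorem sum_inv_sq (B : ℕ) : ∑ p ∈ Ps B, 1 / (p : ℝ) ^ 2 ≤ 1 := by
  have h1 : ∑ p ∈ Ps B, 1 / (p : ℝ) ^ 2 ≤ ∑ n ∈ Ioc 1 B, 1 / (n : ℝ) ^ 2 := by
    refine sum_le_sum_of_subset_of_nonneg ?_ fun _ _ _ => by positivity
    intro p hp
    rw [mem_Ps] at hp
    rw [mem_Ioc]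
    omega
  refine h1.trans ?_
  have h2 := sum_Ioc_inv_sq_le_sub (α := ℝ) (k := 1) (n := B)
  rcases Nat.lt_or_ge B 1 with h | h
  · have : B = 0 := by omega
    rw [this]
    simp
  · have h3 := h2 (by norm_num) h
    have h4 : ∑ n ∈ Ioc 1 B, 1 / (n : ℝ) ^ 2 = ∑ i ∈ Ioc 1 B, ((i : ℝ) ^ 2)⁻¹ :=
      sum_congr rfl fun _ _ => one_div _
    rw [h4]
    refine h3.trans ?_
    have : (0 : ℝ) ≤ (B : ℝ)⁻¹ := by positivity
    push_cast
    linarith

/-- the average over an interval -/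
theorem fa : ∃ C : ℝ, 0 < C ∧ ∀ B z : ℕ, 1 ≤ B → ∀ a : ℤ,
    (∀ h ∈ Icc 1 B, Real.log (((h : ℤ) + a).natAbs : ℕ) ≤ B) →
    ∑ h ∈ (Icc 1 B).filter (fun h : ℕ => ((h : ℤ) + a).natAbs ≠ 0),
      Real.exp (4 * Sd z ((h : ℤ) + a).natAbs) ≤ C * B := by
  classical
  obtain ⟨B0, hB0⟩ := eventually_atTop.1 (eventually_Sz_le (c := 9) (by norm_num) 0)
  refine ⟨Real.exp 8 * (Real.exp 9 + (1 + Real.exp (9 * Sz B0))), by positivity,
    fun B z hB a ha => ?_⟩
  have hBr : (1 : ℝ) ≤ B := by exact_mod_cast hB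
  -- reduction to the primes up to `B`
  have h1 : ∀ h ∈ (Icc 1 B).filter (fun h : ℕ => ((h : ℤ) + a).natAbs ≠ 0),
      Real.exp (4 * Sd z ((h : ℤ) + a).natAbs)
        ≤ Real.exp 8 * ∑ D ∈ (Ps B).powerset, (if (∏ p ∈ D, p) ∣ ((h : ℤ) + a).natAbs then
            ∏ p ∈ D, (9 / (p : ℝ)) else 0) := by
    intro h hh
    rw [mem_filter] at hh
    set m := ((h : ℤ) + a).natAbs with hm
    have h2 := Sd_le_add (z := z) hB hh.2 (ha h hh.1)
    have h3 : Real.exp (4 * Sd z m) ≤ Real.exp 8 * Real.exp (4 * Sd B m) := by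
      rw [← Real.exp_add]
      apply Real.exp_le_exp.2
      linarith
    refine h3.trans (mul_le_mul_of_nonneg_left ?_ (Real.exp_pos _).le)
    have h4 : Real.exp (4 * Sd B m) ≤ ∏ p ∈ Ps B, (1 + (if p ∣ m then 9 / (p : ℝ) else 0)) := by
      unfold Sd
      rw [mul_sum, Real.exp_sum, prod_filter]
      refine prod_le_prod (fun p _ => ?_) fun p hp => ?_
      · split_ifs
        · exact (Real.exp_pos _).le
        · exact zero_le_one
      · rw [mem_Ps] at hp
        split_ifs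
        · have h5 : (5 : ℝ) ≤ p := by exact_mod_cast hp.1
          have h6 := exp_four_le (t := 4 * (1 / (p : ℝ))) (by positivity) (by
            rw [mul_one_div]
            exact div_le_div_of_nonneg_left (by norm_num) (by norm_num) h5)
          have h7 : 9 / 4 * (4 * (1 / (p : ℝ))) = 9 / p := by ring
          linarith
        · norm_num
    refine h4.trans (le_of_eq ?_)
    rw [prod_one_add]
    refine sum_congr rfl fun D hD => ?_
    rw [mem_powerset] at hD
    by_cases h5 : (∏ p ∈ D, p) ∣ m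
    · rw [if_pos h5]
      refine prod_congr rfl fun p hp => ?_
      rw [if_pos ((dvd_prod_of_mem (fun p => p) hp).trans h5)]
    · rw [if_neg h5]
      by_contra h6
      apply h5
      have h7 : ∀ p ∈ D, p ∣ m := by
        intro p hp
        by_contra h8
        apply h6
        refine prod_eq_zero hp ?_
        rw [if_neg h8]
      exact prod_primes_dvd m (fun p hp => ((mem_Ps.1 (hD hp)).2.2).prime) h7
  refine (sum_le_sum h1).trans ?_
  rw [← mul_sum, sum_comm, mul_assoc]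
  refine mul_le_mul_of_nonneg_left ?_ (Real.exp_pos _).le
  have h2 : ∀ D ∈ (Ps B).powerset,
      ∑ h ∈ (Icc 1 B).filter (fun h : ℕ => ((h : ℤ) + a).natAbs ≠ 0),
        (if (∏ p ∈ D, p) ∣ ((h : ℤ) + a).natAbs then ∏ p ∈ D, (9 / (p : ℝ)) else 0)
      ≤ B * ∏ p ∈ D, (9 / (p : ℝ) ^ 2) + ∏ p ∈ D, (9 / (p : ℝ)) := by
    intro D hD
    rw [mem_powerset] at hD
    have hpos : 0 < ∏ p ∈ D, p := prod_pos fun p hp => ((mem_Ps.1 (hD hp)).2.2).pos
    have h3 : ∑ h ∈ (Icc 1 B).filter (fun h : ℕ => ((h : ℤ) + a).natAbs ≠ 0),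
        (if (∏ p ∈ D, p) ∣ ((h : ℤ) + a).natAbs then ∏ p ∈ D, (9 / (p : ℝ)) else 0)
        ≤ ∑ h ∈ Icc 1 B,
        (if (∏ p ∈ D, p) ∣ ((h : ℤ) + a).natAbs then ∏ p ∈ D, (9 / (p : ℝ)) else 0) := by
      refine sum_le_sum_of_subset_of_nonneg (filter_subset _ _) fun h _ _ => ?_
      split_ifs
      · exact prod_nonneg fun p _ => by positivity
      · exact le_rfl
    refine h3.trans ?_
    rw [← sum_filter, sum_const, nsmul_eq_mul]
    have h4 := card_dvd_le (∏ p ∈ D, p) B hpos a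
    have h5 : 0 ≤ ∏ p ∈ D, (9 / (p : ℝ)) := prod_nonneg fun p _ => by positivity
    refine (mul_le_mul_of_nonneg_right h4 h5).trans (le_of_eq ?_)
    rw [add_mul, one_mul]
    congr 1
    push_cast
    rw [div_mul_eq_mul_div, mul_div_assoc, ← prod_div_distrib]
    congr 1
    refine prod_congr rfl fun p _ => ?_
    rw [div_div, pow_two]
  refine (sum_le_sum h2).trans ?_
  rw [sum_add_distrib, ← mul_sum, ← prod_one_add, ← prod_one_add]
  have h3 : ∏ p ∈ Ps B, (1 + 9 / (p : ℝ) ^ 2) ≤ Real.exp 9 := by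
    calc ∏ p ∈ Ps B, (1 + 9 / (p : ℝ) ^ 2) ≤ ∏ p ∈ Ps B, Real.exp (9 / (p : ℝ) ^ 2) := by
          refine prod_le_prod (fun p _ => by positivity) fun p _ => ?_
          have := Real.add_one_le_exp (9 / (p : ℝ) ^ 2)
          linarith
      _ = Real.exp (∑ p ∈ Ps B, 9 / (p : ℝ) ^ 2) := (Real.exp_sum _ _).symm
      _ ≤ Real.exp 9 := by
          apply Real.exp_le_exp.2
          have h4 := sum_inv_sq B
          have h5 : ∑ p ∈ Ps B, 9 / (p : ℝ) ^ 2 = 9 * ∑ p ∈ Ps B, 1 / (p : ℝ) ^ 2 := by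
            rw [mul_sum]
            exact sum_congr rfl fun _ _ => by ring
          linarith
  have h4 : ∏ p ∈ Ps B, (1 + 9 / (p : ℝ)) ≤ (1 + Real.exp (9 * Sz B0)) * B := by
    have h5 : ∏ p ∈ Ps B, (1 + 9 / (p : ℝ)) ≤ Real.exp (9 * Sz B) := by
      unfold Sz
      rw [mul_sum, Real.exp_sum]
      refine prod_le_prod (fun p _ => by positivity) fun p _ => ?_
      have := Real.add_one_le_exp (9 * (1 / (p : ℝ)))
      have e : 9 / (p : ℝ) = 9 * (1 / p) := by ring
      linarith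
    refine h5.trans ?_
    rcases Nat.lt_or_ge B B0 with h | h
    · have h6 : Sz B ≤ Sz B0 := by
        unfold Sz
        refine sum_le_sum_of_subset_of_nonneg ?_ (fun _ _ _ => by positivity)
        intro p hp
        have := mem_Ps.1 hp
        exact mem_Ps.2 ⟨this.1, this.2.1.trans h.le, this.2.2⟩
      have h7 : Real.exp (9 * Sz B) ≤ Real.exp (9 * Sz B0) := Real.exp_le_exp.2 (by linarith)
      have h8 := Real.exp_pos (9 * Sz B0)
      nlinarith
    · have h6 := hB0 B h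
      have h7 : Real.exp (9 * Sz B) ≤ B := by
        rw [← Real.le_log_iff_exp_le (by linarith)]
        linarith
      have h8 := Real.exp_pos (9 * Sz B0)
      nlinarith
  have h5 := mul_le_mul_of_nonneg_left h3 (by linarith : (0 : ℝ) ≤ B)
  calc (B : ℝ) * ∏ p ∈ Ps B, (1 + 9 / (p : ℝ) ^ 2) + ∏ p ∈ Ps B, (1 + 9 / (p : ℝ))
      ≤ B * Real.exp 9 + (1 + Real.exp (9 * Sz B0)) * B := add_le_add h5 h4
    _ = _ := by ring

end Pool.Agent.Helper10.CB
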