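import Pool.Agent.Helper10.CB.SF

/-!
# Removing the exceptional prime
-/

set_option autoImplicit false

open Finset Filter Topology

namespace Pool.Agent.Helper10.CB

open Pool.Agent.Helper90.Twin

theorem card_lin {p q h : ℕ} (hp : p.Prime) (hq : q.Prime) (hne : q ≠ p) :
    ((range q).filter (fun x => p * x ≡ h [MOD q])).card = 1 := by
  have hc : Nat.Coprime p q := (Nat.coprime_primes hp hq).2 hne.symm
  obtain ⟨u, _, hu⟩ := Nat.exists_mul_mod_eq_one_of_coprime hc hq.one_lt
  have hu' : p * u ≡ 1 [MOD q] := by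
    unfold Nat.ModEq
    rw [hu, Nat.mod_eq_of_lt hq.one_lt]
  rw [card_eq_one]
  refine ⟨(u * h) % q, ?_⟩
  have h1 : p * ((u * h) % q) ≡ h [MOD q] := by
    calc p * ((u * h) % q) ≡ p * (u * h) [MOD q] := (Nat.mod_modEq _ _).mul_left p
      _ = (p * u) * h := by ring
      _ ≡ 1 * h [MOD q] := hu'.mul_right h
      _ = h := one_mul h
  ext x
  rw [mem_filter, mem_range, mem_singleton]
  constructor
  · rintro ⟨h2, h3⟩
    have h4 : p * x ≡ p * ((u * h) % q) [MOD q] := h3.trans h1.symm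
    have h5 := Nat.ModEq.cancel_left_of_coprime (by
      rw [Nat.gcd_comm]
      exact hc) h4
    unfold Nat.ModEq at h5
    rw [Nat.mod_mod, Nat.mod_eq_of_lt h2] at h5
    exact h5
  · intro h2
    rw [h2]
    exact ⟨Nat.mod_lt _ hq.pos, h1⟩

theorem rm0 : ∃ (K : ℕ) (C : ℝ), 0 < C ∧ ∀ z N : ℕ, z ^ K ≤ N → ∀ p1 h : ℕ, p1.Prime → 5 ≤ p1 →
    ∀ A : Finset ℕ, (∀ t ∈ A, t < N ∧ ∀ q ∈ Ps z, q ≠ p1 → ¬ q ∣ t ∧ ¬ p1 * t ≡ h [MOD q]) →
    (A.card : ℝ) ≤ C * N * (Real.exp (-(2 * Sz z)) * Real.exp (Sd z h)) := by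
  classical
  obtain ⟨K, C, hC, h0⟩ := gs
  refine ⟨K, C * Real.exp 1, by positivity, fun z N hzN p1 h hp1 hp5 A hA => ?_⟩
  set S : ℕ → ℕ → Prop := fun q x => q ≠ p1 ∧ (q ∣ x ∨ p1 * x ≡ h [MOD q]) with hS
  have hroot : ∀ q : ℕ, 0 < q → ∑ x ∈ range q, (if q ∣ x then (1 : ℝ) else 0) = 1 := by
    intro q hq
    have := sum_root q 0 hq
    simpa using this
  have hlin : ∀ q : ℕ, q.Prime → q ≠ p1 →
      ∑ x ∈ range q, (if p1 * x ≡ h [MOD q] then (1 : ℝ) else 0) = 1 := by
    intro q hq hne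
    rw [Finset.sum_boole, card_lin hp1 hq hne]
    norm_num
  have hub : ∀ q : ℕ, q.Prime → (kil S q : ℝ) ≤ 2 := by
    intro q hq
    rw [kil_cast]
    by_cases hne : q = p1
    · have : ∑ x ∈ range q, (if S q x then (1 : ℝ) else 0) = 0 := by
        refine sum_eq_zero fun x _ => ?_
        simp only [hS]
        rw [if_neg (fun h => h.1 hne)]
      rw [this]
      norm_num
    · have h1 : ∑ x ∈ range q, (if S q x then (1 : ℝ) else 0) ≤
          ∑ x ∈ range q, ((if q ∣ x then (1 : ℝ) else 0) +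
            (if p1 * x ≡ h [MOD q] then (1 : ℝ) else 0)) := by
        refine sum_le_sum fun x _ => ?_
        simp only [hS]
        by_cases h1 : q ∣ x <;> by_cases h2 : p1 * x ≡ h [MOD q] <;> simp [h1, h2, hne]
      refine h1.trans ?_
      rw [sum_add_distrib, hroot q hq.pos, hlin q hq hne]
      norm_num
  have hlb : ∀ q : ℕ, q.Prime → q ≠ p1 →
      2 - (if q ∣ h then (1 : ℝ) else 0) ≤ (kil S q : ℝ) := by
    intro q hq hne
    rw [kil_cast]
    have h1 : ∑ x ∈ range q, ((if q ∣ x then (1 : ℝ) else 0) +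
        (if p1 * x ≡ h [MOD q] then (1 : ℝ) else 0)) -
        ∑ x ∈ range q, (if q ∣ x ∧ p1 * x ≡ h [MOD q] then (1 : ℝ) else 0) ≤
        ∑ x ∈ range q, (if S q x then (1 : ℝ) else 0) := by
      rw [← sum_sub_distrib]
      refine sum_le_sum fun x _ => ?_
      simp only [hS]
      by_cases h1 : q ∣ x <;> by_cases h2 : p1 * x ≡ h [MOD q] <;> simp [h1, h2, hne]
    refine le_trans ?_ h1
    rw [sum_add_distrib, hroot q hq.pos, hlin q hq hne]
    have e1 : ∑ x ∈ range q, (if q ∣ x ∧ p1 * x ≡ h [MOD q] then (1 : ℝ) else 0)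
        ≤ if q ∣ h then (1 : ℝ) else 0 := by
      by_cases h2 : q ∣ h
      · rw [if_pos h2]
        refine (sum_le_sum fun x _ => ?_).trans (hroot q hq.pos).le
        by_cases h3 : q ∣ x
        · rw [if_pos h3]
          split_ifs <;> norm_num
        · rw [if_neg (fun h4 => h3 h4.1), if_neg h3]
      · rw [if_neg h2]
        refine le_of_eq (sum_eq_zero fun x _ => ?_)
        refine if_neg fun h3 => h2 ?_
        have h4 : p1 * x ≡ 0 [MOD q] := (Nat.modEq_zero_iff_dvd).2 (h3.1.mul_left p1)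
        exact (Nat.modEq_zero_iff_dvd).1 (h3.2.symm.trans h4)
    linarith
  have h1 := h0 z N hzN S (fun q _ _ x => by
      simp only [hS]
      have e1 : q ∣ x + q ↔ q ∣ x := Nat.dvd_add_left (dvd_refl q)
      have e2 : p1 * (x + q) ≡ h [MOD q] ↔ p1 * x ≡ h [MOD q] := by
        have e3 : p1 * (x + q) ≡ p1 * x [MOD q] := by
          rw [mul_add]
          have : p1 * q ≡ 0 [MOD q] := (Nat.modEq_zero_iff_dvd).2 (dvd_mul_left q p1)
          have := this.add_left (p1 * x)
          rwa [add_zero] at this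
        exact ⟨fun h => e3.symm.trans h, fun h => e3.trans h⟩
      rw [e1, e2]) (fun p hp h5 => by
      have := hub p hp
      have h6 : (kil S p : ℝ) ≤ 4 := by linarith
      exact_mod_cast h6) A (fun t ht => by
      obtain ⟨g0, g1⟩ := hA t ht
      refine ⟨g0, fun q hq hSq => ?_⟩
      obtain ⟨g2, g3⟩ := g1 q hq hSq.1
      rcases hSq.2 with g | g
      · exact g2 g
      · exact g3 g)
  refine h1.trans ?_
  have h2 : 2 * Sz z - Sd z h - 1 ≤ ∑ q ∈ Ps z, (kil S q : ℝ) / q := by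
    have h3 : 2 * Sz z - Sd z h - ∑ q ∈ Ps z, (if q = p1 then 2 / (q : ℝ) else 0)
        ≤ ∑ q ∈ Ps z, (kil S q : ℝ) / q := by
      rw [Sd_eq]
      unfold Sz
      rw [mul_sum, ← sum_sub_distrib, ← sum_sub_distrib]
      refine sum_le_sum fun q hq => ?_
      have hqp := (mem_Ps.1 hq).2.2
      have hpr : (0 : ℝ) < q := by exact_mod_cast hqp.pos
      by_cases hne : q = p1
      · rw [if_pos hne]
        have e1 : 0 ≤ (if q ∣ h then (1 : ℝ) else 0) / q := by
          split_ifs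
          · positivity
          · rw [zero_div]
        have e2 : 0 ≤ (kil S q : ℝ) / q := by positivity
        have e3 : 2 * (1 / (q : ℝ)) = 2 / q := by ring
        linarith
      · rw [if_neg hne, sub_zero]
        have h3 := div_le_div_of_nonneg_right (hlb q hqp hne) hpr.le
        refine le_trans (le_of_eq ?_) h3
        ring
    have h4 : ∑ q ∈ Ps z, (if q = p1 then 2 / (q : ℝ) else 0) ≤ 1 := by
      rw [← sum_filter]
      have h5 : (Ps z).filter (fun q => q = p1) ⊆ {p1} := by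
        intro q hq
        rw [mem_filter] at hq
        rw [mem_singleton]
        exact hq.2
      have h6 : ∑ q ∈ (Ps z).filter (fun q => q = p1), 2 / (q : ℝ) ≤ ∑ q ∈ {p1}, 2 / (q : ℝ) :=
        sum_le_sum_of_subset_of_nonneg h5 fun _ _ _ => by positivity
      rw [sum_singleton] at h6
      refine h6.trans ?_
      have h7 : (5 : ℝ) ≤ p1 := by exact_mod_cast hp5
      rw [div_le_one (by linarith)]
      linarith
    linarith
  have h5 : Real.exp (-∑ p ∈ Ps z, (kil S p : ℝ) / p)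
      ≤ Real.exp 1 * (Real.exp (-(2 * Sz z)) * Real.exp (Sd z h)) := by
    rw [← Real.exp_add, ← Real.exp_add]
    apply Real.exp_le_exp.2
    linarith
  calc C * N * Real.exp (-∑ p ∈ Ps z, (kil S p : ℝ) / p)
      ≤ C * N * (Real.exp 1 * (Real.exp (-(2 * Sz z)) * Real.exp (Sd z h))) :=
        mul_le_mul_of_nonneg_left h5 (by positivity)
    _ = _ := by ring

end Pool.Agent.Helper10.CB
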