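import Pool.Agent.Helper10.CB.FMb
import Pool.Agent.Helper10.CB.RM
import Pool.Agent.Helper54.CG.EB

/-!
# The number of primes p such that p + h has no prime factor up to z: lower bound
-/

set_option autoImplicit false

open Finset Filter Topology

open scoped Classical

namespace Pool.Agent.Helper10.CB

open Pool.Agent.Helper88.CG (tw pw th)
open Pool.Agent.Helper57.TW (gd pw_nonneg)
open Pool.Agent.Helper90.Twin (Ps mem_Ps Sz)
open Pool.Agent.Helper94.Tot (allSz)

/-- no prime up to `z` divides `t` -/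
def Ro (z t : ℕ) : Prop := ∀ q : ℕ, q.Prime → q ≤ z → ¬ q ∣ t

theorem Ro.R {z t : ℕ} (h : Ro z t) : R z t := fun p hp => h p (mem_Ps.1 hp).2.2 (mem_Ps.1 hp).2.1

/-- the primes `p` of `(2x, 32x]` such that `p + h` has no prime factor up to `z` -/
noncomputable def G (x z h : ℕ) : Finset ℕ :=
  (Ioc (2 * x) (32 * x)).filter (fun p => p.Prime ∧ Ro z (p + h))

theorem mem_G {x z h p : ℕ} : p ∈ G x z h ↔ (2 * x < p ∧ p ≤ 32 * x) ∧ p.Prime ∧ Ro z (p + h) := by
  unfold G
  rw [mem_filter, mem_Ioc]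

/-- the exceptional set -/
theorem exc : ∃ (K : ℕ) (C : ℝ), 0 < C ∧ ∀ x z p1 h : ℕ, z ^ (K + 1) ≤ x → p1.Prime → 5 ≤ p1 →
    p1 ≤ z → h ≤ x →
    (((Ioc (2 * x) (32 * x)).filter (fun m => m.Prime ∧ p1 ∣ m + h ∧
      ∀ p ∈ PH z p1 h, ¬ p ∣ m + h)).card : ℝ)
      ≤ C * (x / p1) * (Real.exp (-(2 * Sz z)) * Real.exp (Sd z h)) := by
  obtain ⟨K, C, hC, h0⟩ := rm0
  refine ⟨K, C * 34, by positivity, fun x z p1 h hzx hp1 hp5 hpz hhx => ?_⟩
  set M := (Ioc (2 * x) (32 * x)).filter (fun m => m.Prime ∧ p1 ∣ m + h ∧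
      ∀ p ∈ PH z p1 h, ¬ p ∣ m + h) with hM
  set N := (32 * x + h) / p1 + 1 with hN
  have hz1 : 1 ≤ z := by omega
  have hzx1 : z ≤ x := (Nat.le_self_pow (by omega) z).trans hzx
  have hzN : z ^ K ≤ N := by
    have h1 : z ^ K * p1 ≤ 32 * x + h := by
      calc z ^ K * p1 ≤ z ^ K * z := Nat.mul_le_mul_left _ hpz
        _ = z ^ (K + 1) := by rw [pow_succ]
        _ ≤ x := hzx
        _ ≤ 32 * x + h := by omega
    have h2 : z ^ K ≤ (32 * x + h) / p1 := (Nat.le_div_iff_mul_le hp1.pos).2 h1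
    omega
  have hinj : Set.InjOn (fun m => (m + h) / p1) (M : Set ℕ) := by
    intro m hm m' hm' heq
    rw [mem_coe, hM, mem_filter] at hm hm'
    simp only at heq
    have e1 := Nat.div_mul_cancel hm.2.2.1
    have e2 := Nat.div_mul_cancel hm'.2.2.1
    rw [heq] at e1
    omega
  have h1 := h0 z N hzN p1 h hp1 hp5 (M.image (fun m => (m + h) / p1)) (fun t ht => by
    rw [mem_image] at ht
    obtain ⟨m, hm, hmt⟩ := ht
    rw [hM, mem_filter, mem_Ioc] at hm
    obtain ⟨⟨hm1, hm2⟩, hmp, hmd, hmP⟩ := hm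
    have e1 : t * p1 = m + h := by
      rw [← hmt]
      exact Nat.div_mul_cancel hmd
    refine ⟨?_, fun q hq hne => ?_⟩
    · rw [← hmt, hN]
      apply Nat.lt_succ_of_le
      exact Nat.div_le_div_right (by omega)
    · have hqm := mem_Ps.1 hq
      have hqm' : ¬ q ∣ m := by
        intro hd
        have := (Nat.prime_dvd_prime_iff_eq hqm.2.2 hmp).1 hd
        omega
      constructor
      · intro hd
        have hd2 : q ∣ m + h := by
          rw [← e1]
          exact hd.mul_right p1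
        by_cases hqh : q ∣ h
        · exact hqm' ((Nat.dvd_add_left hqh).1 hd2)
        · exact hmP q (mem_PH.2 ⟨⟨by omega, hqm.2.1⟩, hqm.2.2, hne, hqh⟩) hd2
      · intro hmod
        apply hqm'
        have e2 : p1 * t = m + h := by rw [mul_comm]; exact e1
        rw [e2] at hmod
        have e3 : m + h ≡ 0 + h [MOD q] := by rw [zero_add]; exact hmod
        exact (Nat.modEq_zero_iff_dvd).1 (Nat.ModEq.add_right_cancel' h e3))
  rw [card_image_of_injOn hinj] at h1
  refine h1.trans ?_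
  refine mul_le_mul_of_nonneg_right ?_ (by positivity)
  have hp0 : (0 : ℝ) < p1 := by exact_mod_cast hp1.pos
  have h2 : (N : ℝ) ≤ 34 * (x / p1) := by
    have h3 : (((32 * x + h) / p1 : ℕ) : ℝ) ≤ ((32 * x + h : ℕ) : ℝ) / p1 := Nat.cast_div_le
    have h4 : ((32 * x + h : ℕ) : ℝ) ≤ 33 * x := by
      push_cast
      have : (h : ℝ) ≤ x := by exact_mod_cast hhx
      linarith
    have h5 : (1 : ℝ) ≤ x / p1 := by
      rw [one_le_div hp0]
      exact_mod_cast hpz.trans hzx1
    have h6 : ((32 * x + h : ℕ) : ℝ) / p1 ≤ 33 * x / p1 := div_le_div_of_nonneg_right h4 hp0.le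
    rw [hN]
    push_cast at h3 h6 ⊢
    have h7 : 33 * (x : ℝ) / p1 = 33 * (x / p1) := by ring
    linarith
  calc C * (N : ℝ) ≤ C * (34 * (x / p1)) := mul_le_mul_of_nonneg_left h2 hC.le
    _ = C * 34 * (x / p1) := by ring

/-- the lower bound -/
theorem fm : ∃ (E0 : ℕ), ∀ E : ℕ, E0 ≤ E → ∃ (c : ℝ) (x0 : ℕ), 0 < c ∧ ∀ x : ℕ, x0 ≤ x →
    ∀ z h : ℕ, z ^ E ≤ x → x < (z + 1) ^ E → 1 ≤ h → h ≤ x → Even h →
    c * (x / Real.log x ^ 2) * Real.exp (Sd z h) ≤ ((G x z h).card : ℝ) := by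
  obtain ⟨E0, c, hc, hfm⟩ := fm0
  obtain ⟨K, C, hC, hexc⟩ := exc
  obtain ⟨C3, hC3, hSz⟩ := allSz
  refine ⟨max E0 (K + 1), fun E hE => ?_⟩
  have hE0 : E0 ≤ E := (le_max_left _ _).trans hE
  have hEK : K + 1 ≤ E := (le_max_right _ _).trans hE
  have hE1 : 1 ≤ E := by omega
  have hEr : (1 : ℝ) ≤ E := by exact_mod_cast hE1
  -- the size of the exceptional prime
  obtain ⟨P0, hP0⟩ := exists_nat_ge (4 * C * C3 ^ 2 * E / c + 5)
  have hP5 : 5 ≤ P0 := by
    have h1 : (0 : ℝ) ≤ 4 * C * C3 ^ 2 * E / c := by positivity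
    have : (5 : ℝ) ≤ P0 := by linarith
    exact_mod_cast this
  obtain ⟨x0, hx0⟩ := hfm E hE0 P0 hP5
  obtain ⟨x1, hx1⟩ : ∃ x1 : ℕ, ∀ x : ℕ, x1 ≤ x → 2 * (E : ℝ) ≤ Real.log x ∧ 3 ^ E ≤ x := by
    have h1 : Tendsto (fun x : ℕ => Real.log x) atTop atTop :=
      Real.tendsto_log_atTop.comp tendsto_natCast_atTop_atTop
    exact eventually_atTop.1 ((h1.eventually_ge_atTop _).and (eventually_ge_atTop _))
  refine ⟨c / 2, x0 + x1 + 1, by positivity, fun x hx z h hzE hxz hh1 hhx heven => ?_⟩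
  obtain ⟨hL, h3E⟩ := hx1 x (by omega)
  obtain ⟨p1, hp1, hPp, hmain⟩ := hx0 x (by omega)
  have hx0' : 1 ≤ x := by omega
  have hz3 : 3 ≤ z := by
    have h1 : 3 < z + 1 := lt_of_pow_lt_pow_left₀ E (by omega) (lt_of_le_of_lt h3E hxz)
    omega
  have hzx : z ≤ x := (Nat.le_self_pow (by omega) z).trans hzE
  have hz1r : (3 : ℝ) ≤ z := by exact_mod_cast hz3
  have hlz : 1 ≤ Real.log z := by
    rw [Real.le_log_iff_exp_le (by linarith)]
    have := Real.exp_one_lt_d9
    linarith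
  have hxr : (1 : ℝ) ≤ x := by exact_mod_cast hx0'
  have hlx : 0 < Real.log x := by linarith
  have hlzx : Real.log z ≤ Real.log x := Real.log_le_log (by linarith) (by exact_mod_cast hzx)
  have hlxz : Real.log x ≤ 2 * E * Real.log z := by
    have h1 : x ≤ (z ^ 2) ^ E := by
      refine hxz.le.trans (Nat.pow_le_pow_left ?_ E)
      nlinarith
    have h2 : (x : ℝ) ≤ (z : ℝ) ^ (2 * E) := by
      rw [pow_mul]
      exact_mod_cast h1
    have h3 := Real.log_le_log (by linarith) h2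
    rw [Real.log_pow] at h3
    push_cast at h3
    exact h3
  have h1 := hmain z h hz3 hzE
  set L := Real.log x with hLdef
  set ex := Real.exp (Sd z h) with hex
  have hex0 : 0 < ex := Real.exp_pos _
  -- the set
  set F := (Icc 1 (32 * x)).filter (fun m => m ≡ 1 [MOD 2] ∧ ∀ p ∈ PH z p1 h, ¬ p ∣ m + h) with hF
  set M := (Ioc (2 * x) (32 * x)).filter (fun m => m.Prime ∧ p1 ∣ m + h ∧
      ∀ p ∈ PH z p1 h, ¬ p ∣ m + h) with hM
  have hsum : ∑ m ∈ F, pw (32 * x) m ≤ ((F.filter (fun m => pw (32 * x) m ≠ 0)).card : ℝ) := by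
    have e1 : ∑ m ∈ F, pw (32 * x) m = ∑ m ∈ F.filter (fun m => pw (32 * x) m ≠ 0), pw (32 * x) m :=
      (sum_filter_ne_zero F).symm
    rw [e1]
    have e2 : ∑ m ∈ F.filter (fun m => pw (32 * x) m ≠ 0), pw (32 * x) m
        ≤ ∑ m ∈ F.filter (fun m => pw (32 * x) m ≠ 0), (1 : ℝ) :=
      sum_le_sum fun m _ => Pool.Agent.Helper54.CG.pw_le (by omega) m
    rw [sum_const, nsmul_eq_mul, mul_one] at e2
    exact e2
  have hsub : F.filter (fun m => pw (32 * x) m ≠ 0) ⊆ G x z h ∪ (if p1 ≤ z then M else ∅) := by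
    intro m hm
    rw [mem_filter, hF, mem_filter, mem_Icc] at hm
    obtain ⟨⟨⟨hm1, hm2⟩, hm3, hm4⟩, hm5⟩ := hm
    obtain ⟨hmp, hm6, hm7⟩ := Pool.Agent.Helper54.CG.pw_supp (by omega) hm5
    have hm8 : 2 * x < m := by
      have : ((2 * x : ℕ) : ℝ) < m := by
        push_cast at hm6 ⊢
        linarith
      exact_mod_cast this
    rw [mem_union]
    by_cases hcase : p1 ≤ z ∧ p1 ∣ m + h
    · right
      rw [if_pos hcase.1, hM, mem_filter, mem_Ioc]
      exact ⟨⟨hm8, hm2⟩, hmp, hcase.2, hm4⟩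
    · left
      rw [mem_G]
      refine ⟨⟨hm8, hm2⟩, hmp, fun q hq hqz hqd => ?_⟩
      have hqm : ¬ q ∣ m := by
        intro hd
        have := (Nat.prime_dvd_prime_iff_eq hq hmp).1 hd
        omega
      have hqh : ¬ q ∣ h := fun hd => hqm ((Nat.dvd_add_left hd).1 hqd)
      have hq1 : q ≠ p1 := fun he => hcase ⟨by omega, by rw [← he]; exact hqd⟩
      have hq2 : 2 < q := by
        rcases Nat.lt_or_ge 2 q with h' | h'
        · exact h'
        · have : q = 2 := le_antisymm h' hq.two_le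
          rw [this] at hqh
          exact absurd heven.two_dvd hqh
      exact hm4 q (mem_PH.2 ⟨⟨hq2, hqz⟩, hq, hq1, hqh⟩) hqd
  have hcard : ((F.filter (fun m => pw (32 * x) m ≠ 0)).card : ℝ)
      ≤ ((G x z h).card : ℝ) + ((if p1 ≤ z then M else ∅ : Finset ℕ).card : ℝ) := by
    exact_mod_cast (card_le_card hsub).trans (card_union_le _ _)
  have hM2 : ((if p1 ≤ z then M else ∅ : Finset ℕ).card : ℝ)
      ≤ 1 / 2 * (c * (x / (L * Real.log z)) * ex) := by
    split_ifs with hp1z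
    · have h2 := hexc x z p1 h ((Nat.pow_le_pow_right (by omega) hEK).trans hzE) hp1 (by omega) hp1z hhx
      refine h2.trans ?_
      have h3 : Real.exp (-(2 * Sz z)) ≤ C3 ^ 2 / Real.log z ^ 2 := by
        have h4 := hSz z (by omega)
        have h5 : Real.exp (-(2 * Sz z)) = Real.exp (-(Sz z)) ^ 2 := by
          rw [← Real.exp_nat_mul]
          push_cast
          ring_nf
        rw [h5, ← div_pow]
        exact pow_le_pow_left₀ (Real.exp_pos _).le h4 2
      have hp0 : (0 : ℝ) < p1 := by exact_mod_cast hp1.pos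
      have h6 : C * (x / p1) * (Real.exp (-(2 * Sz z)) * ex)
          ≤ C * (x / p1) * (C3 ^ 2 / Real.log z ^ 2 * ex) :=
        mul_le_mul_of_nonneg_left (mul_le_mul_of_nonneg_right h3 hex0.le) (by positivity)
      refine h6.trans ?_
      have h7 : C * (x / p1) * (C3 ^ 2 / Real.log z ^ 2 * ex)
          = (C * C3 ^ 2 / (p1 * Real.log z)) * (x / Real.log z) * ex := by
        field_simp
      have h8 : 1 / 2 * (c * (x / (L * Real.log z)) * ex) = (c / (2 * L)) * (x / Real.log z) * ex := by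
        field_simp
      rw [h7, h8]
      refine mul_le_mul_of_nonneg_right ?_ hex0.le
      refine mul_le_mul_of_nonneg_right ?_ (by positivity)
      rw [div_le_div_iff₀ (by positivity) (by positivity)]
      have h9 : 4 * C * C3 ^ 2 * E ≤ c * p1 := by
        have h10 : 4 * C * C3 ^ 2 * E / c ≤ P0 := by linarith
        have h11 : (P0 : ℝ) ≤ p1 := by exact_mod_cast hPp
        have h12 : 4 * C * C3 ^ 2 * E / c ≤ p1 := h10.trans h11
        rw [div_le_iff₀ hc] at h12
        linarith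
      calc C * C3 ^ 2 * (2 * L) ≤ C * C3 ^ 2 * (2 * (2 * E * Real.log z)) := by
            refine mul_le_mul_of_nonneg_left ?_ (by positivity)
            linarith
        _ = (4 * C * C3 ^ 2 * E) * Real.log z := by ring
        _ ≤ (c * p1) * Real.log z := mul_le_mul_of_nonneg_right h9 (by linarith)
        _ = c * (p1 * Real.log z) := by ring
    · rw [card_empty, Nat.cast_zero]
      positivity
  have hfin : c / 2 * (x / L ^ 2) * ex ≤ 1 / 2 * (c * (x / (L * Real.log z)) * ex) := by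
    have h2 : (x : ℝ) / L ^ 2 ≤ x / (L * Real.log z) := by
      apply div_le_div_of_nonneg_left (by linarith) (by positivity)
      nlinarith
    have h3 : c / 2 * (x / L ^ 2) * ex ≤ c / 2 * (x / (L * Real.log z)) * ex :=
      mul_le_mul_of_nonneg_right (mul_le_mul_of_nonneg_left h2 (by positivity)) hex0.le
    refine h3.trans (le_of_eq ?_)
    ring
  linarith only [h1, hsum, hcard, hM2, hfin]

end Pool.Agent.Helper10.CB
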