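import Pool.Agent.Helper57.TW.Main

/-!
# The lower bound sieve for the shift h: the sieve inequality and the classes
-/

set_option autoImplicit false

open Finset Filter Topology

open scoped Classical

namespace Pool.Agent.Helper10.CB

open Pool.Agent.Helper88.CG (tw pw th)
open Pool.Agent.Helper88.PP (SS pr om)
open Pool.Agent.Helper76.TW (Qm)
open Pool.Agent.Helper57.TW (gd pw_nonneg)

/-- the primes of the sieve -/
noncomputable def PH (z p1 h : ℕ) : Finset ℕ := (pr 2 z).filter (fun p => p ≠ p1 ∧ ¬ p ∣ h)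

theorem mem_PH {z p1 h p : ℕ} : p ∈ PH z p1 h ↔ (2 < p ∧ p ≤ z) ∧ p.Prime ∧ p ≠ p1 ∧ ¬ p ∣ h := by
  unfold PH Pool.Agent.Helper88.PP.pr
  rw [mem_filter, mem_filter, mem_Ioc]
  tauto

theorem gd_of_dvdH {z p1 h d : ℕ} (hp1 : p1.Prime) (hd : d ∣ ∏ p ∈ PH z p1 h, p) :
    gd 2 p1 d ∧ Nat.Coprime d h := by
  have hP : ∀ p ∈ PH z p1 h, p.Prime := fun p hp => (mem_PH.1 hp).2.1
  refine ⟨⟨(Pool.Agent.Helper67.CR.sq_prod hP).squarefree_of_dvd hd, fun p hp hpd => ?_,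
    fun h => ?_⟩, ?_⟩
  · have h1 := hpd.trans hd
    rw [Prime.dvd_finsetProd_iff hp.prime] at h1
    obtain ⟨q, hq, hpq⟩ := h1
    have h2 := (Nat.prime_dvd_prime_iff_eq hp (hP q hq)).1 hpq
    rw [h2]
    exact (mem_PH.1 hq).1.1
  · have h1 := h.trans hd
    rw [Prime.dvd_finsetProd_iff hp1.prime] at h1
    obtain ⟨q, hq, hpq⟩ := h1
    have h2 := (Nat.prime_dvd_prime_iff_eq hp1 (hP q hq)).1 hpq
    exact (mem_PH.1 hq).2.2.1 h2.symm
  · refine Nat.coprime_of_dvd fun p hp h1 h2 => ?_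
    have h3 := h1.trans hd
    rw [Prime.dvd_finsetProd_iff hp.prime] at h3
    obtain ⟨q, hq, hpq⟩ := h3
    have h4 := (Nat.prime_dvd_prime_iff_eq hp (hP q hq)).1 hpq
    rw [h4] at h2
    exact (mem_PH.1 hq).2.2.2 h2

/-- the sieve inequality -/
theorem sieve_lbH (X Q a z p1 D h : ℕ) (hp1 : p1.Prime) (l l' : ℕ → ℝ)
    (hsup : ∀ d, l d ≠ 0 ∨ l' d ≠ 0 → d ∣ ∏ p ∈ PH z p1 h, p ∧ d ≤ D)
    (hpt : ∀ n : ℕ, 1 ≤ n →
      ∑ d ∈ n.divisors, l d - (if ∀ p ∈ PH z p1 h, ¬ p ∣ n then 1 else 0)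
        ≤ ∑ d ∈ n.divisors, l' d) :
    ∑ d ∈ (Icc 1 D).filter (fun d => gd 2 p1 d ∧ Nat.Coprime d h), (l d - l' d) *
        ∑ m ∈ (Icc 1 X).filter (fun m => m ≡ a [MOD Q] ∧ d ∣ m + h), pw X m
      ≤ ∑ m ∈ (Icc 1 X).filter (fun m => m ≡ a [MOD Q] ∧
          ∀ p ∈ PH z p1 h, ¬ p ∣ m + h), pw X m := by
  have e1 : ∑ d ∈ (Icc 1 D).filter (fun d => gd 2 p1 d ∧ Nat.Coprime d h), (l d - l' d) *
        ∑ m ∈ (Icc 1 X).filter (fun m => m ≡ a [MOD Q] ∧ d ∣ m + h), pw X m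
      = ∑ m ∈ (Icc 1 X).filter (fun m => m ≡ a [MOD Q]), pw X m *
          ∑ d ∈ (m + h).divisors, (l d - l' d) := by
    have h1 : ∀ d ∈ (Icc 1 D).filter (fun d => gd 2 p1 d ∧ Nat.Coprime d h), (l d - l' d) *
        ∑ m ∈ (Icc 1 X).filter (fun m => m ≡ a [MOD Q] ∧ d ∣ m + h), pw X m
        = ∑ m ∈ (Icc 1 X).filter (fun m => m ≡ a [MOD Q]),
            if d ∣ m + h then pw X m * (l d - l' d) else 0 := by
      intro d _
      rw [← filter_filter, sum_filter, mul_sum]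
      refine sum_congr rfl fun m _ => ?_
      split_ifs
      · ring
      · ring
    rw [sum_congr rfl h1, sum_comm]
    refine sum_congr rfl fun m hm => ?_
    rw [mem_filter, mem_Icc] at hm
    rw [mul_sum, ← sum_filter]
    refine sum_subset_zero_on_sdiff ?_ ?_ (fun _ _ => rfl)
    · intro d hd
      rw [mem_filter, mem_filter] at hd
      exact Nat.mem_divisors.2 ⟨hd.2, by omega⟩
    · intro d hd
      rw [Finset.mem_sdiff, mem_filter, mem_filter, Nat.mem_divisors, mem_Icc] at hd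
      obtain ⟨⟨h2, _⟩, h3⟩ := hd
      by_contra hne
      have h4 : l d ≠ 0 ∨ l' d ≠ 0 := by
        by_contra h
        push Not at h
        rw [h.1, h.2] at hne
        simp at hne
      obtain ⟨h5, h6⟩ := hsup d h4
      exact h3 ⟨⟨⟨Nat.pos_of_dvd_of_pos h2 (by omega), h6⟩, gd_of_dvdH hp1 h5⟩, h2⟩
  rw [e1]
  have e2 : ∑ m ∈ (Icc 1 X).filter (fun m => m ≡ a [MOD Q] ∧
          ∀ p ∈ PH z p1 h, ¬ p ∣ m + h), pw X m
      = ∑ m ∈ (Icc 1 X).filter (fun m => m ≡ a [MOD Q]),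
          pw X m * (if ∀ p ∈ PH z p1 h, ¬ p ∣ m + h then 1 else 0) := by
    rw [← filter_filter, sum_filter]
    refine sum_congr rfl fun m _ => ?_
    by_cases h : ∀ p ∈ PH z p1 h, ¬ p ∣ m + h
    · rw [if_pos h, if_pos h, mul_one]
    · rw [if_neg h, if_neg h, mul_zero]
  rw [e2]
  refine sum_le_sum fun m hm => ?_
  rw [mem_filter, mem_Icc] at hm
  refine mul_le_mul_of_nonneg_left ?_ (pw_nonneg X m)
  have h := hpt (m + h) (by omega)
  rw [sum_sub_distrib]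
  linarith

/-- the class modulo `Q d` -/
noncomputable def clH (Q a h d : ℕ) : ℕ :=
  if hc : Nat.Coprime Q d ∧ Nat.Coprime d h then
    (Nat.chineseRemainder hc.1 a (h * d - h)).1 else 1

theorem clH_spec {Q a h d : ℕ} (hd : 1 ≤ d) (hc : Nat.Coprime Q d) (hh : Nat.Coprime d h) (m : ℕ) :
    m ≡ clH Q a h d [MOD Q * d] ↔ m ≡ a [MOD Q] ∧ d ∣ m + h := by
  have h1 : clH Q a h d = (Nat.chineseRemainder hc a (h * d - h)).1 := by
    unfold clH
    rw [dif_pos ⟨hc, hh⟩]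
  have h2 := (Nat.chineseRemainder hc a (h * d - h)).2
  rw [← h1] at h2
  rw [← Nat.modEq_and_modEq_iff_modEq_mul hc]
  have hle : h ≤ h * d := Nat.le_mul_of_pos_right h hd
  have h3 : ∀ n : ℕ, n ≡ h * d - h [MOD d] ↔ d ∣ n + h := by
    intro n
    have e : h * d - h + h = h * d := Nat.sub_add_cancel hle
    constructor
    · intro hn
      have := Nat.ModEq.add_right h hn
      rw [e] at this
      exact (Nat.modEq_zero_iff_dvd.1 (this.trans (Nat.modEq_zero_iff_dvd.2 (dvd_mul_left d h))))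
    · intro hn
      have h4 : n + h ≡ h * d - h + h [MOD d] := by
        rw [e]
        exact (Nat.modEq_zero_iff_dvd.2 hn).trans (Nat.modEq_zero_iff_dvd.2 (dvd_mul_left d h)).symm
      exact Nat.ModEq.add_right_cancel' h h4
  constructor
  · rintro ⟨h4, h5⟩
    exact ⟨h4.trans h2.1, (h3 m).1 (h5.trans h2.2)⟩
  · rintro ⟨h4, h5⟩
    exact ⟨h4.trans h2.1.symm, ((h3 m).2 h5).trans h2.2.symm⟩

theorem clH_coprime {Q a h d : ℕ} (hd : 1 ≤ d) (ha : Nat.Coprime a Q) :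
    Nat.Coprime (clH Q a h d) (Q * d) := by
  by_cases hc : Nat.Coprime Q d ∧ Nat.Coprime d h
  · have h1 := (clH_spec hd hc.1 hc.2 (clH Q a h d)).1 (Nat.ModEq.refl _)
    refine Nat.Coprime.mul_right ?_ ?_
    · have := h1.1.gcd_eq
      rw [Nat.coprime_iff_gcd_eq_one, this]
      exact ha
    · refine Nat.Coprime.symm (Nat.coprime_of_dvd fun p hp hpd hpc => ?_)
      have h2 : p ∣ clH Q a h d + h := hpd.trans h1.2
      have h3 : p ∣ h := (Nat.dvd_add_right hpc).1 h2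
      have h4 := Nat.dvd_gcd hpd h3
      rw [Nat.coprime_iff_gcd_eq_one.1 hc.2] at h4
      exact hp.one_lt.ne' (Nat.dvd_one.1 h4)
  · unfold clH
    rw [dif_neg hc]
    exact Nat.coprime_one_left _

theorem th_clH {X Q a h d : ℕ} (hd : 1 ≤ d) (hc : Nat.Coprime Q d) (hh : Nat.Coprime d h) :
    ∑ m ∈ (Icc 1 X).filter (fun m => m ≡ a [MOD Q] ∧ d ∣ m + h), pw X m
      = th X (Q * d) (clH Q a h d) := by
  unfold Pool.Agent.Helper88.CG.th
  refine sum_congr (filter_congr fun m _ => ?_) fun _ _ => rfl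
  exact (clH_spec hd hc hh m).symm

/-- the sieve with the error term -/
theorem sieve_mainH (X Q a z p1 D h : ℕ) (hp1 : p1.Prime)
    (hQ : ∀ d : ℕ, (∀ p : ℕ, p.Prime → p ∣ d → 2 < p) → Nat.Coprime Q d) (l l' : ℕ → ℝ)
    (hl : ∀ d, |l d| ≤ 1 ∧ |l' d| ≤ 1)
    (hsup : ∀ d, l d ≠ 0 ∨ l' d ≠ 0 → d ∣ ∏ p ∈ PH z p1 h, p ∧ d ≤ D)
    (hpt : ∀ n : ℕ, 1 ≤ n →
      ∑ d ∈ n.divisors, l d - (if ∀ p ∈ PH z p1 h, ¬ p ∣ n then 1 else 0)
        ≤ ∑ d ∈ n.divisors, l' d) (Rr V ε : ℝ)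
    (hR : ∑ d ∈ (Icc 1 D).filter (gd 2 p1),
      |th X (Q * d) (clH Q a h d) - th X 1 0 / (Nat.totient (Q * d) : ℝ)| ≤ Rr)
    (hV : V ≤ ∑ d ∈ Icc 1 D, l d / (Nat.totient d : ℝ))
    (hV' : ∑ d ∈ Icc 1 D, l' d / (Nat.totient d : ℝ) ≤ ε * V) :
    th X 1 0 / (Nat.totient Q : ℝ) * ((1 - ε) * V) - 2 * Rr
      ≤ ∑ m ∈ (Icc 1 X).filter (fun m => m ≡ a [MOD Q] ∧
          ∀ p ∈ PH z p1 h, ¬ p ∣ m + h), pw X m := by
  refine le_trans ?_ (sieve_lbH X Q a z p1 D h hp1 l l' hsup hpt)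
  have hgd : ∀ d ∈ (Icc 1 D).filter (fun d => gd 2 p1 d ∧ Nat.Coprime d h),
      1 ≤ d ∧ Nat.Coprime Q d ∧ Nat.Coprime d h := by
    intro d hd
    rw [mem_filter] at hd
    exact ⟨(mem_Icc.1 hd.1).1, hQ d hd.2.1.2.1, hd.2.2⟩
  have hTH : 0 ≤ th X 1 0 := by
    unfold Pool.Agent.Helper88.CG.th
    exact sum_nonneg fun n _ => pw_nonneg X n
  have hR2 : ∑ d ∈ (Icc 1 D).filter (fun d => gd 2 p1 d ∧ Nat.Coprime d h),
      |th X (Q * d) (clH Q a h d) - th X 1 0 / (Nat.totient (Q * d) : ℝ)| ≤ Rr := by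
    refine le_trans (sum_le_sum_of_subset_of_nonneg ?_ fun _ _ _ => abs_nonneg _) hR
    intro d hd
    rw [mem_filter] at hd ⊢
    exact ⟨hd.1, hd.2.1⟩
  -- the main term
  have hfull : ∀ g : ℕ → ℝ, (∀ d, g d ≠ 0 → l d ≠ 0 ∨ l' d ≠ 0) →
      ∑ d ∈ (Icc 1 D).filter (fun d => gd 2 p1 d ∧ Nat.Coprime d h), g d / (Nat.totient d : ℝ)
        = ∑ d ∈ Icc 1 D, g d / (Nat.totient d : ℝ) := by
    intro g hg
    refine sum_subset (filter_subset _ _) fun d hd hd' => ?_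
    by_contra hne
    have h1 : g d ≠ 0 := by
      intro h
      rw [h, zero_div] at hne
      exact hne rfl
    exact hd' (mem_filter.2 ⟨hd, gd_of_dvdH hp1 (hsup d (hg d h1)).1⟩)
  have hmain : (1 - ε) * V ≤ ∑ d ∈ (Icc 1 D).filter (fun d => gd 2 p1 d ∧ Nat.Coprime d h),
      (l d - l' d) / (Nat.totient d : ℝ) := by
    have h1 := hfull l (fun d h => Or.inl h)
    have h2 := hfull l' (fun d h => Or.inr h)
    have h3 : ∑ d ∈ (Icc 1 D).filter (fun d => gd 2 p1 d ∧ Nat.Coprime d h),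
        (l d - l' d) / (Nat.totient d : ℝ)
        = ∑ d ∈ Icc 1 D, l d / (Nat.totient d : ℝ) - ∑ d ∈ Icc 1 D, l' d / (Nat.totient d : ℝ) := by
      rw [← h1, ← h2, ← sum_sub_distrib]
      exact sum_congr rfl fun d _ => by ring
    rw [h3]
    linarith
  have hterm : ∀ d ∈ (Icc 1 D).filter (fun d => gd 2 p1 d ∧ Nat.Coprime d h),
      th X 1 0 / (Nat.totient Q : ℝ) * ((l d - l' d) / (Nat.totient d : ℝ))
        - 2 * |th X (Q * d) (clH Q a h d) - th X 1 0 / (Nat.totient (Q * d) : ℝ)|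
      ≤ (l d - l' d) *
        ∑ m ∈ (Icc 1 X).filter (fun m => m ≡ a [MOD Q] ∧ d ∣ m + h), pw X m := by
    intro d hd
    obtain ⟨hd1, hcop, hdh⟩ := hgd d hd
    rw [th_clH hd1 hcop hdh]
    have e1 : th X 1 0 / (Nat.totient (Q * d) : ℝ)
        = th X 1 0 / (Nat.totient Q : ℝ) / (Nat.totient d : ℝ) := by
      rw [Nat.totient_mul hcop]
      push_cast
      rw [div_div]
    rw [e1]
    set u := th X 1 0 / (Nat.totient Q : ℝ) with hu
    set v := th X (Q * d) (clH Q a h d) with hv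
    have h1 : |l d - l' d| ≤ 2 := by
      have := abs_sub (l d) (l' d)
      have h2 := (hl d).1
      have h3 := (hl d).2
      linarith
    have h2 : -(2 * |v - u / (Nat.totient d : ℝ)|) ≤ (l d - l' d) * (v - u / (Nat.totient d : ℝ)) := by
      have h3 := neg_abs_le ((l d - l' d) * (v - u / (Nat.totient d : ℝ)))
      rw [abs_mul] at h3
      have h4 := mul_le_mul_of_nonneg_right h1 (abs_nonneg (v - u / (Nat.totient d : ℝ)))
      linarith
    have h5 : (l d - l' d) * v = u * ((l d - l' d) / (Nat.totient d : ℝ))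
        + (l d - l' d) * (v - u / (Nat.totient d : ℝ)) := by ring
    rw [h5]
    linarith
  refine le_trans ?_ (sum_le_sum hterm)
  rw [sum_sub_distrib, ← mul_sum, ← mul_sum]
  have h6 : 0 ≤ th X 1 0 / (Nat.totient Q : ℝ) := by positivity
  have h7 := mul_le_mul_of_nonneg_left hmain h6
  linarith

end Pool.Agent.Helper10.CB
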