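import Pool.Agent.Helper10.CB.GU

/-!
# The sieve for two, three and four shifts
-/

set_option autoImplicit false

open Finset Filter Topology

namespace Pool.Agent.Helper10.CB

open Pool.Agent.Helper90.Twin

/-- no prime `5 ≤ p ≤ z` divides `t` -/
def R (z t : ℕ) : Prop := ∀ p ∈ Ps z, ¬ p ∣ t

/-- the sum of the `1/p` over the primes `5 ≤ p ≤ z` dividing `m` -/
noncomputable def Sd (z m : ℕ) : ℝ := ∑ p ∈ (Ps z).filter (fun p => p ∣ m), 1 / (p : ℝ)

theorem Sd_nonneg (z m : ℕ) : 0 ≤ Sd z m := sum_nonneg fun _ _ => by positivity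

theorem Sd_le (z m : ℕ) : Sd z m ≤ Sz z := by
  unfold Sd Sz
  exact sum_le_sum_of_subset_of_nonneg (filter_subset _ _) fun _ _ _ => by positivity

/-- the distance -/
def dd (a b : ℕ) : ℕ := ((a : ℤ) - b).natAbs

theorem card_root (p s : ℕ) (hp : 0 < p) : ((range p).filter (fun x => p ∣ x + s)).card = 1 := by
  rw [card_eq_one]
  refine ⟨(p - s % p) % p, ?_⟩
  ext x
  rw [mem_filter, mem_range, mem_singleton]
  have h1 : s % p < p := Nat.mod_lt _ hp
  have h2 : ∀ y : ℕ, p ∣ y + s ↔ p ∣ y + s % p := by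
    intro y
    have h3 : y + s = (y + s % p) + p * (s / p) := by
      have := Nat.mod_add_div s p
      omega
    rw [h3]
    exact (Nat.dvd_add_left (dvd_mul_right p (s / p)))
  constructor
  · rintro ⟨h3, h4⟩
    rw [h2] at h4
    obtain ⟨c, hc⟩ := h4
    rcases Nat.eq_zero_or_pos (s % p) with h5 | h5
    · rw [h5] at hc ⊢
      rw [Nat.sub_zero, Nat.mod_self]
      rcases Nat.eq_zero_or_pos c with h6 | h6
      · rw [h6] at hc
        omega
      · have := Nat.le_mul_of_pos_right p h6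
        omega
    · have h6 : c = 1 := by
        rcases Nat.lt_or_ge c 2 with h7 | h7
        · rcases Nat.eq_zero_or_pos c with h8 | h8
          · rw [h8] at hc
            omega
          · omega
        · have : p * 2 ≤ p * c := Nat.mul_le_mul_left p h7
          omega
      rw [h6, mul_one] at hc
      rw [Nat.mod_eq_of_lt (by omega)]
      omega
  · intro h
    refine ⟨by rw [h]; exact Nat.mod_lt _ hp, ?_⟩
    rw [h2, h]
    rcases Nat.eq_zero_or_pos (s % p) with h5 | h5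
    · rw [h5, Nat.sub_zero, Nat.mod_self]
      exact dvd_zero p
    · rw [Nat.mod_eq_of_lt (by omega)]
      exact ⟨1, by omega⟩

theorem sum_root (p s : ℕ) (hp : 0 < p) :
    ∑ x ∈ range p, (if p ∣ x + s then (1 : ℝ) else 0) = 1 := by
  rw [Finset.sum_boole, card_root p s hp]
  norm_num

theorem dvd_dd {p x a b : ℕ} (h1 : p ∣ x + a) (h2 : p ∣ x + b) : p ∣ dd a b := by
  unfold dd
  rw [← Int.natCast_dvd]
  have h3 : (p : ℤ) ∣ (x : ℤ) + a := by exact_mod_cast h1
  have h4 : (p : ℤ) ∣ (x : ℤ) + b := by exact_mod_cast h2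
  have h5 := dvd_sub h3 h4
  have e : (x : ℤ) + a - (x + b) = a - b := by ring
  rwa [e] at h5

theorem dvd_of_dd {p x a b : ℕ} (h1 : p ∣ x + a) (h2 : p ∣ dd a b) : p ∣ x + b := by
  unfold dd at h2
  rw [← Int.natCast_dvd] at h2
  have h3 : (p : ℤ) ∣ (x : ℤ) + a := by exact_mod_cast h1
  have h5 := dvd_sub h3 h2
  have e : (x : ℤ) + a - (a - b) = x + b := by ring
  rw [e] at h5
  exact_mod_cast h5

theorem sum_root2 (p a b : ℕ) (hp : 0 < p) :
    ∑ x ∈ range p, (if p ∣ x + a ∧ p ∣ x + b then (1 : ℝ) else 0)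
      ≤ if p ∣ dd a b then 1 else 0 := by
  by_cases h : p ∣ dd a b
  · rw [if_pos h]
    refine (sum_le_sum fun x _ => ?_).trans (sum_root p a hp).le
    by_cases h1 : p ∣ x + a
    · rw [if_pos h1]
      split_ifs <;> norm_num
    · rw [if_neg (fun h2 => h1 h2.1), if_neg h1]
  · rw [if_neg h]
    refine le_of_eq (sum_eq_zero fun x _ => ?_)
    rw [if_neg (fun h2 => h (dvd_dd h2.1 h2.2))]

theorem kil_cast (S : ℕ → ℕ → Prop) (p : ℕ) [∀ x, Decidable (S p x)] :
    (kil S p : ℝ) = ∑ x ∈ range p, (if S p x then (1 : ℝ) else 0) := by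
  unfold kil
  rw [Finset.sum_boole]
  refine congrArg Nat.cast (congrArg card ?_)
  ext x
  simp only [mem_filter]

/-- the sum over the primes of the indicator -/
theorem Sd_eq (z m : ℕ) : Sd z m = ∑ p ∈ Ps z, (if p ∣ m then (1 : ℝ) else 0) / p := by
  unfold Sd
  rw [sum_filter]
  refine sum_congr rfl fun p _ => ?_
  split_ifs
  · rfl
  · rw [zero_div]

theorem per_iff (p x s : ℕ) : p ∣ x + p + s ↔ p ∣ x + s := by
  have e : x + p + s = x + s + p := by ring
  rw [e]
  exact Nat.dvd_add_left (dvd_refl p)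

/-- four shifts -/
theorem f4 : ∃ (K : ℕ) (C : ℝ), 0 < C ∧ ∀ z N : ℕ, z ^ K ≤ N → ∀ a b c d : ℕ, ∀ A : Finset ℕ,
    (∀ t ∈ A, t < N ∧ R z (t + a) ∧ R z (t + b) ∧ R z (t + c) ∧ R z (t + d)) →
    (A.card : ℝ) ≤ C * N * (Real.exp (-(4 * Sz z)) * Real.exp (Sd z (dd a b) + Sd z (dd a c) +
      Sd z (dd a d) + Sd z (dd b c) + Sd z (dd b d) + Sd z (dd c d))) := by
  classical
  obtain ⟨K, C, hC, h⟩ := gs
  refine ⟨K, C, hC, fun z N hzN a b c d A hA => ?_⟩
  set S : ℕ → ℕ → Prop := fun p x => p ∣ x + a ∨ p ∣ x + b ∨ p ∣ x + c ∨ p ∣ x + d with hS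
  have hkil : ∀ p, (kil S p : ℝ) = ∑ x ∈ range p, (if S p x then (1 : ℝ) else 0) := by
    intro p
    exact kil_cast S p
  have hub : ∀ p : ℕ, 0 < p → (kil S p : ℝ) ≤ 4 := by
    intro p hp
    rw [hkil]
    have h1 : ∑ x ∈ range p, (if S p x then (1 : ℝ) else 0) ≤
        ∑ x ∈ range p, ((if p ∣ x + a then (1 : ℝ) else 0) + (if p ∣ x + b then (1 : ℝ) else 0) +
          (if p ∣ x + c then (1 : ℝ) else 0) + (if p ∣ x + d then (1 : ℝ) else 0)) := by
      refine sum_le_sum fun x _ => ?_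
      simp only [hS]
      by_cases h1 : p ∣ x + a <;> by_cases h2 : p ∣ x + b <;> by_cases h3 : p ∣ x + c <;>
        by_cases h4 : p ∣ x + d <;> simp [h1, h2, h3, h4] <;> norm_num
    refine h1.trans ?_
    rw [sum_add_distrib, sum_add_distrib, sum_add_distrib, sum_root p a hp, sum_root p b hp,
      sum_root p c hp, sum_root p d hp]
    norm_num
  have hlb : ∀ p : ℕ, 0 < p → 4 - ((if p ∣ dd a b then (1 : ℝ) else 0) +
      (if p ∣ dd a c then (1 : ℝ) else 0) + (if p ∣ dd a d then (1 : ℝ) else 0) +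
      (if p ∣ dd b c then (1 : ℝ) else 0) + (if p ∣ dd b d then (1 : ℝ) else 0) +
      (if p ∣ dd c d then (1 : ℝ) else 0)) ≤ (kil S p : ℝ) := by
    intro p hp
    rw [hkil]
    have h1 : ∑ x ∈ range p, ((if p ∣ x + a then (1 : ℝ) else 0) +
        (if p ∣ x + b then (1 : ℝ) else 0) +
        (if p ∣ x + c then (1 : ℝ) else 0) + (if p ∣ x + d then (1 : ℝ) else 0)) -
        ∑ x ∈ range p, ((if p ∣ x + a ∧ p ∣ x + b then (1 : ℝ) else 0) +
        (if p ∣ x + a ∧ p ∣ x + c then (1 : ℝ) else 0) +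
        (if p ∣ x + a ∧ p ∣ x + d then (1 : ℝ) else 0) +
        (if p ∣ x + b ∧ p ∣ x + c then (1 : ℝ) else 0) +
        (if p ∣ x + b ∧ p ∣ x + d then (1 : ℝ) else 0) +
        (if p ∣ x + c ∧ p ∣ x + d then (1 : ℝ) else 0)) ≤
        ∑ x ∈ range p, (if S p x then (1 : ℝ) else 0) := by
      rw [← sum_sub_distrib]
      refine sum_le_sum fun x _ => ?_
      simp only [hS]
      by_cases h1 : p ∣ x + a <;> by_cases h2 : p ∣ x + b <;> by_cases h3 : p ∣ x + c <;>
        by_cases h4 : p ∣ x + d <;> simp [h1, h2, h3, h4] <;> norm_num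
    refine le_trans ?_ h1
    rw [sum_add_distrib, sum_add_distrib, sum_add_distrib, sum_root p a hp, sum_root p b hp,
      sum_root p c hp, sum_root p d hp, sum_add_distrib, sum_add_distrib, sum_add_distrib,
      sum_add_distrib, sum_add_distrib]
    have e1 := sum_root2 p a b hp
    have e2 := sum_root2 p a c hp
    have e3 := sum_root2 p a d hp
    have e4 := sum_root2 p b c hp
    have e5 := sum_root2 p b d hp
    have e6 := sum_root2 p c d hp
    linarith
  have h1 := h z N hzN S (fun p _ _ x => by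
      simp only [hS, per_iff]) (fun p hp h5 => by
      have := hub p hp.pos
      exact_mod_cast this) A (fun t ht => by
      obtain ⟨g0, g1, g2, g3, g4⟩ := hA t ht
      refine ⟨g0, fun p hp hSp => ?_⟩
      rcases hSp with g | g | g | g
      · exact g1 p hp g
      · exact g2 p hp g
      · exact g3 p hp g
      · exact g4 p hp g)
  refine h1.trans ?_
  refine mul_le_mul_of_nonneg_left ?_ (by positivity)
  rw [← Real.exp_add]
  apply Real.exp_le_exp.2
  have h2 : 4 * Sz z - (Sd z (dd a b) + Sd z (dd a c) +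
      Sd z (dd a d) + Sd z (dd b c) + Sd z (dd b d) + Sd z (dd c d))
      ≤ ∑ p ∈ Ps z, (kil S p : ℝ) / p := by
    rw [Sd_eq, Sd_eq, Sd_eq, Sd_eq, Sd_eq, Sd_eq, ← sum_add_distrib, ← sum_add_distrib,
      ← sum_add_distrib, ← sum_add_distrib, ← sum_add_distrib]
    unfold Sz
    rw [mul_sum, ← sum_sub_distrib]
    refine sum_le_sum fun p hp => ?_
    have hp0 : 0 < p := (mem_Ps.1 hp).2.2.pos
    have hpr : (0 : ℝ) < p := by exact_mod_cast hp0
    have h3 := div_le_div_of_nonneg_right (hlb p hp0) hpr.le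
    refine le_trans (le_of_eq ?_) h3
    ring
  linarith

/-- three shifts -/
theorem f3 : ∃ (K : ℕ) (C : ℝ), 0 < C ∧ ∀ z N : ℕ, z ^ K ≤ N → ∀ a b c : ℕ, ∀ A : Finset ℕ,
    (∀ t ∈ A, t < N ∧ R z (t + a) ∧ R z (t + b) ∧ R z (t + c)) →
    (A.card : ℝ) ≤ C * N * (Real.exp (-(3 * Sz z)) * Real.exp (Sd z (dd a b) + Sd z (dd a c) +
      ∑ p ∈ (Ps z).filter (fun p => p ∣ dd b c ∧ ¬ p ∣ dd a b), 1 / (p : ℝ))) := by
  classical
  obtain ⟨K, C, hC, h⟩ := gs
  refine ⟨K, C, hC, fun z N hzN a b c A hA => ?_⟩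
  set S : ℕ → ℕ → Prop := fun p x => p ∣ x + a ∨ p ∣ x + b ∨ p ∣ x + c with hS
  have hkil : ∀ p, (kil S p : ℝ) = ∑ x ∈ range p, (if S p x then (1 : ℝ) else 0) := by
    intro p
    exact kil_cast S p
  have hub : ∀ p : ℕ, 0 < p → (kil S p : ℝ) ≤ 3 := by
    intro p hp
    rw [hkil]
    have h1 : ∑ x ∈ range p, (if S p x then (1 : ℝ) else 0) ≤
        ∑ x ∈ range p, ((if p ∣ x + a then (1 : ℝ) else 0) + (if p ∣ x + b then (1 : ℝ) else 0) +
          (if p ∣ x + c then (1 : ℝ) else 0)) := by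
      refine sum_le_sum fun x _ => ?_
      simp only [hS]
      by_cases h1 : p ∣ x + a <;> by_cases h2 : p ∣ x + b <;> by_cases h3 : p ∣ x + c <;>
        simp [h1, h2, h3] <;> norm_num
    refine h1.trans ?_
    rw [sum_add_distrib, sum_add_distrib, sum_root p a hp, sum_root p b hp, sum_root p c hp]
    norm_num
  have hlb : ∀ p : ℕ, 0 < p → 3 - ((if p ∣ dd a b then (1 : ℝ) else 0) +
      (if p ∣ dd a c then (1 : ℝ) else 0) +
      (if p ∣ dd b c ∧ ¬ p ∣ dd a b then (1 : ℝ) else 0)) ≤ (kil S p : ℝ) := by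
    intro p hp
    rw [hkil]
    have h1 : ∑ x ∈ range p, ((if p ∣ x + a then (1 : ℝ) else 0) +
        (if p ∣ x + b then (1 : ℝ) else 0) +
        (if p ∣ x + c then (1 : ℝ) else 0)) -
        ∑ x ∈ range p, ((if p ∣ x + a ∧ p ∣ x + b then (1 : ℝ) else 0) +
        (if p ∣ x + a ∧ p ∣ x + c then (1 : ℝ) else 0) +
        (if (p ∣ x + b ∧ p ∣ x + c) ∧ ¬ p ∣ x + a then (1 : ℝ) else 0)) ≤
        ∑ x ∈ range p, (if S p x then (1 : ℝ) else 0) := by
      rw [← sum_sub_distrib]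
      refine sum_le_sum fun x _ => ?_
      simp only [hS]
      by_cases h1 : p ∣ x + a <;> by_cases h2 : p ∣ x + b <;> by_cases h3 : p ∣ x + c <;>
        simp [h1, h2, h3] <;> norm_num
    refine le_trans ?_ h1
    rw [sum_add_distrib, sum_add_distrib, sum_root p a hp, sum_root p b hp,
      sum_root p c hp, sum_add_distrib, sum_add_distrib]
    have e1 := sum_root2 p a b hp
    have e2 := sum_root2 p a c hp
    have e3 : ∑ x ∈ range p, (if (p ∣ x + b ∧ p ∣ x + c) ∧ ¬ p ∣ x + a then (1 : ℝ) else 0)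
        ≤ if p ∣ dd b c ∧ ¬ p ∣ dd a b then (1 : ℝ) else 0 := by
      by_cases h2 : p ∣ dd b c ∧ ¬ p ∣ dd a b
      · rw [if_pos h2]
        refine (sum_le_sum fun x _ => ?_).trans (sum_root p b hp).le
        by_cases h3 : p ∣ x + b
        · rw [if_pos h3]
          split_ifs <;> norm_num
        · rw [if_neg (fun h4 => h3 h4.1.1), if_neg h3]
      · rw [if_neg h2]
        refine le_of_eq (sum_eq_zero fun x _ => ?_)
        refine if_neg fun h3 => h2 ⟨dvd_dd h3.1.1 h3.1.2, fun h4 => h3.2 ?_⟩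
        have h5 : p ∣ dd b a := by
          unfold dd at h4 ⊢
          rwa [← Int.natAbs_neg, neg_sub] at h4
        exact dvd_of_dd h3.1.1 h5
    linarith
  have h1 := h z N hzN S (fun p _ _ x => by
      simp only [hS, per_iff]) (fun p hp h5 => by
      have := hub p hp.pos
      have h6 : (kil S p : ℝ) ≤ 4 := by linarith
      exact_mod_cast h6) A (fun t ht => by
      obtain ⟨g0, g1, g2, g3⟩ := hA t ht
      refine ⟨g0, fun p hp hSp => ?_⟩
      rcases hSp with g | g | g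
      · exact g1 p hp g
      · exact g2 p hp g
      · exact g3 p hp g)
  refine h1.trans ?_
  refine mul_le_mul_of_nonneg_left ?_ (by positivity)
  rw [← Real.exp_add]
  apply Real.exp_le_exp.2
  have h2 : 3 * Sz z - (Sd z (dd a b) + Sd z (dd a c) +
      ∑ p ∈ (Ps z).filter (fun p => p ∣ dd b c ∧ ¬ p ∣ dd a b), 1 / (p : ℝ))
      ≤ ∑ p ∈ Ps z, (kil S p : ℝ) / p := by
    rw [Sd_eq, Sd_eq, sum_filter, ← sum_add_distrib, ← sum_add_distrib]
    unfold Sz
    rw [mul_sum, ← sum_sub_distrib]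
    refine sum_le_sum fun p hp => ?_
    have hp0 : 0 < p := (mem_Ps.1 hp).2.2.pos
    have hpr : (0 : ℝ) < p := by exact_mod_cast hp0
    have h3 := div_le_div_of_nonneg_right (hlb p hp0) hpr.le
    refine le_trans (le_of_eq ?_) h3
    have e : (if p ∣ dd b c ∧ ¬ p ∣ dd a b then 1 / (p : ℝ) else 0)
        = (if p ∣ dd b c ∧ ¬ p ∣ dd a b then (1 : ℝ) else 0) / p := by
      split_ifs
      · rfl
      · rw [zero_div]
    rw [e]
    ring
  linarith

/-- two shifts -/
theorem f2 : ∃ (K : ℕ) (C : ℝ), 0 < C ∧ ∀ z N : ℕ, z ^ K ≤ N → ∀ a b : ℕ, ∀ A : Finset ℕ,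
    (∀ t ∈ A, t < N ∧ R z (t + a) ∧ R z (t + b)) →
    (A.card : ℝ) ≤ C * N * (Real.exp (-(2 * Sz z)) * Real.exp (Sd z (dd a b))) := by
  classical
  obtain ⟨K, C, hC, h⟩ := gs
  refine ⟨K, C, hC, fun z N hzN a b A hA => ?_⟩
  set S : ℕ → ℕ → Prop := fun p x => p ∣ x + a ∨ p ∣ x + b with hS
  have hkil : ∀ p, (kil S p : ℝ) = ∑ x ∈ range p, (if S p x then (1 : ℝ) else 0) := by
    intro p
    exact kil_cast S p
  have hub : ∀ p : ℕ, 0 < p → (kil S p : ℝ) ≤ 2 := by
    intro p hp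
    rw [hkil]
    have h1 : ∑ x ∈ range p, (if S p x then (1 : ℝ) else 0) ≤
        ∑ x ∈ range p, ((if p ∣ x + a then (1 : ℝ) else 0) +
          (if p ∣ x + b then (1 : ℝ) else 0)) := by
      refine sum_le_sum fun x _ => ?_
      simp only [hS]
      by_cases h1 : p ∣ x + a <;> by_cases h2 : p ∣ x + b <;> simp [h1, h2]
    refine h1.trans ?_
    rw [sum_add_distrib, sum_root p a hp, sum_root p b hp]
    norm_num
  have hlb : ∀ p : ℕ, 0 < p → 2 - (if p ∣ dd a b then (1 : ℝ) else 0) ≤ (kil S p : ℝ) := by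
    intro p hp
    rw [hkil]
    have h1 : ∑ x ∈ range p, ((if p ∣ x + a then (1 : ℝ) else 0) +
        (if p ∣ x + b then (1 : ℝ) else 0)) -
        ∑ x ∈ range p, (if p ∣ x + a ∧ p ∣ x + b then (1 : ℝ) else 0) ≤
        ∑ x ∈ range p, (if S p x then (1 : ℝ) else 0) := by
      rw [← sum_sub_distrib]
      refine sum_le_sum fun x _ => ?_
      simp only [hS]
      by_cases h1 : p ∣ x + a <;> by_cases h2 : p ∣ x + b <;> simp [h1, h2]
    refine le_trans ?_ h1
    rw [sum_add_distrib, sum_root p a hp, sum_root p b hp]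
    have e1 := sum_root2 p a b hp
    linarith
  have h1 := h z N hzN S (fun p _ _ x => by
      simp only [hS, per_iff]) (fun p hp h5 => by
      have := hub p hp.pos
      have h6 : (kil S p : ℝ) ≤ 4 := by linarith
      exact_mod_cast h6) A (fun t ht => by
      obtain ⟨g0, g1, g2⟩ := hA t ht
      refine ⟨g0, fun p hp hSp => ?_⟩
      rcases hSp with g | g
      · exact g1 p hp g
      · exact g2 p hp g)
  refine h1.trans ?_
  refine mul_le_mul_of_nonneg_left ?_ (by positivity)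
  rw [← Real.exp_add]
  apply Real.exp_le_exp.2
  have h2 : 2 * Sz z - Sd z (dd a b) ≤ ∑ p ∈ Ps z, (kil S p : ℝ) / p := by
    rw [Sd_eq]
    unfold Sz
    rw [mul_sum, ← sum_sub_distrib]
    refine sum_le_sum fun p hp => ?_
    have hp0 : 0 < p := (mem_Ps.1 hp).2.2.pos
    have hpr : (0 : ℝ) < p := by exact_mod_cast hp0
    have h3 := div_le_div_of_nonneg_right (hlb p hp0) hpr.le
    refine le_trans (le_of_eq ?_) h3
    ring
  linarith

end Pool.Agent.Helper10.CB
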