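import Pool.Agent.Helper10.CB.FMa
import Pool.Agent.Helper10.CB.SF

/-!
# The lower bound sieve for the shift h: the lower bound with one exceptional prime
-/

set_option autoImplicit false

open Finset Filter Topology

open scoped Classical

namespace Pool.Agent.Helper10.CB

open Pool.Agent.Helper88.CG (tw pw th)
open Pool.Agent.Helper88.PP (SS pr om)
open Pool.Agent.Helper76.TW (Qm)
open Pool.Agent.Helper57.TW (gd pw_nonneg mEV mFP mPV th_one_ge)
open Pool.Agent.Helper90.Twin (Ps mem_Ps Sz)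

theorem Qm_two {p1 : ℕ} (h : 3 ≤ p1) : Qm 1 p1 2 = 2 := by
  unfold Pool.Agent.Helper76.TW.Qm
  have e : (Icc 1 2).filter (fun p => p.Prime ∧ p ≠ p1 ∧ ¬ p ∣ 1) = {2} := by
    ext p
    rw [mem_filter, mem_Icc, mem_singleton]
    constructor
    · rintro ⟨h1, h2, _, _⟩
      have := h2.two_le
      omega
    · intro h1
      rw [h1]
      exact ⟨⟨by norm_num, le_refl _⟩, Nat.prime_two, by omega, by norm_num⟩
  rw [e, prod_singleton]

theorem fac_mem {w z p : ℕ} (hw : 2 ≤ w) (hp : p ∈ pr w z) :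
    0 ≤ 1 - 1 / ((p : ℝ) - 1) ∧ 1 - 1 / ((p : ℝ) - 1) ≤ 1 := by
  unfold Pool.Agent.Helper88.PP.pr at hp
  rw [mem_filter, mem_Ioc] at hp
  have h3 : (3 : ℝ) ≤ p := by exact_mod_cast (by omega : 3 ≤ p)
  constructor
  · rw [sub_nonneg, div_le_one (by linarith)]
    linarith
  · have : 0 ≤ 1 / ((p : ℝ) - 1) := by
      apply div_nonneg (by norm_num); linarith
    linarith

theorem V_ge {z p1 h : ℕ} :
    (∏ p ∈ pr 2 z, (1 - 1 / ((p : ℝ) - 1))) * Real.exp (Sd z h)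
      ≤ ∏ p ∈ PH z p1 h, (1 - 1 / ((p : ℝ) - 1)) := by
  have h1 := prod_filter_mul_prod_filter_not (pr 2 z) (fun p => p ∣ h)
    (fun p : ℕ => 1 - 1 / ((p : ℝ) - 1))
  have h2 : ∏ p ∈ (pr 2 z).filter (fun p => p ∣ h), (1 - 1 / ((p : ℝ) - 1))
      ≤ Real.exp (-(Sd z h)) := by
    have h3 : ∏ p ∈ (pr 2 z).filter (fun p => p ∣ h), (1 - 1 / ((p : ℝ) - 1))
        ≤ ∏ p ∈ (pr 2 z).filter (fun p => p ∣ h), Real.exp (-(1 / ((p : ℝ) - 1))) := by
      refine prod_le_prod (fun p hp => (fac_mem le_rfl (mem_filter.1 hp).1).1) fun p _ => ?_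
      have := Real.add_one_le_exp (-(1 / ((p : ℝ) - 1)))
      linarith
    refine h3.trans ?_
    rw [← Real.exp_sum]
    apply Real.exp_le_exp.2
    rw [sum_neg_distrib, neg_le_neg_iff]
    unfold Sd
    have h4 : ∑ p ∈ (Ps z).filter (fun p => p ∣ h), 1 / (p : ℝ)
        ≤ ∑ p ∈ (Ps z).filter (fun p => p ∣ h), 1 / ((p : ℝ) - 1) := by
      refine sum_le_sum fun p hp => ?_
      rw [mem_filter, mem_Ps] at hp
      have h5 : (5 : ℝ) ≤ p := by exact_mod_cast hp.1.1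
      exact div_le_div_of_nonneg_left (by norm_num) (by linarith) (by linarith)
    refine h4.trans (sum_le_sum_of_subset_of_nonneg ?_ ?_)
    · intro p hp
      rw [mem_filter, mem_Ps] at hp
      unfold Pool.Agent.Helper88.PP.pr
      rw [mem_filter, mem_filter, mem_Ioc]
      exact ⟨⟨⟨by omega, hp.1.2.1⟩, hp.1.2.2⟩, hp.2⟩
    · intro p hp _
      unfold Pool.Agent.Helper88.PP.pr at hp
      rw [mem_filter, mem_filter, mem_Ioc] at hp
      have h3 : (3 : ℝ) ≤ p := by exact_mod_cast (by omega : 3 ≤ p)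
      apply div_nonneg (by norm_num); linarith
  have h3 : ∏ p ∈ (pr 2 z).filter (fun p => ¬ p ∣ h), (1 - 1 / ((p : ℝ) - 1))
      ≤ ∏ p ∈ PH z p1 h, (1 - 1 / ((p : ℝ) - 1)) := by
    have hsub : PH z p1 h ⊆ (pr 2 z).filter (fun p => ¬ p ∣ h) := by
      intro p hp
      unfold PH at hp
      rw [mem_filter] at hp ⊢
      exact ⟨hp.1, hp.2.2⟩
    rw [← prod_sdiff hsub]
    refine mul_le_of_le_one_left (prod_nonneg fun p hp =>
      (fac_mem le_rfl (mem_filter.1 (hsub hp)).1).1) ?_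
    exact prod_le_one
      (fun p hp => (fac_mem le_rfl (mem_filter.1 (Finset.sdiff_subset hp)).1).1)
      (fun p hp => (fac_mem le_rfl (mem_filter.1 (Finset.sdiff_subset hp)).1).2)
  have h4 : 0 ≤ ∏ p ∈ (pr 2 z).filter (fun p => ¬ p ∣ h), (1 - 1 / ((p : ℝ) - 1)) :=
    prod_nonneg fun p hp => (fac_mem le_rfl (mem_filter.1 hp).1).1
  rw [← h1]
  calc (∏ p ∈ (pr 2 z).filter (fun p => p ∣ h), (1 - 1 / ((p : ℝ) - 1))) *
        (∏ p ∈ (pr 2 z).filter (fun p => ¬ p ∣ h), (1 - 1 / ((p : ℝ) - 1))) * Real.exp (Sd z h)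
      ≤ Real.exp (-(Sd z h)) *
        (∏ p ∈ (pr 2 z).filter (fun p => ¬ p ∣ h), (1 - 1 / ((p : ℝ) - 1))) * Real.exp (Sd z h) := by
        refine mul_le_mul_of_nonneg_right ?_ (Real.exp_pos _).le
        exact mul_le_mul_of_nonneg_right h2 h4
    _ = (∏ p ∈ (pr 2 z).filter (fun p => ¬ p ∣ h), (1 - 1 / ((p : ℝ) - 1))) *
        (Real.exp (-(Sd z h)) * Real.exp (Sd z h)) := by ring
    _ = ∏ p ∈ (pr 2 z).filter (fun p => ¬ p ∣ h), (1 - 1 / ((p : ℝ) - 1)) := by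
        rw [← Real.exp_add, neg_add_cancel, Real.exp_zero, mul_one]
    _ ≤ _ := h3

/-- the lower bound with one exceptional prime -/
theorem fm0 : ∃ (E0 : ℕ) (c : ℝ), 0 < c ∧ ∀ E : ℕ, E0 ≤ E → ∀ P0 : ℕ, 5 ≤ P0 → ∃ x0 : ℕ,
    ∀ x : ℕ, x0 ≤ x → ∃ p1 : ℕ, p1.Prime ∧ P0 ≤ p1 ∧ ∀ z h : ℕ, 3 ≤ z → z ^ E ≤ x →
    c * (x / (Real.log x * Real.log z)) * Real.exp (Sd z h)
      ≤ ∑ m ∈ (Icc 1 (32 * x)).filter (fun m => m ≡ 1 [MOD 2] ∧
          ∀ p ∈ PH z p1 h, ¬ p ∣ m + h), pw (32 * x) m := by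
  obtain ⟨C, hC, hFP⟩ := mFP
  obtain ⟨c2, hc2, hPV⟩ := mPV
  obtain ⟨c1, hc1, x1, hA1⟩ := Pool.Agent.Helper61.CG.a1
  obtain ⟨b, hb⟩ : ∃ b : ℕ, C * Real.exp (-(b : ℝ)) ≤ 1 / 4 := by
    have h1 : Tendsto (fun b : ℕ => C * Real.exp (-(b : ℝ))) atTop (𝓝 (C * 0)) :=
      Tendsto.const_mul C (Real.tendsto_exp_neg_atTop_nhds_zero.comp tendsto_natCast_atTop_atTop)
    rw [mul_zero] at h1
    obtain ⟨b, hb⟩ := (h1.eventually (gt_mem_nhds (by norm_num : (0 : ℝ) < 1 / 4))).exists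
    exact ⟨b, hb.le⟩
  refine ⟨4 * (4 * b + 6), c1 * c2 ^ 2, by positivity, fun E hE P0 hP0 => ?_⟩
  obtain ⟨x2, hEV⟩ := mEV 1 P0 3 le_rfl
  obtain ⟨x3, hx3⟩ : ∃ x3 : ℕ, ∀ x : ℕ, x3 ≤ x → 64 ≤ Real.log x ∧
      16 / (c1 * c2 ^ 2) ≤ Real.log x := by
    have h1 : Tendsto (fun x : ℕ => Real.log x) atTop atTop :=
      Real.tendsto_log_atTop.comp tendsto_natCast_atTop_atTop
    exact eventually_atTop.1 ((h1.eventually_ge_atTop 64).and
      (h1.eventually_ge_atTop (16 / (c1 * c2 ^ 2))))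
  refine ⟨x1 + x2 + x3 + 1, fun x hx => ?_⟩
  obtain ⟨hL1, hL3⟩ := hx3 x (by omega)
  obtain ⟨p1, hp1, hp1N, _, hEV⟩ := hEV (32 * x) (by omega)
  refine ⟨p1, hp1, hp1N, fun z h hz hzE => ?_⟩
  have hQ := Qm_two (p1 := p1) (by omega)
  set L := Real.log x with hLdef
  have hx1 : 1 ≤ x := by omega
  have hxr : (1 : ℝ) ≤ x := by exact_mod_cast hx1
  set X := 32 * x with hX
  have hXr : (X : ℝ) = 32 * x := by rw [hX]; push_cast; ring
  have hlogX : Real.log X = Real.log 32 + L := by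
    rw [hXr, Real.log_mul (by norm_num) (by positivity)]
  have hlog32 : 0 ≤ Real.log 32 ∧ Real.log 32 ≤ 31 := by
    refine ⟨Real.log_nonneg (by norm_num), ?_⟩
    have := Real.log_le_sub_one_of_pos (by norm_num : (0 : ℝ) < 32)
    linarith
  have hLX : L ≤ Real.log X := by rw [hlogX]; linarith [hlog32.1]
  have hLX2 : Real.log X ≤ 2 * L := by rw [hlogX]; linarith [hlog32.2]
  have hLpos : 0 < L := by linarith
  have hlX : 0 < Real.log X := by linarith
  have hlz : 1 ≤ Real.log z := by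
    rw [Real.le_log_iff_exp_le (by exact_mod_cast (by omega : 0 < z))]
    have h3 : (3 : ℝ) ≤ z := by exact_mod_cast hz
    have := Real.exp_one_lt_d9
    linarith
  have hE1 : 1 ≤ E := by omega
  have hlzL : Real.log z ≤ L := by
    have h1 : z ≤ x := (Nat.le_self_pow (by omega) z).trans hzE
    exact Real.log_le_log (by exact_mod_cast (by omega : 0 < z)) (by exact_mod_cast h1)
  -- the level
  have hlevel : (Qm 1 p1 2 * z ^ (4 * b + 6)) ^ 4 ≤ X := by
    rw [hQ]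
    have h1 : (2 * z ^ (4 * b + 6)) ^ 4 = 16 * z ^ (4 * (4 * b + 6)) := by
      rw [mul_pow, ← pow_mul]
      congr 2
      ring
    rw [h1]
    calc 16 * z ^ (4 * (4 * b + 6)) ≤ 16 * z ^ E :=
          Nat.mul_le_mul_left _ (Nat.pow_le_pow_right (by omega) hE)
      _ ≤ 16 * x := Nat.mul_le_mul_left _ hzE
      _ ≤ X := by omega
  have hw5 : ((2 : ℕ) : ℝ) ^ 5 ≤ Real.log X := by
    push_cast
    linarith
  have hQd : ∀ d : ℕ, (∀ p : ℕ, p.Prime → p ∣ d → 2 < p) → Nat.Coprime 2 d := by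
    intro d hd
    refine Nat.coprime_of_dvd fun p hp h1 h2 => ?_
    have := hd p hp h2
    have := Nat.le_of_dvd (by norm_num) h1
    omega
  have hd1 : ∀ d : ℕ, (∀ p : ℕ, p.Prime → p ∣ d → 2 < p) → 1 ≤ d := by
    intro d hd
    rcases Nat.eq_zero_or_pos d with h | h
    · have := hd 2 Nat.prime_two (by rw [h]; exact dvd_zero 2)
      omega
    · exact h
  have hR := hEV 2 (by norm_num) hw5 (z ^ (4 * b + 6)) hlevel (clH 2 1 h) (fun d hd => by
    rw [hQ]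
    exact clH_coprime (hd1 d hd) (Nat.coprime_one_left 2))
  rw [hQ] at hR
  have hR' : ∑ d ∈ (Icc 1 (z ^ (4 * b + 6))).filter (gd 2 p1),
      |th X (2 * d) (clH 2 1 h d) - th X 1 0 / (Nat.totient (2 * d) : ℝ)|
      ≤ X / Real.log X ^ 3 / (Nat.totient 2 : ℝ) := by
    refine le_trans (le_of_eq (sum_congr ?_ fun _ _ => rfl)) hR
    ext d
    rw [mem_filter, mem_filter]
    exact Iff.rfl
  obtain ⟨l, l', f1, f2, f3, f4, f5⟩ := hFP z b (by omega) (PH z p1 h) (fun p hp => by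
    have h := mem_PH.1 hp
    exact ⟨h.2.1, by omega, h.1.2⟩)
  have hmain := sieve_mainH X 2 1 z p1 (z ^ (4 * b + 6)) h hp1 hQd l l' f1 f2
    (fun n hn => (f3 n hn).2) _ _ (C * Real.exp (-(b : ℝ))) hR' f4 f5
  refine le_trans ?_ hmain
  rw [Nat.totient_two, Nat.cast_one, div_one, div_one]
  -- the numbers
  obtain ⟨g1, g2⟩ := hPV 2 2 z le_rfl (by omega) le_rfl (by omega)
  have hV := V_ge (z := z) (p1 := p1) (h := h)
  set V := ∏ p ∈ PH z p1 h, (1 - 1 / ((p : ℝ) - 1)) with hVdef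
  set ex := Real.exp (Sd z h) with hex
  have hex1 : 1 ≤ ex := Real.one_le_exp (Sd_nonneg z h)
  have hTH := th_one_ge (hA1 X (by omega) 0 (by
    push_cast
    positivity))
  set TH := th X 1 0 with hTHdef
  have hl2 : Real.log ((2 : ℕ) : ℝ) / Real.log ((2 : ℕ) : ℝ) = 1 := by
    push_cast
    exact div_self (Real.log_pos (by norm_num)).ne'
  rw [hl2, mul_one] at g1
  have hV1 : c2 ^ 2 / Real.log z * ex ≤ V := by
    refine le_trans ?_ hV
    refine mul_le_mul_of_nonneg_right ?_ (by linarith)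
    refine le_trans ?_ g1
    calc c2 ^ 2 / Real.log z = c2 * (c2 / Real.log z) := by ring
      _ ≤ c2 * om 2 z := mul_le_mul_of_nonneg_left g2 hc2.le
  set W := c2 ^ 2 / Real.log z * ex with hWdef
  have hW0 : 0 < W := by positivity
  have hWL : c2 ^ 2 / L ≤ W := by
    calc c2 ^ 2 / L ≤ c2 ^ 2 / Real.log z :=
          div_le_div_of_nonneg_left (by positivity) (by linarith) hlzL
      _ = c2 ^ 2 / Real.log z * 1 := (mul_one _).symm
      _ ≤ W := mul_le_mul_of_nonneg_left hex1 (by positivity)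
  have hXpos : (0 : ℝ) < X := by rw [hXr]; positivity
  have hM : c1 * (X / Real.log X) * (3 / 4 * W) ≤ TH * ((1 - C * Real.exp (-(b : ℝ))) * V) := by
    have h2 : 3 / 4 * W ≤ (1 - C * Real.exp (-(b : ℝ))) * V := by
      have h3 : (3 / 4 : ℝ) ≤ 1 - C * Real.exp (-(b : ℝ)) := by linarith
      exact mul_le_mul h3 hV1 hW0.le (by linarith)
    exact mul_le_mul hTH h2 (by positivity) (le_trans (by positivity) hTH)
  have hErr : 2 * (X / Real.log X ^ 3) ≤ c1 * (X / Real.log X) * (1 / 4 * W) := by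
    have h6 : 2 * (X / Real.log X ^ 3) = X / Real.log X * (2 / Real.log X ^ 2) := by
      field_simp
    have h7 : c1 * (X / Real.log X) * (1 / 4 * W) = X / Real.log X * (c1 * (1 / 4 * W)) := by ring
    rw [h6, h7]
    refine mul_le_mul_of_nonneg_left ?_ (by positivity)
    have h3 : 2 / Real.log X ^ 2 ≤ 2 / L ^ 2 :=
      div_le_div_of_nonneg_left (by norm_num) (by positivity) (pow_le_pow_left₀ hLpos.le hLX 2)
    refine h3.trans ?_
    have h4 : 16 ≤ L * (c1 * c2 ^ 2) := by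
      rwa [div_le_iff₀ (by positivity)] at hL3
    have h5 : 2 / L ^ 2 ≤ c1 * (1 / 4 * (c2 ^ 2 / L)) := by
      rw [div_le_iff₀ (by positivity)]
      have h8 : c1 * (1 / 4 * (c2 ^ 2 / L)) * L ^ 2 = 1 / 4 * (L * (c1 * c2 ^ 2)) := by
        field_simp
      rw [h8]
      linarith
    refine h5.trans ?_
    exact mul_le_mul_of_nonneg_left (mul_le_mul_of_nonneg_left hWL (by norm_num)) hc1.le
  have hfin : c1 * c2 ^ 2 * (x / (L * Real.log z)) * ex ≤ c1 * (X / Real.log X) * (1 / 2 * W) := by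
    have h1 : 16 * (x / L) ≤ X / Real.log X := by
      rw [← mul_div_assoc, div_le_div_iff₀ hLpos hlX]
      have h0 : (X : ℝ) * L = 32 * x * L := by rw [hXr]
      rw [h0]
      nlinarith only [hLX2, hxr]
    have h2 : c1 * c2 ^ 2 * (x / (L * Real.log z)) * ex = c1 * (x / L) * W := by
      rw [hWdef]
      field_simp
    rw [h2]
    have h3 : (0 : ℝ) ≤ x / L := by positivity
    have h4 : c1 * (16 * (x / L)) * (1 / 2 * W) ≤ c1 * (X / Real.log X) * (1 / 2 * W) :=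
      mul_le_mul_of_nonneg_right (mul_le_mul_of_nonneg_left h1 hc1.le) (by positivity)
    refine le_trans ?_ h4
    have h5 : 0 ≤ c1 * (x / L) * W := by positivity
    nlinarith only [h5]
  have hsplit : c1 * (X / Real.log X) * (3 / 4 * W) = c1 * (X / Real.log X) * (1 / 2 * W)
      + c1 * (X / Real.log X) * (1 / 4 * W) := by ring
  linarith only [hM, hErr, hfin, hsplit]

end Pool.Agent.Helper10.CB
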