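import Pool.Agent.Helper94.Tot.Final

/-!
# The upper bound sieve in dimension at most four
-/

set_option autoImplicit false

open Finset Filter Topology

namespace Pool.Agent.Helper10.CB

open Pool.Agent.Helper90.Twin

theorem prod_le_exp_nu {w : ℕ → ℕ → ℝ} {κ : ℝ} (hw : Adm w κ) (z : ℕ) :
    ∏ p ∈ Ps z, (1 - nu w p / p) ≤ Real.exp (-∑ p ∈ Ps z, nu w p / p) := by
  rw [← sum_neg_distrib, Real.exp_sum]
  refine prod_le_prod (fun p hp => ?_) fun p hp => ?_
  · have h := (mem_Ps.1 hp)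
    have := hw.frac_le h.2.2 h.1
    linarith
  · have := Real.add_one_le_exp (-(nu w p / (p : ℝ)))
    linarith

theorem exp_Sz_le {w : ℕ → ℕ → ℝ} (hw : Adm w 4) (z : ℕ) :
    Real.exp (-(4 * Sz z)) ≤ Real.exp (-∑ p ∈ Ps z, nu w p / p) := by
  apply Real.exp_le_exp.2
  rw [neg_le_neg_iff]
  unfold Sz
  rw [mul_sum]
  refine sum_le_sum fun p hp => ?_
  have h := (mem_Ps.1 hp)
  rw [mul_one_div]
  exact div_le_div_of_nonneg_right (hw.nu_le p h.2.2 h.1) (Nat.cast_nonneg _)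

/-- the upper bound sieve -/
theorem gu : ∃ (K : ℕ) (C : ℝ), 0 < C ∧ ∀ z N : ℕ, z ^ K ≤ N →
    ∀ w : ℕ → ℕ → ℝ, Adm w 4 →
    ∑ t ∈ range N, ∏ p ∈ Ps z, (1 - w p t) ≤ C * N * Real.exp (-∑ p ∈ Ps z, nu w p / p) := by
  obtain ⟨K, hK⟩ := fundamental (κ := 4) (by norm_num) (δ := 1) (by norm_num) (A := 4) (by norm_num)
  obtain ⟨z0, hz0⟩ := eventually_atTop.1 (hK.and ((eventually_Sz_le (c := 4) (by norm_num) 0).and
    (eventually_ge_atTop 1)))
  refine ⟨K + 1, max 4 (Real.exp (4 * Sz z0)), lt_max_of_lt_left (by norm_num),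
    fun z N hzN w hw => ?_⟩
  rcases Nat.lt_or_ge z z0 with h | h
  · -- small `z`: trivial
    have h1 : ∑ t ∈ range N, ∏ p ∈ Ps z, (1 - w p t) ≤ ∑ t ∈ range N, (1 : ℝ) := by
      refine sum_le_sum fun t _ => prod_le_one (fun p hp => ?_) fun p hp => ?_
      · have h := (mem_Ps.1 hp)
        have := hw.le_one p h.2.2 h.1 t
        linarith
      · have h := (mem_Ps.1 hp)
        have := hw.nonneg p h.2.2 h.1 t
        linarith
    rw [sum_const, card_range, nsmul_eq_mul, mul_one] at h1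
    refine h1.trans ?_
    have h2 : Sz z ≤ Sz z0 := by
      unfold Sz
      refine sum_le_sum_of_subset_of_nonneg ?_ (fun _ _ _ => by positivity)
      intro p hp
      have := mem_Ps.1 hp
      exact mem_Ps.2 ⟨this.1, this.2.1.trans h.le, this.2.2⟩
    have h3 : 1 ≤ max 4 (Real.exp (4 * Sz z0)) * Real.exp (-∑ p ∈ Ps z, nu w p / p) := by
      calc (1 : ℝ) = Real.exp (4 * Sz z0) * Real.exp (-(4 * Sz z0)) := by
            rw [← Real.exp_add, add_neg_cancel, Real.exp_zero]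
        _ ≤ max 4 (Real.exp (4 * Sz z0)) * Real.exp (-∑ p ∈ Ps z, nu w p / p) := by
            refine mul_le_mul (le_max_right _ _) ?_ (Real.exp_pos _).le
              (le_trans (by norm_num) (le_max_left _ _))
            refine le_trans ?_ (exp_Sz_le hw z)
            apply Real.exp_le_exp.2
            linarith
    calc (N : ℝ) = N * 1 := (mul_one _).symm
      _ ≤ N * (max 4 (Real.exp (4 * Sz z0)) * Real.exp (-∑ p ∈ Ps z, nu w p / p)) :=
          mul_le_mul_of_nonneg_left h3 (Nat.cast_nonneg _)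
      _ = _ := by ring
  · obtain ⟨h1, h2, h3⟩ := hz0 z h
    have h4 := h1 w hw N
    have h5 := prod_le_exp_nu hw z
    have h6 := exp_Sz_le hw z
    set Q := Real.exp (-∑ p ∈ Ps z, nu w p / p) with hQ
    have hN : (0 : ℝ) ≤ N := Nat.cast_nonneg _
    have hz : (0 : ℝ) < z := by exact_mod_cast h3
    -- the power of `z`
    have h7 : (z : ℝ) ^ K ≤ N * Real.exp (-(4 * Sz z)) := by
      have h8 : (z : ℝ) ^ K * z ≤ N := by
        have : (z : ℝ) ^ (K + 1) ≤ N := by exact_mod_cast hzN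
        rwa [pow_succ] at this
      have h9 : Real.exp (4 * Sz z) ≤ z := by
        rw [← Real.le_log_iff_exp_le hz]
        linarith
      rw [Real.exp_neg, ← div_eq_mul_inv, le_div_iff₀ (Real.exp_pos _)]
      exact le_trans (mul_le_mul_of_nonneg_left h9 (by positivity)) h8
    have h10 := (abs_le.1 h4).2
    have h11 : (N : ℝ) * ∏ p ∈ Ps z, (1 - nu w p / p) ≤ N * Q := mul_le_mul_of_nonneg_left h5 hN
    have h12 : (N : ℝ) * Real.exp (-(4 * Sz z)) ≤ N * Q := mul_le_mul_of_nonneg_left h6 hN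
    have hQ0 : 0 ≤ Q := (Real.exp_pos _).le
    calc ∑ t ∈ range N, ∏ p ∈ Ps z, (1 - w p t) ≤ 4 * (N * Q) := by linarith
      _ ≤ max 4 (Real.exp (4 * Sz z0)) * (N * Q) :=
          mul_le_mul_of_nonneg_right (le_max_left _ _) (by positivity)
      _ = _ := by ring

/-- the number of residues killed by `p` -/
noncomputable def kil (S : ℕ → ℕ → Prop) (p : ℕ) : ℕ := by
  classical
  exact ((range p).filter (fun x => S p x)).card

/-- the sieve for sets -/
theorem gs : ∃ (K : ℕ) (C : ℝ), 0 < C ∧ ∀ z N : ℕ, z ^ K ≤ N →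
    ∀ S : ℕ → ℕ → Prop, (∀ p : ℕ, p.Prime → 5 ≤ p → ∀ x, S p (x + p) ↔ S p x) →
    (∀ p : ℕ, p.Prime → 5 ≤ p → kil S p ≤ 4) → ∀ A : Finset ℕ,
    (∀ t ∈ A, t < N ∧ ∀ p ∈ Ps z, ¬ S p t) →
    (A.card : ℝ) ≤ C * N * Real.exp (-∑ p ∈ Ps z, (kil S p : ℝ) / p) := by
  classical
  obtain ⟨K, C, hC, h⟩ := gu
  refine ⟨K, C, hC, fun z N hzN S hper hk A hA => ?_⟩
  set w : ℕ → ℕ → ℝ := fun p t => if S p t then 1 else 0 with hw
  have hnu : ∀ p, nu w p = kil S p := by
    intro p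
    unfold nu kil
    rw [← Finset.sum_boole]
  have hadm : Adm w 4 := by
    refine ⟨fun p _ _ x => ?_, fun p _ _ x => ?_, fun p hp h5 x => ?_, fun p hp h5 => ?_⟩
    · simp only [hw]
      split_ifs <;> norm_num
    · simp only [hw]
      split_ifs <;> norm_num
    · simp only [hw]
      simp only [hper p hp h5 x]
    · rw [hnu]
      exact_mod_cast hk p hp h5
  have h1 := h z N hzN w hadm
  simp only [hnu] at h1
  refine le_trans ?_ h1
  have h2 : (A.card : ℝ) = ∑ t ∈ A, ∏ p ∈ Ps z, (1 - w p t) := by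
    rw [← nsmul_one, ← Finset.sum_const]
    refine sum_congr rfl fun t ht => ?_
    rw [eq_comm]
    refine prod_eq_one fun p hp => ?_
    simp only [hw]
    rw [if_neg ((hA t ht).2 p hp), sub_zero]
  rw [h2]
  refine sum_le_sum_of_subset_of_nonneg (fun t ht => mem_range.2 (hA t ht).1) fun t _ _ => ?_
  refine prod_nonneg fun p hp => ?_
  have h := (mem_Ps.1 hp)
  have := hadm.le_one p h.2.2 h.1 t
  linarith

end Pool.Agent.Helper10.CB
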