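import Pool.Agent.Helper10.CB.Dig

/-!
# For every n: representations free of prime factors up to exp(c sqrt(log n))
-/

set_option autoImplicit false

open Finset

namespace Pool.Agent.Helper10.CB

/-- the `m`-th prime -/
noncomputable def P (m : ℕ) : ℕ := Nat.nth Nat.Prime (m - 1)

theorem P_prime (m : ℕ) : (P m).Prime := Nat.prime_nth_prime _

theorem P_ge {m : ℕ} (hm : 1 ≤ m) : m + 1 ≤ P m := by
  have := Nat.add_two_le_nth_prime (m - 1)
  unfold P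
  omega

theorem not_two_dvd {k m : ℕ} (hk : 1 ≤ k) (hm : 2 ≤ m) : ¬ 2 ∣ Nat.centralBinom k + P m := by
  intro h
  have h1 : 2 ∣ Nat.centralBinom k := Nat.two_dvd_centralBinom_of_one_le hk
  have h2 : 2 ∣ P m := (Nat.dvd_add_right h1).1 h
  have h3 := (Nat.prime_dvd_prime_iff_eq Nat.prime_two (P_prime m)).1 h2
  have h4 := P_ge (show 1 ≤ m by omega)
  omega

theorem exp_le : Real.exp (2 / 5 : ℝ) ≤ 3 / 2 := by
  by_contra h
  push Not at h
  have h1 : (3 / 2 : ℝ) ^ 5 < Real.exp (2 / 5 : ℝ) ^ 5 :=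
    pow_lt_pow_left₀ h (by norm_num) (by norm_num)
  rw [← Real.exp_nat_mul] at h1
  have h2 : Real.exp (((5 : ℕ) : ℝ) * (2 / 5)) = Real.exp 1 ^ 2 := by
    rw [← Real.exp_nat_mul]
    norm_num
  rw [h2] at h1
  have h3 := Real.exp_one_lt_d9
  have h4 : Real.exp 1 ^ 2 ≤ 2.7182818286 ^ 2 := pow_le_pow_left₀ (Real.exp_pos 1).le h3.le 2
  norm_num at h1 h4
  linarith

theorem two_thirds_pow (D : ℕ) : (2 / 3 : ℝ) ^ D ≤ Real.exp (-(2 / 5 * D)) := by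
  have h1 : (2 / 3 : ℝ) ≤ Real.exp (-(2 / 5)) := by
    rw [Real.exp_neg, ← one_div, le_div_iff₀ (Real.exp_pos _)]
    have := exp_le
    linarith
  calc (2 / 3 : ℝ) ^ D ≤ Real.exp (-(2 / 5)) ^ D := pow_le_pow_left₀ (by norm_num) h1 D
    _ = Real.exp (-(2 / 5 * D)) := by
      rw [← Real.exp_nat_mul]
      ring_nf

/-- the bad `k` -/
noncomputable def Bad (n : ℕ) (y : ℝ) : Finset ℕ := by
  classical
  exact (range n).filter (fun k => 1 ≤ k ∧ 2 * k < n ∧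
    ∃ q : ℕ, q.Prime ∧ (q : ℝ) ≤ y ∧ q ∣ Nat.centralBinom k + P (n - k))

theorem mem_Bad {n k : ℕ} {y : ℝ} : k ∈ Bad n y ↔ 1 ≤ k ∧ 2 * k < n ∧
    ∃ q : ℕ, q.Prime ∧ (q : ℝ) ≤ y ∧ q ∣ Nat.centralBinom k + P (n - k) := by
  classical
  unfold Bad
  rw [mem_filter, mem_range]
  constructor
  · exact fun h => h.2
  · exact fun h => ⟨by omega, h⟩

theorem card_Bad (n D : ℕ) (y : ℝ) (hy0 : 1 ≤ y) (hy : 2 * y < n + 3)
    (hD : y ^ D ≤ ((n + 1) / 2 : ℕ)) :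
    ((Bad n y).card : ℝ) ≤ y * (2 * ((n + 1) / 2 : ℕ) * (2 / 3 : ℝ) ^ D) := by
  classical
  set M := (n + 1) / 2 with hM
  have h1 : Bad n y ⊆ ((Icc 1 ⌊y⌋₊).filter (fun q => q.Prime ∧ 3 ≤ q)).biUnion
      (fun q => ND q M) := by
    intro k hk
    rw [mem_Bad] at hk
    obtain ⟨hk1, hk2, q, hq, hqy, hdvd⟩ := hk
    rw [mem_biUnion]
    have hq3 : 3 ≤ q := by
      rcases Nat.lt_or_ge q 3 with h | h
      · have : q = 2 := le_antisymm (by omega) hq.two_le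
        rw [this] at hdvd
        exact absurd hdvd (not_two_dvd hk1 (by omega))
      · exact h
    refine ⟨q, ?_, ?_⟩
    · rw [mem_filter, mem_Icc]
      exact ⟨⟨by omega, Nat.le_floor hqy⟩, hq, hq3⟩
    · rw [mem_ND]
      refine ⟨by omega, fun h => ?_⟩
      have h2 : q ∣ P (n - k) := (Nat.dvd_add_right h).1 hdvd
      have h3 := (Nat.prime_dvd_prime_iff_eq hq (P_prime _)).1 h2
      have h4 := P_ge (show 1 ≤ n - k by omega)
      have h5 : n + 3 ≤ 2 * q := by omega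
      have h6 : ((n : ℝ) + 3) ≤ 2 * q := by exact_mod_cast h5
      linarith
  have h2 : (Bad n y).card ≤ ∑ q ∈ (Icc 1 ⌊y⌋₊).filter (fun q => q.Prime ∧ 3 ≤ q), (ND q M).card :=
    (card_le_card h1).trans card_biUnion_le
  have h3 : ((Bad n y).card : ℝ) ≤ ∑ q ∈ (Icc 1 ⌊y⌋₊).filter (fun q => q.Prime ∧ 3 ≤ q),
      ((ND q M).card : ℝ) := by exact_mod_cast h2
  refine h3.trans ?_
  have h4 : ∀ q ∈ (Icc 1 ⌊y⌋₊).filter (fun q => q.Prime ∧ 3 ≤ q),
      ((ND q M).card : ℝ) ≤ 2 * M * (2 / 3 : ℝ) ^ D := by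
    intro q hq
    rw [mem_filter, mem_Icc] at hq
    refine card_ND_le q hq.2.1 hq.2.2 M D ?_
    have h5 : (q : ℝ) ≤ y := (Nat.cast_le.2 hq.1.2).trans (Nat.floor_le (by linarith))
    have h6 : (q : ℝ) ^ D ≤ M := (pow_le_pow_left₀ (Nat.cast_nonneg _) h5 D).trans hD
    exact_mod_cast h6
  refine (sum_le_sum h4).trans ?_
  rw [sum_const, nsmul_eq_mul]
  refine mul_le_mul_of_nonneg_right ?_ (by positivity)
  calc (((Icc 1 ⌊y⌋₊).filter (fun q => q.Prime ∧ 3 ≤ q)).card : ℝ) ≤ ((Icc 1 ⌊y⌋₊).card : ℝ) := by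
        exact_mod_cast card_filter_le _ _
    _ = ⌊y⌋₊ := by rw [Nat.card_Icc]; simp
    _ ≤ y := Nat.floor_le (by linarith)

end Pool.Agent.Helper10.CB
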