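import Pool.Agent.Helper10.CB.H1

/-!
# For every n: conclusion
-/

set_option autoImplicit false

open Finset Filter Topology

namespace Pool.Agent.Helper10.CB

theorem Bad_mono {n : ℕ} {y y' : ℝ} (h : y ≤ y') : Bad n y ⊆ Bad n y' := by
  intro k hk
  rw [mem_Bad] at hk ⊢
  obtain ⟨h1, h2, q, h3, h4, h5⟩ := hk
  exact ⟨h1, h2, q, h3, h4.trans h, h5⟩

theorem Bad_empty {n : ℕ} {y : ℝ} (hy : y < 3) : Bad n y = ∅ := by
  rw [eq_empty_iff_forall_notMem]
  intro k hk
  rw [mem_Bad] at hk
  obtain ⟨h1, h2, q, h3, h4, h5⟩ := hk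
  have h6 : q < 3 := by
    have : (q : ℝ) < 3 := lt_of_le_of_lt h4 hy
    exact_mod_cast this
  have h7 : q = 2 := le_antisymm (by omega) h3.two_le
  rw [h7] at h5
  exact not_two_dvd h1 (by omega) h5

theorem bad_large {n : ℕ} (hn : 10 ≤ n) {s : ℝ} (hs : s ^ 2 = Real.log n) (hs2 : 2 ≤ s) :
    ((Bad n (Real.exp (s / 2))).card : ℝ)
      ≤ 6 * ((n + 1) / 2 : ℕ) * Real.exp (-(3 / 10 * s)) := by
  have hn0 : (0 : ℝ) < n := by exact_mod_cast (by omega : 0 < n)
  have hnexp : (n : ℝ) = Real.exp (s ^ 2) := by rw [hs, Real.exp_log hn0]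
  have he1 : (2 : ℝ) ≤ Real.exp (s / 2) := by
    have := Real.add_one_le_exp (s / 2)
    linarith
  set M := (n + 1) / 2 with hM
  have hMn : (n : ℝ) / 2 ≤ M := by
    have h1 : n ≤ 2 * M := by omega
    have h2 : (n : ℝ) ≤ 2 * M := by exact_mod_cast h1
    linarith
  set D := ⌊2 * s - 1⌋₊ with hD
  have hDle : (D : ℝ) ≤ 2 * s - 1 := Nat.floor_le (by linarith)
  have hDge : 2 * s - 2 ≤ D := by
    have := Nat.lt_floor_add_one (2 * s - 1)
    linarith
  have hy : 2 * Real.exp (s / 2) < n + 3 := by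
    have h1 : Real.exp (s / 2) * Real.exp (s / 2) ≤ Real.exp (s ^ 2) := by
      rw [← Real.exp_add]
      apply Real.exp_le_exp.2
      nlinarith
    rw [hnexp]
    nlinarith
  have hpow : Real.exp (s / 2) ^ D ≤ M := by
    rw [← Real.exp_nat_mul]
    have h1 : (D : ℝ) * (s / 2) ≤ s ^ 2 - s / 2 := by nlinarith
    calc Real.exp ((D : ℝ) * (s / 2)) ≤ Real.exp (s ^ 2 - s / 2) := Real.exp_le_exp.2 h1
      _ = n / Real.exp (s / 2) := by rw [Real.exp_sub, ← hnexp]
      _ ≤ n / 2 := div_le_div_of_nonneg_left hn0.le (by norm_num) he1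
      _ ≤ M := hMn
  have h1 := card_Bad n D (Real.exp (s / 2)) (by linarith) hy hpow
  refine h1.trans ?_
  rw [← hM]
  have h2 := two_thirds_pow D
  have h3 : Real.exp (-(2 / 5 * (D : ℝ))) ≤ Real.exp (4 / 5) * Real.exp (-(4 / 5 * s)) := by
    rw [← Real.exp_add]
    apply Real.exp_le_exp.2
    linarith
  have h4 : Real.exp (4 / 5 : ℝ) ≤ 3 := by
    calc Real.exp (4 / 5 : ℝ) = Real.exp (2 / 5) * Real.exp (2 / 5) := by
          rw [← Real.exp_add]; norm_num
      _ ≤ 3 / 2 * (3 / 2) := mul_le_mul exp_le exp_le (Real.exp_pos _).le (by norm_num)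
      _ ≤ 3 := by norm_num
  have h5 : (2 / 3 : ℝ) ^ D ≤ 3 * Real.exp (-(4 / 5 * s)) :=
    h2.trans (h3.trans (mul_le_mul_of_nonneg_right h4 (Real.exp_pos _).le))
  have hM0 : (0 : ℝ) ≤ M := Nat.cast_nonneg _
  calc Real.exp (s / 2) * (2 * (M : ℝ) * (2 / 3 : ℝ) ^ D)
      ≤ Real.exp (s / 2) * (2 * (M : ℝ) * (3 * Real.exp (-(4 / 5 * s)))) := by
        refine mul_le_mul_of_nonneg_left ?_ (Real.exp_pos _).le
        exact mul_le_mul_of_nonneg_left h5 (by positivity)
    _ = 6 * M * (Real.exp (s / 2) * Real.exp (-(4 / 5 * s))) := by ring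
    _ = 6 * M * Real.exp (-(3 / 10 * s)) := by
        rw [← Real.exp_add]
        ring_nf

theorem h1 : ∃ c : ℝ, 0 < c ∧ ∀ n : ℕ, 3 ≤ n →
    (∃ k m : ℕ, 0 < k ∧ k < m ∧ k + m = n ∧ ∀ q : ℕ, q.Prime →
      q ∣ Nat.centralBinom k + Nat.nth Nat.Prime (m - 1) →
        Real.exp (c * √(Real.log n)) < q) ∧
    ((Bad n (Real.exp (c * √(Real.log n)))).card : ℝ)
      ≤ 1 / c * n * Real.exp (-(c * √(Real.log n))) := by
  obtain ⟨n0, hn0⟩ : ∃ n0 : ℕ, ∀ n : ℕ, n0 ≤ n → 12 ≤ √(Real.log n) ∧ 30 ≤ n := by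
    have h1 : Tendsto (fun n : ℕ => √(Real.log n)) atTop atTop :=
      Real.tendsto_sqrt_atTop.comp (Real.tendsto_log_atTop.comp tendsto_natCast_atTop_atTop)
    exact eventually_atTop.1 ((h1.eventually_ge_atTop 12).and (eventually_ge_atTop 30))
  set c : ℝ := min (3 / 10) (1 / (√(Real.log n0) + 1)) with hc
  have hs0 : 0 ≤ √(Real.log n0) := Real.sqrt_nonneg _
  have hcpos : 0 < c := lt_min (by norm_num) (by positivity)
  have hc1 : c ≤ 3 / 10 := min_le_left _ _
  have hc2 : c * (√(Real.log n0) + 1) ≤ 1 := by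
    have : c ≤ 1 / (√(Real.log n0) + 1) := min_le_right _ _
    rwa [le_div_iff₀ (by positivity)] at this
  refine ⟨c, hcpos, fun n hn => ?_⟩
  set s := √(Real.log n) with hs
  have hs0' : 0 ≤ s := Real.sqrt_nonneg _
  have hkey : (Bad n (Real.exp (c * s))).card < (n + 1) / 2 - 1 ∧
      ((Bad n (Real.exp (c * s))).card : ℝ) ≤ 1 / c * n * Real.exp (-(c * s)) := by
    rcases Nat.lt_or_ge n n0 with h | h
    · have h2 : s ≤ √(Real.log n0) := by
        apply Real.sqrt_le_sqrt
        apply Real.log_le_log (by exact_mod_cast (by omega : 0 < n))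
        exact_mod_cast h.le
      have h3 : Real.exp (c * s) < 3 := by
        have h4 : c * s ≤ 1 := by nlinarith
        calc Real.exp (c * s) ≤ Real.exp 1 := Real.exp_le_exp.2 h4
          _ < 3 := by have := Real.exp_one_lt_d9; linarith
      rw [Bad_empty h3]
      constructor
      · rw [card_empty]
        omega
      · simp only [card_empty, Nat.cast_zero]
        positivity
    · obtain ⟨h2, h3⟩ := hn0 n h
      have hlog : 0 ≤ Real.log n := Real.log_natCast_nonneg n
      have h4 := bad_large (by omega : 10 ≤ n) (Real.sq_sqrt hlog) (by linarith : 2 ≤ s)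
      have h5 : ((Bad n (Real.exp (c * s))).card : ℝ) ≤ ((Bad n (Real.exp (s / 2))).card : ℝ) := by
        have h6 : c * s ≤ s / 2 := by nlinarith
        exact_mod_cast card_le_card (Bad_mono (Real.exp_le_exp.2 h6))
      set M := (n + 1) / 2 with hM
      have hM15 : 15 ≤ M := by omega
      have hMr : (15 : ℝ) ≤ M := by exact_mod_cast hM15
      have hMn : (M : ℝ) ≤ (n + 1) / 2 := by
        have : 2 * M ≤ n + 1 := by omega
        have : (2 : ℝ) * M ≤ n + 1 := by exact_mod_cast this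
        linarith
      constructor
      · have h7 : Real.exp (-(3 / 10 * s)) ≤ 1 / 12 := by
          rw [Real.exp_neg, ← one_div]
          apply div_le_div_of_nonneg_left (by norm_num) (by norm_num)
          -- exp(3.6) >= 12
          have h8 : (12 : ℝ) ≤ Real.exp (3 / 10 * s) := by
            have h9 : Real.exp 3 ≤ Real.exp (3 / 10 * s) := Real.exp_le_exp.2 (by linarith)
            have h10 : Real.exp 3 = Real.exp 1 ^ 3 := by
              rw [← Real.exp_nat_mul]; norm_num
            have h11 : (2.7 : ℝ) ^ 3 ≤ Real.exp 1 ^ 3 := by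
              apply pow_le_pow_left₀ (by norm_num)
              have := Real.exp_one_gt_d9
              linarith
            norm_num at h11
            linarith
          exact h8
        have h8 : ((Bad n (Real.exp (c * s))).card : ℝ) ≤ M / 2 := by
          refine h5.trans (h4.trans ?_)
          have : (0 : ℝ) ≤ 6 * M := by positivity
          nlinarith
        have h9 : ((Bad n (Real.exp (c * s))).card : ℝ) < ((M - 1 : ℕ) : ℝ) := by
          rw [Nat.cast_sub (by omega)]
          push_cast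
          linarith
        exact_mod_cast h9
      · refine h5.trans (h4.trans ?_)
        have h7 : Real.exp (-(3 / 10 * s)) ≤ Real.exp (-(c * s)) := by
          apply Real.exp_le_exp.2
          nlinarith
        have h8 : 10 / 3 ≤ 1 / c := by
          rw [le_div_iff₀ hcpos]
          linarith
        have hnr : (30 : ℝ) ≤ n := by exact_mod_cast h3
        have h9 : 6 * (M : ℝ) ≤ 1 / c * n := by
          calc 6 * (M : ℝ) ≤ 3 * (n + 1) := by linarith
            _ ≤ 10 / 3 * n := by linarith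
            _ ≤ 1 / c * n := mul_le_mul_of_nonneg_right h8 (by linarith)
        exact mul_le_mul h9 h7 (Real.exp_pos _).le (by positivity)
  refine ⟨?_, hkey.2⟩
  have h2 : (Bad n (Real.exp (c * s))).card < (Icc 1 ((n + 1) / 2 - 1)).card := by
    rw [Nat.card_Icc]
    have := hkey.1
    omega
  obtain ⟨k, hk, hkb⟩ := exists_mem_notMem_of_card_lt_card h2
  rw [mem_Icc] at hk
  refine ⟨k, n - k, by omega, by omega, by omega, fun q hq hdvd => ?_⟩
  by_contra hcon
  push Not at hcon
  exact hkb (mem_Bad.2 ⟨hk.1, by omega, q, hq, hcon, hdvd⟩)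

end Pool.Agent.Helper10.CB
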