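import Pool.Agent.Helper10.CB.H3

/-!
# The least index: upper bound for the number of representations with a small index
-/

set_option autoImplicit false

open Finset Filter Topology

open scoped Classical

namespace Pool.Agent.Helper10.CB

open Pool.Agent.Helper90.Twin (Ps mem_Ps Sz)
open Pool.Agent.Helper94.Tot (allSz)

theorem P_strictMono {m m' : ℕ} (hm : 1 ≤ m) (h : m < m') : P m < P m' := by
  unfold P
  exact Nat.nth_strictMono Nat.infinite_setOfPred_prime (by omega)

theorem P_mono {m m' : ℕ} (hm : 1 ≤ m) (h : m ≤ m') : P m ≤ P m' := by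
  rcases Nat.eq_or_lt_of_le h with h1 | h1
  · rw [h1]
  · exact (P_strictMono hm h1).le

theorem P_inj {m m' : ℕ} (hm : 1 ≤ m) (hm' : 1 ≤ m') (h : P m = P m') : m = m' := by
  rcases lt_trichotomy m m' with h1 | h1 | h1
  · exact absurd h (P_strictMono hm h1).ne
  · exact h1
  · exact absurd h (P_strictMono hm' h1).ne'

theorem pi_P {m : ℕ} (hm : 1 ≤ m) : Nat.primeCounting (P m) = m := by
  have h1 := idx_eq (P_prime m)
  rw [← h1]
  unfold idx P
  rw [Nat.count_nth_of_infinite Nat.infinite_setOfPred_prime]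
  omega

/-- upper bound for the `m`-th prime -/
theorem P_le {N m : ℕ} (hN : 3 ≤ N) (hm : 1 ≤ m) (hmN : m ≤ N) :
    (P m : ℝ) ≤ 24 * N * Real.log N := by
  have h1 : (P m : ℝ) ≤ P N := by exact_mod_cast P_mono hm hmN
  refine h1.trans ?_
  set X := P N with hX
  have h2 : Nat.primeCounting X = N := pi_P (by omega)
  have hX4 : 4 ≤ X := by
    have := P_ge (show 1 ≤ N by omega)
    omega
  have h3 := Chebyshev.pi_ge X
  rw [h2] at h3
  have hXr : (4 : ℝ) ≤ X := by exact_mod_cast hX4
  have hNr : (3 : ℝ) ≤ N := by exact_mod_cast hN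
  have hlX : 1 ≤ Real.log X := log_ge_one (by omega)
  have hlN : 1 ≤ Real.log N := log_ge_one hN
  rw [div_le_iff₀ (by linarith)] at h3
  have h4 : Real.log 4 ≤ 1.3864 := by
    have g3 : Real.log 4 = 2 * Real.log 2 := by
      rw [show (4 : ℝ) = 2 ^ 2 by norm_num, Real.log_pow]; norm_num
    have := Real.log_two_lt_d9
    linarith
  have h5 : Real.log ((X : ℝ) + 1) ≤ (X + 1) / 4 - 1 + 1.3864 := by
    have g1 : Real.log ((X : ℝ) + 1) = Real.log (((X : ℝ) + 1) / 4) + Real.log 4 := by
      rw [← Real.log_mul (by positivity) (by norm_num)]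
      congr 1
      ring
    have g2 := Real.log_le_sub_one_of_pos (show 0 < ((X : ℝ) + 1) / 4 by positivity)
    linarith
  have h6 := Real.log_two_gt_d9
  have h7 : (X : ℝ) / 4 ≤ N * Real.log X := by
    have : (X : ℝ) * (0.6931) ≤ X * Real.log 2 := mul_le_mul_of_nonneg_left (by linarith) (by linarith)
    linarith
  -- the square root
  set s := Real.sqrt X with hs
  have hs0 : 0 < s := Real.sqrt_pos.2 (by linarith)
  have hs2 : s ^ 2 = X := Real.sq_sqrt (by linarith)
  have h8 : Real.log X ≤ 2 * s := by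
    have g1 : Real.log X = 2 * Real.log s := by
      rw [← hs2, Real.log_pow]
      norm_num
    have g2 := Real.log_le_sub_one_of_pos hs0
    linarith
  have h9 : s ≤ 8 * N := by
    have g1 : s * s ≤ (8 * N) * s := by
      have g2 : (N : ℝ) * Real.log X ≤ N * (2 * s) := mul_le_mul_of_nonneg_left h8 (by linarith)
      have g3 : s * s = X := by rw [← hs2]; ring
      rw [g3]
      linarith
    exact le_of_mul_le_mul_right g1 hs0
  have h10 : Real.log X ≤ 6 * Real.log N := by
    have g1 : (X : ℝ) ≤ 4 ^ 3 * (N : ℝ) ^ 2 := by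
      rw [← hs2]
      calc s ^ 2 ≤ (8 * N) ^ 2 := pow_le_pow_left₀ hs0.le h9 2
        _ = 4 ^ 3 * (N : ℝ) ^ 2 := by ring
    have g2 := Real.log_le_log (by linarith) g1
    rw [Real.log_mul (by norm_num) (by positivity), Real.log_pow, Real.log_pow] at g2
    push_cast at g2
    have g3 : 3 * Real.log 4 ≤ 4 * Real.log N := by
      have g4 : Real.log 3 ≤ Real.log N := Real.log_le_log (by norm_num) hNr
      have g5 : 3 * Real.log 4 ≤ 4 * Real.log 3 := by
        have e1 : 3 * Real.log 4 = Real.log (4 ^ 3) := by rw [Real.log_pow]; norm_num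
        have e2 : 4 * Real.log 3 = Real.log (3 ^ 4) := by rw [Real.log_pow]; norm_num
        rw [e1, e2]
        exact Real.log_le_log (by norm_num) (by norm_num)
      linarith
    linarith
  calc (X : ℝ) ≤ 4 * (N * Real.log X) := by linarith
    _ ≤ 4 * (N * (6 * Real.log N)) := by
        refine mul_le_mul_of_nonneg_left ?_ (by norm_num)
        exact mul_le_mul_of_nonneg_left h10 (by linarith)
    _ = 24 * N * Real.log N := by ring

/-- the number of the `m` for one `k` -/
theorem cnt_rough : ∃ (K0 : ℕ) (C : ℝ), 0 < C ∧ ∀ N z k : ℕ, 3 ≤ N → 3 ≤ z → z ^ K0 ≤ N →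
    (((Icc 1 N).filter (fun m => Ro z (Nat.centralBinom k + P m) ∨ P m ≤ z)).card : ℝ) ≤
      C * (N * Real.log N / Real.log z ^ 2) * Real.exp (Sd z (Nat.centralBinom k)) + z := by
  obtain ⟨K0, C, hC, h⟩ := f2
  obtain ⟨C3, hC3, hSz⟩ := allSz
  refine ⟨K0, 25 * C * C3 ^ 2, by positivity, fun N z k hN hz hzN => ?_⟩
  have hNr : (3 : ℝ) ≤ N := by exact_mod_cast hN
  have hlN : 1 ≤ Real.log N := log_ge_one hN
  have hlz : 1 ≤ Real.log z := log_ge_one hz
  set X := ⌊24 * (N : ℝ) * Real.log N⌋₊ with hX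
  have hNX : N ≤ X + 1 := by
    have h1 : (N : ℝ) ≤ 24 * N * Real.log N := by
      have : (N : ℝ) * 1 ≤ N * Real.log N := mul_le_mul_of_nonneg_left hlN (by linarith)
      linarith
    have h2 : N ≤ X := Nat.le_floor h1
    omega
  set F := (Icc 1 N).filter (fun m => Ro z (Nat.centralBinom k + P m) ∨ P m ≤ z) with hF
  set F1 := (Icc 1 N).filter (fun m => Ro z (Nat.centralBinom k + P m) ∧ z < P m) with hF1
  have h1 : F ⊆ F1 ∪ Icc 1 z := by
    intro m hm
    rw [hF, mem_filter, mem_Icc] at hm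
    rw [mem_union, hF1, mem_filter, mem_Icc, mem_Icc]
    rcases Nat.lt_or_ge z (P m) with h | h
    · left
      rcases hm.2 with h' | h'
      · exact ⟨hm.1, h', h⟩
      · omega
    · right
      have := P_ge hm.1.1
      omega
  have h2 : F.card ≤ F1.card + z := by
    refine (card_le_card h1).trans ((card_union_le _ _).trans ?_)
    rw [Nat.card_Icc, Nat.add_sub_cancel]
  have h3 : F1.card = (F1.image P).card := by
    rw [card_image_of_injOn]
    intro m hm m' hm' he
    rw [mem_coe, hF1, mem_filter, mem_Icc] at hm hm'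
    exact P_inj hm.1.1 hm'.1.1 he
  have h4 := h z (X + 1) (hzN.trans hNX) 0 (Nat.centralBinom k) (F1.image P) (fun t ht => by
    rw [mem_image] at ht
    obtain ⟨m, hm, hmt⟩ := ht
    rw [hF1, mem_filter, mem_Icc] at hm
    rw [← hmt]
    refine ⟨?_, ?_, ?_⟩
    · have g1 := P_le hN hm.1.1 hm.1.2
      have : P m ≤ X := Nat.le_floor g1
      omega
    · intro q hq hd
      rw [add_zero] at hd
      have hq' := mem_Ps.1 hq
      have := (Nat.prime_dvd_prime_iff_eq hq'.2.2 (P_prime m)).1 hd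
      omega
    · rw [add_comm]
      exact hm.2.1.R)
  have e : dd 0 (Nat.centralBinom k) = Nat.centralBinom k := by
    unfold dd
    simp
  rw [e, ← h3] at h4
  have h5 : (F.card : ℝ) ≤ F1.card + z := by exact_mod_cast h2
  refine h5.trans (add_le_add (h4.trans ?_) le_rfl)
  have h6 : ((X + 1 : ℕ) : ℝ) ≤ 25 * (N * Real.log N) := by
    have g1 : (X : ℝ) ≤ 24 * (N : ℝ) * Real.log N := Nat.floor_le (by positivity)
    have g2 : (N : ℝ) * 1 ≤ N * Real.log N := mul_le_mul_of_nonneg_left hlN (by linarith)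
    push_cast
    linarith
  have h7 : Real.exp (-(2 * Sz z)) ≤ (C3 / Real.log z) ^ 2 := by
    have g1 := hSz z (by omega)
    have g2 : Real.exp (-(2 * Sz z)) = Real.exp (-(Sz z)) ^ 2 := by
      rw [← Real.exp_nat_mul]
      push_cast
      ring_nf
    rw [g2]
    exact pow_le_pow_left₀ (Real.exp_pos _).le g1 2
  set ex := Real.exp (Sd z (Nat.centralBinom k)) with hex
  have hex0 : 0 ≤ ex := (Real.exp_pos _).le
  calc C * ((X + 1 : ℕ) : ℝ) * (Real.exp (-(2 * Sz z)) * ex)
      ≤ C * (25 * (N * Real.log N)) * ((C3 / Real.log z) ^ 2 * ex) := by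
        refine mul_le_mul (mul_le_mul_of_nonneg_left h6 hC.le)
          (mul_le_mul_of_nonneg_right h7 hex0) (by positivity) (by positivity)
    _ = _ := by ring

/-- a representation with a small index -/
def Sml (δ θ : ℝ) (N n k : ℕ) : Prop :=
  0 < k ∧ 2 * k < n ∧ (k : ℝ) ≤ θ * (Real.log N / Real.log (Real.log N)) ∧
    ((Nat.centralBinom k + P (n - k)).Prime ∨
      ∀ q : ℕ, q.Prime → q ∣ Nat.centralBinom k + P (n - k) → (N : ℝ) ^ δ < q)

theorem h2_pairs (δ : ℝ) (hδ : 0 < δ) : ∃ C : ℝ, 1 ≤ C ∧ ∀ N : ℕ, 3 ≤ N → ∀ θ : ℝ, 0 < θ → θ ≤ 1 →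
    (((Icc 1 N ×ˢ Icc 1 N).filter (fun nk => Sml δ θ N nk.1 nk.2)).card : ℝ) ≤ C * θ * N := by
  obtain ⟨K0, C1, hC1, hcnt⟩ := cnt_rough
  obtain ⟨Cu, hCu, hup⟩ := up_k
  set δ' := min δ (1 / ((K0 : ℝ) + 2)) with hδ'
  have hδ'0 : 0 < δ' := by positivity
  have hδ'1 : δ' ≤ 1 / ((K0 : ℝ) + 2) := min_le_right _ _
  have hδ'2 : δ' ≤ 1 / 2 := by
    refine hδ'1.trans ?_
    exact div_le_div_of_nonneg_left (by norm_num) (by norm_num) (by
      have : (0 : ℝ) ≤ K0 := Nat.cast_nonneg _
      linarith)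
  -- large N
  have ht : Tendsto (fun x : ℕ => (x : ℝ)) atTop atTop := tendsto_natCast_atTop_atTop
  have hl : Tendsto (fun x : ℕ => Real.log x) atTop atTop := Real.tendsto_log_atTop.comp ht
  have hll : Tendsto (fun x : ℕ => Real.log (Real.log x)) atTop atTop :=
    Real.tendsto_log_atTop.comp hl
  have hr : Tendsto (fun x : ℕ => (x : ℝ) ^ (δ' / 2)) atTop atTop :=
    (tendsto_rpow_atTop (by positivity)).comp ht
  obtain ⟨N0, hN0⟩ := eventually_atTop.1 ((hll.eventually_ge_atTop 1).and
    ((hr.eventually_ge_atTop 3).and (ht.eventually (pow_log_le 2 1))))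
  set M := 8 * C1 * Cu / δ' ^ 2 + 2 with hM
  set c0 := Real.log (Real.log 3) / Real.log ((N0 + 3 : ℕ) : ℝ) with hc0
  have hlog3 : 1 < Real.log 3 := by
    rw [Real.lt_log_iff_exp_lt (by norm_num)]
    have := Real.exp_one_lt_d9
    linarith
  have hc0p : 0 < c0 := by
    apply div_pos (Real.log_pos hlog3)
    apply Real.log_pos
    push_cast
    have : (0 : ℝ) ≤ N0 := Nat.cast_nonneg _
    linarith
  have hMp : 2 ≤ M := by
    have : 0 ≤ 8 * C1 * Cu / δ' ^ 2 := by positivity
    linarith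
  refine ⟨M + N0 / c0, by
    have : (0 : ℝ) ≤ N0 / c0 := by positivity
    linarith, fun N hN θ hθ hθ1 => ?_⟩
  have hNr : (3 : ℝ) ≤ N := by exact_mod_cast hN
  have hNpos : (0 : ℝ) < N := by linarith
  set l := Real.log (N : ℝ) with hl'
  have hl1 : Real.log 3 ≤ l := Real.log_le_log (by norm_num) hNr
  have hl0 : 1 < l := by linarith
  set ll := Real.log l with hll'
  have hll0 : 0 < ll := Real.log_pos hl0
  set W := (Icc 1 N ×ˢ Icc 1 N).filter (fun nk => Sml δ θ N nk.1 nk.2) with hW
  rcases W.eq_empty_or_nonempty with hWe | hWne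
  · rw [hWe, card_empty]
    have : (0 : ℝ) ≤ N0 / c0 := by positivity
    push_cast
    positivity
  -- theta is not too small
  have hθl : ll / l ≤ θ := by
    obtain ⟨nk, hnk⟩ := hWne
    rw [hW, mem_filter] at hnk
    have h1 : (1 : ℝ) ≤ nk.2 := by exact_mod_cast hnk.2.1
    have h2 : 1 ≤ θ * (l / ll) := h1.trans hnk.2.2.2.1
    rw [div_le_iff₀ (by linarith)]
    have h3 : θ * (l / ll) * ll = θ * l := by field_simp
    have h4 : 1 * ll ≤ θ * (l / ll) * ll := mul_le_mul_of_nonneg_right h2 hll0.le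
    linarith
  rcases Nat.lt_or_ge N N0 with hlt | hge
  · -- small N
    have h1 : (W.card : ℝ) ≤ N * N := by
      have h2 : W.card ≤ N * N := by
        refine (card_filter_le _ _).trans ?_
        rw [card_product, Nat.card_Icc, Nat.add_sub_cancel]
      exact_mod_cast h2
    have h2 : c0 ≤ θ := by
      refine le_trans ?_ hθl
      rw [hc0]
      have g1 : Real.log (Real.log 3) ≤ ll := Real.log_le_log (by linarith) hl1
      have g2 : l ≤ Real.log ((N0 + 3 : ℕ) : ℝ) := by
        refine Real.log_le_log hNpos ?_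
        exact_mod_cast (by omega : N ≤ N0 + 3)
      exact div_le_div₀ hll0.le g1 (by linarith) g2
    have h3 : (N : ℝ) ≤ N0 := by exact_mod_cast hlt.le
    have h4 : (1 : ℝ) ≤ θ / c0 := by
      rw [one_le_div hc0p]
      exact h2
    have h5 : (N : ℝ) * N ≤ N0 / c0 * θ * N := by
      have g1 : (N : ℝ) * N ≤ N0 * N := mul_le_mul_of_nonneg_right h3 hNpos.le
      have g2 : (N0 : ℝ) * N * 1 ≤ N0 * N * (θ / c0) := mul_le_mul_of_nonneg_left h4 (by positivity)
      have g3 : (N0 : ℝ) * N * (θ / c0) = N0 / c0 * θ * N := by ring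
      linarith
    have h6 : 0 ≤ M * θ * N := by positivity
    have h7 : (M + N0 / c0) * θ * N = M * θ * N + N0 / c0 * θ * N := by ring
    linarith
  · -- large N
    obtain ⟨b1, b2, b3⟩ := hN0 N hge
    set z := ⌊(N : ℝ) ^ δ'⌋₊ with hz
    have hzle : (z : ℝ) ≤ (N : ℝ) ^ δ' := Nat.floor_le (by positivity)
    set y := (N : ℝ) ^ (δ' / 2) with hy
    have hy2 : (N : ℝ) ^ δ' = y ^ 2 := by
      rw [hy, ← Real.rpow_natCast, ← Real.rpow_mul hNpos.le]
      congr 1
      push_cast
      ring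
    have hzy : y ≤ z := by
      have := Nat.lt_floor_add_one ((N : ℝ) ^ δ')
      rw [← hz, hy2] at this
      nlinarith
    have hz3 : 3 ≤ z := by
      have : (3 : ℝ) ≤ z := b2.trans hzy
      exact_mod_cast this
    have hlz : δ' / 2 * l ≤ Real.log z := by
      have g1 := Real.log_le_log (by positivity) hzy
      rw [hy, Real.log_rpow hNpos] at g1
      exact g1
    have hzK0 : z ^ K0 ≤ N := by
      have g1 : (z : ℝ) ^ K0 ≤ ((N : ℝ) ^ δ') ^ K0 := pow_le_pow_left₀ (by positivity) hzle K0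
      have g2 : ((N : ℝ) ^ δ') ^ K0 = (N : ℝ) ^ (δ' * K0) := by
        rw [← Real.rpow_natCast, ← Real.rpow_mul hNpos.le]
      have g3 : (N : ℝ) ^ (δ' * K0) ≤ (N : ℝ) ^ (1 : ℝ) := by
        apply Real.rpow_le_rpow_of_exponent_le (by linarith)
        have g4 : δ' * K0 ≤ 1 / ((K0 : ℝ) + 2) * (K0 + 2) :=
          mul_le_mul hδ'1 (by linarith) (Nat.cast_nonneg _) (by positivity)
        have g5 : 1 / ((K0 : ℝ) + 2) * (K0 + 2) = 1 := by
          field_simp
        linarith
      rw [Real.rpow_one] at g3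
      rw [g2] at g1
      have g4 := g1.trans g3
      exact_mod_cast g4
    have hzl : (z : ℝ) * l ≤ N := by
      have g1 : (z : ℝ) ≤ Real.sqrt N := by
        refine hzle.trans ?_
        rw [Real.sqrt_eq_rpow]
        exact Real.rpow_le_rpow_of_exponent_le (by linarith) hδ'2
      have g2 : l ≤ Real.sqrt N := by
        apply Real.le_sqrt_of_sq_le
        linarith
      calc (z : ℝ) * l ≤ Real.sqrt N * Real.sqrt N :=
            mul_le_mul g1 g2 (by linarith) (Real.sqrt_nonneg _)
        _ = N := Real.mul_self_sqrt hNpos.le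
    set K1 := ⌊θ * (l / ll)⌋₊ with hK1
    have hK1le : (K1 : ℝ) ≤ θ * (l / ll) := Nat.floor_le (by positivity)
    have hK1l : (K1 : ℝ) ≤ l := by
      have g1 : θ * (l / ll) ≤ 1 * (l / ll) := mul_le_mul_of_nonneg_right hθ1 (by positivity)
      have g2 : l / ll ≤ l := div_le_self (by linarith) b1
      linarith
    set K3 := max K1 3 with hK3
    have hK3' : 3 ≤ K3 := le_max_right _ _
    have hlK3 : Real.log K3 ≤ 2 * ll := by
      rcases le_total K1 3 with h | h
      · rw [hK3, max_eq_right h]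
        have g1 : Real.log ((3 : ℕ) : ℝ) ≤ 2 := by
          rw [Real.log_le_iff_le_exp (by norm_num)]
          have h1 := Real.exp_one_gt_d9
          have h2 : Real.exp 2 = Real.exp 1 ^ 2 := by
            rw [← Real.exp_nat_mul]; norm_num
          rw [h2]
          push_cast
          nlinarith
        linarith
      · rw [hK3, max_eq_left h]
        have g1 : Real.log K1 ≤ ll := Real.log_le_log (by exact_mod_cast (by omega : 0 < K1)) hK1l
        linarith
    -- the count
    have h1 : W.card ≤ ((Icc 1 K1).sigma (fun k =>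
        (Icc 1 N).filter (fun m => Ro z (Nat.centralBinom k + P m) ∨ P m ≤ z))).card := by
      refine card_le_card_of_injOn (fun nk => ⟨nk.2, nk.1 - nk.2⟩) ?_ ?_
      · intro nk hnk
        rw [mem_coe, hW, mem_filter, mem_product, mem_Icc, mem_Icc] at hnk
        obtain ⟨⟨hn, hk⟩, hs1, hs2, hs3, hs4⟩ := hnk
        rw [mem_coe, mem_sigma, mem_filter, mem_Icc, mem_Icc]
        dsimp only
        refine ⟨⟨by omega, Nat.le_floor hs3⟩, ⟨by omega, by omega⟩, ?_⟩
        rcases hs4 with h | h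
        · rcases Nat.lt_or_ge z (P (nk.1 - nk.2)) with h' | h'
          · left
            intro q hq hqz hqd
            have := (Nat.prime_dvd_prime_iff_eq hq h).1 hqd
            omega
          · exact Or.inr h'
        · left
          intro q hq hqz hqd
          have g1 := h q hq hqd
          have g2 : (q : ℝ) ≤ (N : ℝ) ^ δ := by
            have g3 : (q : ℝ) ≤ z := by exact_mod_cast hqz
            refine (g3.trans hzle).trans ?_
            exact Real.rpow_le_rpow_of_exponent_le (by linarith) (min_le_left _ _)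
          linarith
      · intro a ha b hb hab
        rw [mem_coe, hW, mem_filter] at ha hb
        obtain ⟨n, k⟩ := a
        obtain ⟨n', k'⟩ := b
        simp only [Sigma.mk.injEq, heq_eq_eq] at hab
        obtain ⟨e1, e2⟩ := hab
        have g1 := ha.2.2.1
        have g2 := hb.2.2.1
        dsimp only at g1 g2
        subst e1
        have : n = n' := by omega
        rw [this]
    rw [card_sigma] at h1
    have h2 : (W.card : ℝ) ≤ ∑ k ∈ Icc 1 K1, (((Icc 1 N).filter (fun m =>
        Ro z (Nat.centralBinom k + P m) ∨ P m ≤ z)).card : ℝ) := by exact_mod_cast h1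
    have h3 : ∀ k ∈ Icc 1 K1, (((Icc 1 N).filter (fun m =>
        Ro z (Nat.centralBinom k + P m) ∨ P m ≤ z)).card : ℝ) ≤
        C1 * (N * l / (δ' / 2 * l) ^ 2) * (Cu * (2 * ll)) + z := by
      intro k hk
      rw [mem_Icc] at hk
      refine (hcnt N z k hN hz3 hzK0).trans (add_le_add ?_ le_rfl)
      have g1 := hup K3 z k hK3' hk.1 (hk.2.trans (le_max_left _ _))
      have g2 : Real.exp (Sd z (Nat.centralBinom k)) ≤ Cu * (2 * ll) :=
        g1.trans (mul_le_mul_of_nonneg_left hlK3 (by linarith))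
      refine mul_le_mul ?_ g2 (Real.exp_pos _).le (by positivity)
      refine mul_le_mul_of_nonneg_left ?_ hC1.le
      refine div_le_div_of_nonneg_left (by positivity) (by positivity) ?_
      exact pow_le_pow_left₀ (by positivity) hlz 2
    refine h2.trans ((sum_le_sum h3).trans ?_)
    rw [sum_const, Nat.card_Icc, Nat.add_sub_cancel, nsmul_eq_mul]
    have h4 : C1 * (N * l / (δ' / 2 * l) ^ 2) * (Cu * (2 * ll)) = (8 * C1 * Cu / δ' ^ 2) * N * (ll / l) := by
      field_simp
      norm_num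
    rw [h4]
    have h5 : 0 ≤ (8 * C1 * Cu / δ' ^ 2) * N * (ll / l) + z := by positivity
    refine (mul_le_mul_of_nonneg_right hK1le h5).trans ?_
    have h6 : θ * (l / ll) * ((8 * C1 * Cu / δ' ^ 2) * N * (ll / l) + z)
        = θ * ((8 * C1 * Cu / δ' ^ 2) * N) + θ * (z * l / ll) := by
      field_simp
    rw [h6]
    have h7 : (z : ℝ) * l / ll ≤ N := by
      refine (div_le_self (by positivity) b1).trans hzl
    have h8 : θ * ((z : ℝ) * l / ll) ≤ θ * N := mul_le_mul_of_nonneg_left h7 hθ.le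
    have h9 : 0 ≤ (N0 : ℝ) / c0 * θ * N := by positivity
    have h10 : (M + N0 / c0) * θ * N = θ * ((8 * C1 * Cu / δ' ^ 2) * N) + 2 * (θ * N) +
        N0 / c0 * θ * N := by
      rw [hM]
      ring
    rw [h10]
    have h11 : 0 ≤ θ * (N : ℝ) := by positivity
    linarith

theorem h2 (δ : ℝ) (hδ : 0 < δ) : ∃ C : ℝ, 1 ≤ C ∧ ∀ N : ℕ, 3 ≤ N → ∀ θ : ℝ, 0 < θ →
    (θ ≤ 1 → (((Icc 1 N ×ˢ Icc 1 N).filter (fun nk => Sml δ θ N nk.1 nk.2)).card : ℝ) ≤ C * θ * N) ∧
    (((Icc 1 N).filter (fun n => ∃ k, Sml δ θ N n k)).card : ℝ) ≤ C * θ * N := by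
  obtain ⟨C, hC, h⟩ := h2_pairs δ hδ
  refine ⟨C, hC, fun N hN θ hθ => ⟨fun hθ1 => h N hN θ hθ hθ1, ?_⟩⟩
  rcases le_or_gt θ 1 with hθ1 | hθ1
  · refine le_trans ?_ (h N hN θ hθ hθ1)
    have h1 : (Icc 1 N).filter (fun n => ∃ k, Sml δ θ N n k) ⊆
        ((Icc 1 N ×ˢ Icc 1 N).filter (fun nk => Sml δ θ N nk.1 nk.2)).image Prod.fst := by
      intro n hn
      rw [mem_filter] at hn
      obtain ⟨hn, k, hk⟩ := hn
      rw [mem_image]
      refine ⟨(n, k), ?_, rfl⟩
      rw [mem_filter, mem_product]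
      refine ⟨⟨hn, ?_⟩, hk⟩
      have h1 := hk.1
      have h2 := hk.2.1
      rw [mem_Icc] at hn ⊢
      dsimp only
      omega
    exact_mod_cast (card_le_card h1).trans card_image_le
  · have h1 : (((Icc 1 N).filter (fun n => ∃ k, Sml δ θ N n k)).card : ℝ) ≤ N := by
      have h2 : ((Icc 1 N).filter (fun n => ∃ k, Sml δ θ N n k)).card ≤ N := by
        refine (card_filter_le _ _).trans ?_
        rw [Nat.card_Icc, Nat.add_sub_cancel]
      exact_mod_cast h2
    refine h1.trans ?_
    have hN0 : (0 : ℝ) ≤ N := Nat.cast_nonneg N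
    have h2 : 1 ≤ C * θ := one_le_mul_of_one_le_of_one_le hC hθ1.le
    nlinarith

end Pool.Agent.Helper10.CB
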