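import Pool.Agent.Helper10.CB.MX

/-!
# Almost primes: the count up to N
-/

set_option autoImplicit false

open Finset Filter Topology

open scoped Classical

namespace Pool.Agent.Helper10.CB

/-- a good pair -/
def Good (r : ℕ) (δ : ℝ) (N n k : ℕ) : Prop :=
  0 < k ∧ 2 * k < n ∧ (k : ℝ) ≤ Real.log N / Real.log (Real.log N) ∧
    (Nat.centralBinom k + P (n - k)).primeFactorsList.length ≤ r ∧
    ∀ q : ℕ, q.Prime → q ∣ Nat.centralBinom k + P (n - k) → (N : ℝ) ^ δ < q

theorem idx_eq {p : ℕ} (hp : p.Prime) : idx p = Nat.primeCounting p := by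
  unfold idx Nat.primeCounting Nat.primeCounting'
  rw [Nat.count_succ, if_pos hp]

/-- what is needed of `N` and `x` -/
structure NX (N x : ℕ) : Prop where
  a1 : 3 ≤ N
  a2 : N ≤ x
  a3 : Nat.primeCounting (32 * x) + 2 * Real.log x ≤ N
  a4 : Real.log x < Nat.primeCounting (2 * x)
  a5 : 33 * x ≤ N ^ 2
  a6 : Real.log x ≤ 2 * Real.log N
  a7 : 1 ≤ Real.log (Real.log N)

theorem rep_of {E N x z K p k : ℕ} (hE : 1 ≤ E) (h : NX N x) (hXZ : XZ E x z) (hKC : KC x z K)
    (hkx : (k : ℝ) ≤ Real.log x) (hp : p ∈ Gk x z k) (hk1 : 1 ≤ k) (hk2 : k ≤ K) :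
    (idx p + k ∈ Icc 1 N) ∧ 2 * k < idx p + k ∧
    (Nat.centralBinom k + P (idx p + k - k)).primeFactorsList.length ≤ 2 * E ∧
    ∀ q : ℕ, q.Prime → q ∣ Nat.centralBinom k + P (idx p + k - k) →
      (N : ℝ) ^ (1 / (E : ℝ)) < q := by
  obtain ⟨a1, a2, a3, a4, a5, a6, a7⟩ := h
  unfold Gk at hp
  rw [mem_G] at hp
  obtain ⟨⟨hp1, hp2⟩, hpp, hro⟩ := hp
  have hN0 : (0 : ℝ) < N := by exact_mod_cast (by omega : 0 < N)
  have hNx : (N : ℝ) ≤ x := by exact_mod_cast a2
  have hl1 : Real.log N ≤ Real.log x := Real.log_le_log hN0 hNx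
  have hlN : 1 ≤ Real.log N := log_ge_one a1
  have e1 := idx_eq hpp
  have h1 : idx p ≤ Nat.primeCounting (32 * x) := by
    rw [e1]
    exact Nat.monotone_primeCounting hp2
  have h2 : Nat.primeCounting (2 * x) ≤ idx p := by
    rw [e1]
    exact Nat.monotone_primeCounting hp1.le
  have h3 : k < idx p := by
    have : (k : ℝ) < Nat.primeCounting (2 * x) := by linarith
    have : k < Nat.primeCounting (2 * x) := by exact_mod_cast this
    omega
  have h4 : idx p + k ≤ N := by
    have h5 : ((idx p : ℕ) : ℝ) ≤ Nat.primeCounting (32 * x) := by exact_mod_cast h1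
    have h6 : ((idx p + k : ℕ) : ℝ) ≤ N := by
      push_cast
      linarith
    exact_mod_cast h6
  have e2 : P (idx p + k - k) = p := by
    rw [Nat.add_sub_cancel]
    exact P_idx hpp
  rw [e2]
  -- the size of the prime factors
  have h5 : ∀ q : ℕ, q.Prime → q ∣ Nat.centralBinom k + p → z + 1 ≤ q := by
    intro q hq hd
    by_contra hc
    rw [add_comm] at hd
    exact hro q hq (by omega) hd
  refine ⟨?_, by omega, ?_, ?_⟩
  · rw [mem_Icc]
    omega
  · by_contra hc
    push Not at hc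
    set t := Nat.centralBinom k + p with ht
    have ht0 : t ≠ 0 := by
      have := Nat.centralBinom_pos k
      omega
    have g1 : (z + 1) ^ t.primeFactorsList.length ≤ t := by
      have g2 := List.pow_card_le_prod t.primeFactorsList (z + 1) (fun q hq =>
        h5 q (Nat.prime_of_mem_primeFactorsList hq) (Nat.dvd_of_mem_primeFactorsList hq))
      rw [Nat.prod_primeFactorsList ht0] at g2
      exact g2
    have g2 : (z + 1) ^ (2 * E) ≤ (z + 1) ^ t.primeFactorsList.length :=
      Nat.pow_le_pow_right (by omega) hc.le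
    have g3 : t ≤ 33 * x := by
      have := hKC.cb_le hk2
      omega
    have g4 : x ^ 2 < (z + 1) ^ (2 * E) := by
      rw [mul_comm, pow_mul]
      exact Nat.pow_lt_pow_left hXZ.lt (by norm_num)
    have g5 : N ^ 2 ≤ x ^ 2 := Nat.pow_le_pow_left a2 2
    omega
  · intro q hq hd
    have g1 := h5 q hq hd
    have g2 : (N : ℝ) < ((z : ℝ) + 1) ^ E := by
      have : N < (z + 1) ^ E := lt_of_le_of_lt a2 hXZ.lt
      exact_mod_cast this
    have g3 : (N : ℝ) ^ (1 / (E : ℝ)) < (((z : ℝ) + 1) ^ E) ^ (1 / (E : ℝ)) :=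
      Real.rpow_lt_rpow hN0.le g2 (by
        have : (0 : ℝ) < E := by exact_mod_cast hE
        positivity)
    have g4 : (((z : ℝ) + 1) ^ E) ^ (1 / (E : ℝ)) = (z : ℝ) + 1 := by
      rw [one_div]
      exact Real.pow_rpow_inv_natCast (by positivity) (by omega)
    rw [g4] at g3
    have g5 : ((z : ℝ) + 1) ≤ q := by exact_mod_cast g1
    linarith

theorem good_of {E N x z K2 p k : ℕ} (hE : 1 ≤ E) (h : NX N x) (hXZ : XZ E x z) (hKC : KC x z K2)
    (hK2 : (K2 : ℝ) ≤ Real.log x / (2 * Real.log (Real.log x))) (hp : p ∈ Gk x z k)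
    (hk1 : 1 ≤ k) (hk2 : k ≤ K2) :
    (idx p + k ∈ Icc 1 N) ∧ Good (2 * E) (1 / E) N (idx p + k) k := by
  have hN0 : (0 : ℝ) < N := by
    have := h.a1
    exact_mod_cast (by omega : 0 < N)
  have hNx : (N : ℝ) ≤ x := by exact_mod_cast h.a2
  have hl1 : Real.log N ≤ Real.log x := Real.log_le_log hN0 hNx
  have hlN : 1 ≤ Real.log N := log_ge_one h.a1
  have hll : Real.log (Real.log N) ≤ Real.log (Real.log x) :=
    Real.log_le_log (by linarith) hl1
  have hkK : (k : ℝ) ≤ K2 := by exact_mod_cast hk2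
  have a7 := h.a7
  have a6 := h.a6
  have hkx : (k : ℝ) ≤ Real.log x := by
    refine (hkK.trans hK2).trans (div_le_self (by linarith) (by linarith))
  obtain ⟨r1, r2, r3, r4⟩ := rep_of hE h hXZ hKC hkx hp hk1 hk2
  refine ⟨r1, hk1, r2, ?_, r3, r4⟩
  refine (hkK.trans hK2).trans ?_
  rw [div_le_div_iff₀ (by linarith) (by linarith)]
  have g1 : Real.log x * Real.log (Real.log N) ≤ (2 * Real.log N) * Real.log (Real.log x) :=
    mul_le_mul a6 hll (by linarith) (by linarith)
  linarith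

/-- the choice of `x` -/
theorem exists_x : ∃ N0 : ℕ, ∀ N : ℕ, N0 ≤ N → ∃ x : ℕ, NX N x ∧
    (N : ℝ) * Real.log N ≤ 1000 * x := by
  have ht : Tendsto (fun x : ℕ => (x : ℝ)) atTop atTop := tendsto_natCast_atTop_atTop
  have hl : Tendsto (fun x : ℕ => Real.log x) atTop atTop := Real.tendsto_log_atTop.comp ht
  have hll : Tendsto (fun x : ℕ => Real.log (Real.log x)) atTop atTop :=
    Real.tendsto_log_atTop.comp hl
  obtain ⟨y1, hy1⟩ := eventually_atTop.1 (Chebyshev.eventually_primeCounting_le (ε := 1) one_pos)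
  obtain ⟨x1, hx1⟩ := eventually_atTop.1
    ((ht.eventually (pow_log_le 2 4)).and (hl.eventually_ge_atTop 1))
  obtain ⟨N1, hN1⟩ := eventually_atTop.1 ((hll.eventually_ge_atTop 1).and
    ((hl.eventually_ge_atTop 1000).and (ht.eventually (pow_log_le 1 8))))
  refine ⟨N1 + x1 + ⌈y1⌉₊ + 3, fun N hN => ?_⟩
  obtain ⟨b1, b2, b3⟩ := hN1 N (by omega)
  set l := Real.log (N : ℝ) with hl'
  rw [pow_one] at b3
  have hN3 : (3 : ℝ) ≤ N := by exact_mod_cast (by omega : 3 ≤ N)
  set x := ⌊(N : ℝ) * l / 500⌋₊ with hx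
  have hy0 : 0 ≤ (N : ℝ) * l / 500 := by positivity
  have hxle : (x : ℝ) ≤ N * l / 500 := Nat.floor_le hy0
  have hxlt := Nat.lt_floor_add_one ((N : ℝ) * l / 500)
  rw [← hx] at hxlt
  have hNl : (N : ℝ) * 1000 ≤ N * l := mul_le_mul_of_nonneg_left b2 (by linarith)
  have hxN : (N : ℝ) ≤ x := by linarith
  have hxN' : N ≤ x := by exact_mod_cast hxN
  obtain ⟨c1, c2⟩ := hx1 x (by omega)
  have hN0 : (0 : ℝ) < N := by linarith
  have hx0 : (0 : ℝ) < x := by linarith
  have hlx : l ≤ Real.log x := Real.log_le_log hN0 hxN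
  have hlx2 : Real.log x ≤ 2 * l := by
    have g1 : (x : ℝ) ≤ (N : ℝ) ^ 2 := by
      have : (N : ℝ) * (8 * l) ≤ N * N := mul_le_mul_of_nonneg_left b3 hN0.le
      have h2 : (N : ℝ) ^ 2 = N * N := by ring
      rw [h2]
      have : 0 ≤ (N : ℝ) * l := by positivity
      linarith
    have g2 := Real.log_le_log hx0 g1
    rw [Real.log_pow] at g2
    exact_mod_cast g2
  refine ⟨x, ⟨by omega, hxN', ?_, ?_, ?_, hlx2, b1⟩, ?_⟩
  · -- pi(32 x) + 2 log x <= N
    have g1 := hy1 ((32 * x : ℕ) : ℝ) (by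
      have h1 : (y1 : ℝ) ≤ ⌈y1⌉₊ := Nat.le_ceil y1
      have h2 : ((⌈y1⌉₊ : ℕ) : ℝ) ≤ ((32 * x : ℕ) : ℝ) := by exact_mod_cast (by omega)
      linarith)
    rw [Nat.floor_natCast] at g1
    have g2 : (Real.log 4 + 1) * ((32 * x : ℕ) : ℝ) / Real.log ((32 * x : ℕ) : ℝ) ≤ 80 * x / l := by
      have h1 : l ≤ Real.log ((32 * x : ℕ) : ℝ) := by
        refine hlx.trans (Real.log_le_log hx0 ?_)
        push_cast
        linarith
      have h2 : Real.log 4 ≤ 3 / 2 := by
        have g3 : Real.log 4 = 2 * Real.log 2 := by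
          rw [show (4 : ℝ) = 2 ^ 2 by norm_num, Real.log_pow]; norm_num
        have := Real.log_two_lt_d9
        linarith
      have h3 : (Real.log 4 + 1) * ((32 * x : ℕ) : ℝ) ≤ 80 * x := by
        push_cast
        nlinarith
      refine (div_le_div_of_nonneg_right h3 (by linarith)).trans ?_
      exact div_le_div_of_nonneg_left (by positivity) (by linarith) h1
    have g3 : 80 * (x : ℝ) / l ≤ N / 2 := by
      rw [div_le_iff₀ (by linarith)]
      have : 0 ≤ (N : ℝ) * l := by positivity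
      linarith
    have g4 : 2 * Real.log x ≤ N / 2 := by linarith
    linarith
  · have g1 := Chebyshev.pi_ge (2 * x)
    refine lt_of_lt_of_le ?_ g1
    have g2 : Real.log ((2 * x : ℕ) : ℝ) ≤ 2 * Real.log x := by
      have h1 : ((2 * x : ℕ) : ℝ) ≤ (x : ℝ) ^ 2 := by
        push_cast
        nlinarith
      have h2 := Real.log_le_log (by push_cast; positivity) h1
      rw [Real.log_pow] at h2
      exact_mod_cast h2
    have g3 : 0 < Real.log ((2 * x : ℕ) : ℝ) := Real.log_pos (by push_cast; linarith)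
    have g4 : Real.log (((2 * x : ℕ) : ℝ) + 1) ≤ 2 * Real.log x := by
      have h1 : ((2 * x : ℕ) : ℝ) + 1 ≤ (x : ℝ) ^ 2 := by
        push_cast
        nlinarith
      have h2 := Real.log_le_log (by push_cast; positivity) h1
      rw [Real.log_pow] at h2
      exact_mod_cast h2
    rw [lt_div_iff₀ g3]
    have g5 : Real.log x * Real.log ((2 * x : ℕ) : ℝ) ≤ Real.log x * (2 * Real.log x) :=
      mul_le_mul_of_nonneg_left g2 (by linarith)
    have g6 := Real.log_two_gt_d9
    have g7 : (x : ℝ) * (6 / 5) ≤ ((2 * x : ℕ) : ℝ) * Real.log 2 := by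
      push_cast
      nlinarith
    have g8 : Real.log x ≤ x / 4 := by nlinarith
    nlinarith
  · have g1 : (33 * x : ℝ) ≤ N ^ 2 := by
      have h1 : (N : ℝ) * (8 * l) ≤ N * N := mul_le_mul_of_nonneg_left b3 hN0.le
      have h2 : (N : ℝ) ^ 2 = N * N := by ring
      rw [h2]
      have : 0 ≤ (N : ℝ) * l := by positivity
      linarith
    exact_mod_cast g1
  · linarith

theorem h3 : ∃ (r : ℕ) (δ c : ℝ) (N0 : ℕ), 0 < δ ∧ 0 < c ∧ ∀ N : ℕ, N0 ≤ N →
    c * N * Real.sqrt (Real.log (Real.log N) / Real.log N) ≤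
      (((Icc 1 N).filter (fun n => ∃ k, Good r δ N n k)).card : ℝ) ∧
    c * N ≤ (((Icc 1 N ×ˢ Icc 1 N).filter (fun nk => Good r δ N nk.1 nk.2)).card : ℝ) := by
  obtain ⟨E, c, x0, hE, hc, hmain⟩ := main_x
  obtain ⟨N1, hN1⟩ := exists_x
  have hEr : (0 : ℝ) < E := by exact_mod_cast hE
  refine ⟨2 * E, 1 / E, c / 4000, N1 + x0, by positivity, by positivity, fun N hN => ?_⟩
  obtain ⟨x, hNX, hxN⟩ := hN1 N (by omega)
  obtain ⟨z, K2, F, hXZ, hKC, hK2, hF, him, hsum⟩ := hmain x (by
    have := hNX.a2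
    omega)
  have hN3 := hNX.a1
  have hN0 : (0 : ℝ) < N := by exact_mod_cast (by omega : 0 < N)
  have hNx : (N : ℝ) ≤ x := by exact_mod_cast hNX.a2
  have hl1 : Real.log N ≤ Real.log x := Real.log_le_log hN0 hNx
  have hlN : 1 ≤ Real.log N := log_ge_one hN3
  have hll : Real.log (Real.log N) ≤ Real.log (Real.log x) := Real.log_le_log (by linarith) hl1
  have h7 := hNX.a7
  have h6 := hNX.a6
  set l := Real.log (N : ℝ) with hl
  set L := Real.log (x : ℝ) with hL
  have hxL : (N : ℝ) / 2000 ≤ x / L := by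
    rw [le_div_iff₀ (by linarith)]
    calc (N : ℝ) / 2000 * L ≤ N / 2000 * (2 * l) := mul_le_mul_of_nonneg_left h6 (by positivity)
      _ = (N * l) / 1000 := by ring
      _ ≤ x := by linarith
  constructor
  · have h1 : F.image (fun a => idx a.1 + a.2) ⊆
        (Icc 1 N).filter (fun n => ∃ k, Good (2 * E) (1 / E) N n k) := by
      intro n hn
      rw [mem_image] at hn
      obtain ⟨a, ha, han⟩ := hn
      obtain ⟨f1, f2, f3⟩ := hF a ha
      have := good_of hE hNX hXZ hKC hK2 f1 f2 f3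
      rw [mem_filter, ← han]
      exact ⟨this.1, a.2, this.2⟩
    have h2 : ((F.image (fun a => idx a.1 + a.2)).card : ℝ) ≤
        (((Icc 1 N).filter (fun n => ∃ k, Good (2 * E) (1 / E) N n k)).card : ℝ) := by
      exact_mod_cast card_le_card h1
    refine le_trans ?_ h2
    refine le_trans ?_ him
    have h3 : Real.sqrt (Real.log l / l) / 2 ≤ Real.sqrt (Real.log L / L) := by
      have h4 : Real.sqrt (Real.log l / l) / 2 = Real.sqrt (Real.log l / l / 4) := by
        rw [Real.sqrt_div' _ (by norm_num : (0 : ℝ) ≤ 4)]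
        congr 1
        rw [show (4 : ℝ) = 2 ^ 2 by norm_num]
        exact (Real.sqrt_sq (by norm_num)).symm
      rw [h4]
      apply Real.sqrt_le_sqrt
      rw [div_div, div_le_div_iff₀ (by linarith) (by linarith)]
      calc Real.log l * L ≤ Real.log L * (2 * l) := mul_le_mul hll h6 (by linarith) (by linarith)
        _ ≤ Real.log L * (l * 4) := mul_le_mul_of_nonneg_left (by linarith) (by linarith)
    calc c / 4000 * N * Real.sqrt (Real.log l / l)
        = c * (N / 2000) * (Real.sqrt (Real.log l / l) / 2) := by ring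
      _ ≤ c * (x / L) * Real.sqrt (Real.log L / L) :=
          mul_le_mul (mul_le_mul_of_nonneg_left hxL hc.le) h3 (by positivity) (by
            have : 0 ≤ L := by linarith
            positivity)
  · have h1 : ∑ k ∈ Icc 1 K2, (Gk x z k).card ≤
        ((Icc 1 N ×ˢ Icc 1 N).filter (fun nk => Good (2 * E) (1 / E) N nk.1 nk.2)).card := by
      rw [← card_sigma]
      refine card_le_card_of_injOn (fun a => (idx a.2 + a.1, a.1)) ?_ ?_
      · intro a ha
        rw [mem_coe, mem_sigma, mem_Icc] at ha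
        have := good_of hE hNX hXZ hKC hK2 ha.2 ha.1.1 ha.1.2
        rw [mem_coe, mem_filter, mem_product]
        dsimp only
        refine ⟨⟨this.1, ?_⟩, this.2⟩
        have h2 := mem_Icc.1 this.1
        rw [mem_Icc]
        omega
      · intro a ha b hb hab
        rw [mem_coe, mem_sigma, mem_Icc] at ha hb
        obtain ⟨k, p⟩ := a
        obtain ⟨k', p'⟩ := b
        simp only [Prod.mk.injEq] at hab
        dsimp only at ha hb
        obtain ⟨e1, e2⟩ := hab
        subst e2
        have hp := ha.2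
        have hp' := hb.2
        unfold Gk at hp hp'
        rw [mem_G] at hp hp'
        have e3 : idx p = idx p' := by omega
        have e4 : p = p' := by
          rw [← P_idx hp.2.1, ← P_idx hp'.2.1, e3]
        rw [e4]
    have h2 : ∑ k ∈ Icc 1 K2, ((Gk x z k).card : ℝ) ≤
        (((Icc 1 N ×ˢ Icc 1 N).filter (fun nk => Good (2 * E) (1 / E) N nk.1 nk.2)).card : ℝ) := by
      exact_mod_cast h1
    refine le_trans ?_ h2
    refine le_trans ?_ hsum
    calc c / 4000 * (N : ℝ) ≤ c * (N / 2000) := by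
          have : 0 ≤ c * (N : ℝ) := by positivity
          linarith
      _ ≤ c * (x / L) := mul_le_mul_of_nonneg_left hxL hc.le

end Pool.Agent.Helper10.CB
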