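import Pool.Agent.Helper10.CB.H2

/-!
# Lower bound for the number of pairs
-/

set_option autoImplicit false

open Finset Filter Topology

open scoped Classical

namespace Pool.Agent.Helper10.CB

/-- an almost prime representation with a small index -/
def Alm (r : ℕ) (δ θ : ℝ) (N n k : ℕ) : Prop :=
  0 < k ∧ 2 * k < n ∧ (k : ℝ) ≤ θ * (Real.log N / Real.log (Real.log N)) ∧
    (Nat.centralBinom k + P (n - k)).primeFactorsList.length ≤ r ∧
    ∀ q : ℕ, q.Prime → q ∣ Nat.centralBinom k + P (n - k) → (N : ℝ) ^ δ < q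

theorem KC.mono {x z K K' : ℕ} (h : KC x z K) (h3 : 3 ≤ K') (hK : K' ≤ K) : KC x z K' :=
  ⟨h3, le_trans (by omega) h.two, (Nat.pow_le_pow_right (by norm_num) hK).trans h.four⟩

theorem low_pairs : ∃ (r : ℕ) (δ c : ℝ) (N0 : ℕ), 0 < δ ∧ 0 < c ∧ ∀ N : ℕ, N0 ≤ N → ∀ θ : ℝ,
    Real.log (Real.log N) / Real.sqrt (Real.log N) ≤ θ → θ ≤ 1 →
    c * θ * N ≤ (((Icc 1 N ×ˢ Icc 1 N).filter (fun nk => Alm r δ θ N nk.1 nk.2)).card : ℝ) := by
  obtain ⟨E0, hE0⟩ := moments
  obtain ⟨c, C, x1, hc, hC, hm⟩ := hE0 (E0 + 1) (by omega)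
  set E := E0 + 1 with hE
  obtain ⟨N1, hN1⟩ := exists_x
  obtain ⟨x2, hx2⟩ := lg 1 E
  have ht : Tendsto (fun x : ℕ => (x : ℝ)) atTop atTop := tendsto_natCast_atTop_atTop
  have hl : Tendsto (fun x : ℕ => Real.log x) atTop atTop := Real.tendsto_log_atTop.comp ht
  have hll : Tendsto (fun x : ℕ => Real.log (Real.log x)) atTop atTop :=
    Real.tendsto_log_atTop.comp hl
  obtain ⟨N2, hN2⟩ := eventually_atTop.1 ((hll.eventually_ge_atTop 16).and
    (hl.eventually_ge_atTop 10000))
  have hEr : (0 : ℝ) < E := by exact_mod_cast (by omega : 0 < E)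
  refine ⟨2 * E, 1 / E, c / 512000, N1 + x1 + x2 + N2, by positivity, by positivity,
    fun N hN θ hθ hθ1 => ?_⟩
  obtain ⟨b1, b2⟩ := hN2 N (by omega)
  obtain ⟨x, hNX, hxN⟩ := hN1 N (by omega)
  have hN3 := hNX.a1
  have hNx' := hNX.a2
  have hN0 : (0 : ℝ) < N := by exact_mod_cast (by omega : 0 < N)
  have hNx : (N : ℝ) ≤ x := by exact_mod_cast hNX.a2
  have hl1 : Real.log N ≤ Real.log x := Real.log_le_log hN0 hNx
  have h6 := hNX.a6
  obtain ⟨z, hz1, hz2⟩ := Pool.Agent.Helper90.Tot.exists_root x E (by omega)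
  obtain ⟨K2, _, _, hXZ, hKC, _, _, hK2le, hKl1, _, hlogK2, _⟩ :=
    params le_rfl (hx2 x (by omega)) hz1 hz2
  set l := Real.log (N : ℝ) with hl'
  set L := Real.log (x : ℝ) with hL
  set ll := Real.log l with hll'
  set J := Real.log L with hJ
  have hllJ : ll ≤ J := Real.log_le_log (by linarith) hl1
  have hJll : J ≤ 2 * ll := by
    have h1 : J ≤ Real.log (2 * l) := Real.log_le_log (by linarith) h6
    rw [Real.log_mul (by norm_num) (by linarith)] at h1
    have := Real.log_two_lt_d9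
    linarith
  have hθ0 : 0 < θ := lt_of_lt_of_le (by
    have : 0 < Real.sqrt l := Real.sqrt_pos.2 (by linarith)
    positivity) hθ
  set s := Real.sqrt l with hs
  have hs2 : s ^ 2 = l := Real.sq_sqrt (by linarith)
  have hs100 : 100 ≤ s := by
    rw [hs]
    apply Real.le_sqrt_of_sq_le
    linarith
  have hθs : s ≤ θ * (l / ll) := by
    rw [div_le_iff₀ (by linarith)] at hθ
    have h1 : θ * (l / ll) = (θ * s) * s / ll := by
      rw [← hs2]
      ring
    rw [h1, le_div_iff₀ (by linarith)]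
    calc s * ll = ll * s := mul_comm _ _
      _ ≤ θ * s * s := mul_le_mul_of_nonneg_right hθ (by linarith)
  set K := ⌊θ * (l / ll) / 16⌋₊ with hK
  have hq0 : 0 ≤ θ * (l / ll) / 16 := by positivity
  have hKle : (K : ℝ) ≤ θ * (l / ll) / 16 := Nat.floor_le hq0
  have hKge : θ * (l / ll) / 32 ≤ K := by
    have := Nat.lt_floor_add_one (θ * (l / ll) / 16)
    rw [← hK] at this
    linarith
  have hK3r : (3 : ℝ) ≤ K := by linarith
  have hK3 : 3 ≤ K := by exact_mod_cast hK3r
  have hlogK : ll / 4 ≤ Real.log K := by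
    have h1 : s / 32 ≤ K := by linarith
    have h2 := Real.log_le_log (by positivity) h1
    rw [Real.log_div (by linarith) (by norm_num), hs, Real.log_sqrt (by linarith)] at h2
    have h3 : Real.log 32 ≤ 4 := by
      have g1 : Real.log 32 = 5 * Real.log 2 := by
        rw [show (32 : ℝ) = 2 ^ 5 by norm_num, Real.log_pow]; norm_num
      have := Real.log_two_lt_d9
      linarith
    linarith
  have hKK2 : K ≤ K2 := by
    have h1 : (K : ℝ) ≤ l / ll / 16 := by
      refine hKle.trans ?_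
      have : θ * (l / ll) ≤ 1 * (l / ll) := mul_le_mul_of_nonneg_right hθ1 (by positivity)
      linarith
    have h2 : l / ll / 16 ≤ L / 8 / J := by
      rw [div_div, div_div, div_le_div_iff₀ (by positivity) (by
        have : 0 < J := by linarith
        positivity)]
      have h3 : l * (8 * J) ≤ L * (8 * (2 * ll)) :=
        mul_le_mul hl1 (by linarith) (by linarith) (by linarith)
      linarith
    have h3 : L / 8 / J ≤ K2 := by
      rw [div_le_iff₀ (by linarith)]
      refine hKl1.trans (mul_le_mul_of_nonneg_left hlogK2 (Nat.cast_nonneg _))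
    have h4 := (h1.trans h2).trans h3
    exact_mod_cast h4
  have hKC' := hKC.mono hK3 hKK2
  obtain ⟨m1, -⟩ := hm x z K (by omega) hXZ hKC'
  have hKK : θ * l / 128 ≤ K * Real.log K := by
    have h1 : θ * l / 128 = θ * (l / ll) / 32 * (ll / 4) := by
      field_simp
      norm_num
    rw [h1]
    exact mul_le_mul hKge hlogK (by positivity) (by positivity)
  have hcount : ∑ k ∈ Icc 1 K, (Gk x z k).card ≤
      ((Icc 1 N ×ˢ Icc 1 N).filter (fun nk => Alm (2 * E) (1 / E) θ N nk.1 nk.2)).card := by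
    rw [← card_sigma]
    refine card_le_card_of_injOn (fun a => (idx a.2 + a.1, a.1)) ?_ ?_
    · intro a ha
      rw [mem_coe, mem_sigma, mem_Icc] at ha
      have hak : (a.1 : ℝ) ≤ K := by exact_mod_cast ha.1.2
      have hle : (a.1 : ℝ) ≤ θ * (l / ll) := by linarith
      have hax : (a.1 : ℝ) ≤ L := by
        have h1 : θ * (l / ll) ≤ 1 * (l / ll) := mul_le_mul_of_nonneg_right hθ1 (by positivity)
        have h2 : l / ll ≤ l := div_le_self (by linarith) (by linarith)
        linarith
      obtain ⟨r1, r2, r3, r4⟩ := rep_of (by omega) hNX hXZ hKC' hax ha.2 ha.1.1 ha.1.2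
      rw [mem_coe, mem_filter, mem_product]
      dsimp only
      refine ⟨⟨r1, ?_⟩, ha.1.1, r2, hle, r3, r4⟩
      have h2 := mem_Icc.1 r1
      rw [mem_Icc]
      omega
    · intro a ha b hb hab
      rw [mem_coe, mem_sigma, mem_Icc] at ha hb
      obtain ⟨k, p⟩ := a
      obtain ⟨k', p'⟩ := b
      simp only [Prod.mk.injEq] at hab
      dsimp only at ha hb
      obtain ⟨e1, e2⟩ := hab
      subst e2
      have hp := ha.2
      have hp' := hb.2
      unfold Gk at hp hp'
      rw [mem_G] at hp hp'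
      have e3 : idx p = idx p' := by omega
      have e4 : p = p' := by
        rw [← P_idx hp.2.1, ← P_idx hp'.2.1, e3]
      rw [e4]
  have hcount' : ∑ k ∈ Icc 1 K, ((Gk x z k).card : ℝ) ≤
      (((Icc 1 N ×ˢ Icc 1 N).filter (fun nk => Alm (2 * E) (1 / E) θ N nk.1 nk.2)).card : ℝ) := by
    exact_mod_cast hcount
  refine le_trans ?_ (m1.trans hcount')
  have hxL : (N : ℝ) / 2000 ≤ x / L := by
    rw [le_div_iff₀ (by linarith)]
    calc (N : ℝ) / 2000 * L ≤ N / 2000 * (2 * l) := mul_le_mul_of_nonneg_left h6 (by positivity)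
      _ = (N * l) / 1000 := by ring
      _ ≤ x := by linarith
  have hL0 : 0 < L := by linarith
  calc c / 512000 * θ * N = c * (N / 2000) * (θ / 256) := by ring
    _ ≤ c * (x / L) * (θ * (l / L) / 128) := by
        refine mul_le_mul (mul_le_mul_of_nonneg_left hxL hc.le) ?_ (by positivity) (by positivity)
        have h1 : 1 / 2 ≤ l / L := by
          rw [div_le_div_iff₀ (by norm_num) hL0]
          linarith
        have h2 : θ * (1 / 2) ≤ θ * (l / L) := mul_le_mul_of_nonneg_left h1 hθ0.le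
        linarith
    _ = c * (x / L ^ 2) * (θ * l / 128) := by
        field_simp
    _ ≤ c * (x / L ^ 2) * (K * Real.log K) := mul_le_mul_of_nonneg_left hKK (by positivity)

end Pool.Agent.Helper10.CB
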