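import Pool.Agent.Helper10.CB.H2
import Pool.Agent.Helper27.LG.BG

/-!
# Small prime factors on average
-/

set_option autoImplicit false

open Finset Filter Topology

open scoped Classical

namespace Pool.Agent.Helper10.CB

/-- the number of the `m` with `P m` in a residue class -/
theorem cnt_q : ∃ C : ℝ, 0 < C ∧ ∀ N q a : ℕ, 3 ≤ N → q.Prime → 3 ≤ q → q ^ 5 ≤ N ^ 2 → ¬ q ∣ a →
    (((Icc 1 N).filter (fun m => q ∣ a + P m)).card : ℝ) ≤ C * (N / q) := by
  obtain ⟨C, hC, h⟩ := Pool.Agent.Helper27.LG.bg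
  refine ⟨180 * C + 1, by positivity, fun N q a hN hq hq3 hqN hqa => ?_⟩
  have hNr : (3 : ℝ) ≤ N := by exact_mod_cast hN
  have hqr : (3 : ℝ) ≤ q := by exact_mod_cast hq3
  have hlN : 1 ≤ Real.log N := log_ge_one hN
  have hqN' : q ≤ N := by
    by_contra hc
    push Not at hc
    have h1 : N ^ 2 < q ^ 2 := Nat.pow_lt_pow_left hc (by norm_num)
    have h2 : q ^ 2 ≤ q ^ 5 := Nat.pow_le_pow_right (by omega) (by norm_num)
    omega
  have hqNr : (q : ℝ) ≤ N := by exact_mod_cast hqN'
  set X := 24 * (N : ℝ) * Real.log N with hX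
  have hXN : (N : ℝ) ≤ X := by
    have : (N : ℝ) * 1 ≤ N * Real.log N := mul_le_mul_of_nonneg_left hlN (by linarith)
    rw [hX]
    linarith
  have hXq : 1 ≤ X / q := by
    rw [one_le_div (by linarith)]
    linarith
  set N' := ⌊X / q⌋₊ + 1 with hN'
  have hN'le : (N' : ℝ) ≤ 2 * (X / q) := by
    have := Nat.floor_le (by linarith : 0 ≤ X / q)
    rw [hN']
    push_cast
    linarith
  have hN'ge : X / q ≤ N' := by
    have := Nat.lt_floor_add_one (X / q)
    rw [hN']
    push_cast
    linarith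
  have hN'2 : 2 ≤ N' := by
    have : 1 ≤ ⌊X / q⌋₊ := Nat.le_floor (by exact_mod_cast hXq)
    omega
  set b := q - a % q with hb
  have ha0 : a % q ≠ 0 := fun h0 => hqa (Nat.dvd_of_mod_eq_zero h0)
  have haq : a % q < q := Nat.mod_lt _ hq.pos
  have hb0 : 0 < b := by omega
  have hbq : b < q := by omega
  have hcop : Nat.Coprime b q := by
    rw [Nat.coprime_comm]
    exact (Nat.Prime.coprime_iff_not_dvd hq).2 fun hd => by
      have := Nat.le_of_dvd hb0 hd
      omega
  have h1 := h q b N' hq.one_le hN'2 hcop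
  set F := (Icc 1 N).filter (fun m => q ∣ a + P m) with hF
  have hmod : ∀ m ∈ F, P m = q * (P m / q) + b := by
    intro m hm
    rw [hF, mem_filter] at hm
    have g1 := Nat.div_add_mod (P m) q
    have g2 : (a % q + P m % q) % q = 0 := by
      rw [← Nat.add_mod]
      exact Nat.mod_eq_zero_of_dvd hm.2
    have g3 : P m % q < q := Nat.mod_lt _ hq.pos
    have g4 : q ∣ a % q + P m % q := Nat.dvd_of_mod_eq_zero g2
    obtain ⟨c, hc⟩ := g4
    have g5 : c = 1 := by
      rcases c with _ | _ | c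
      · omega
      · rfl
      · have : q * (c + 1 + 1) = q * c + 2 * q := by ring
        omega
    rw [g5] at hc
    omega
  have hsub : F.card ≤ ((Icc 1 N').filter (fun t => (q * t + b).Prime)).card + 1 := by
    have g1 : F.image (fun m => P m / q) ⊆
        insert 0 ((Icc 1 N').filter (fun t => (q * t + b).Prime)) := by
      intro t ht
      rw [mem_image] at ht
      obtain ⟨m, hm, hmt⟩ := ht
      rw [mem_insert, mem_filter, mem_Icc]
      rcases Nat.eq_zero_or_pos t with h0 | h0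
      · exact Or.inl h0
      · right
        have g2 := hmod m hm
        rw [hmt] at g2
        rw [hF, mem_filter, mem_Icc] at hm
        refine ⟨⟨h0, ?_⟩, ?_⟩
        · have g3 : (t : ℝ) ≤ X / q := by
            rw [← hmt]
            refine (Nat.cast_div_le).trans ?_
            exact div_le_div_of_nonneg_right (P_le hN hm.1.1 hm.1.2) (by linarith)
          have g4 : t ≤ ⌊X / q⌋₊ := Nat.le_floor g3
          omega
        · rw [← g2]
          exact P_prime m
    have g2 : (F.image (fun m => P m / q)).card = F.card := by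
      apply card_image_of_injOn
      intro m hm m' hm' he
      rw [mem_coe] at hm hm'
      have e1 := hmod m hm
      have e2 := hmod m' hm'
      simp only at he
      rw [hF, mem_filter, mem_Icc] at hm hm'
      apply P_inj hm.1.1 hm'.1.1
      rw [e1, e2, he]
    rw [← g2]
    exact (card_le_card g1).trans (card_insert_le _ _)
  have h2 : (F.card : ℝ) ≤ (((Icc 1 N').filter (fun t => (q * t + b).Prime)).card : ℝ) + 1 := by
    exact_mod_cast hsub
  -- the size
  have hlN' : 3 / 5 * Real.log N ≤ Real.log N' := by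
    have g1 : Real.log (N / q) ≤ Real.log N' := by
      apply Real.log_le_log (by positivity)
      refine le_trans ?_ hN'ge
      exact div_le_div_of_nonneg_right hXN (by linarith)
    rw [Real.log_div (by linarith) (by linarith)] at g1
    have g2 : 5 * Real.log q ≤ 2 * Real.log N := by
      have g3 : ((q : ℝ) ^ 5) ≤ (N : ℝ) ^ 2 := by exact_mod_cast hqN
      have g4 := Real.log_le_log (by positivity) g3
      rw [Real.log_pow, Real.log_pow] at g4
      exact_mod_cast g4
    linarith
  have htot : (q : ℝ) / (Nat.totient q : ℝ) ≤ 3 / 2 := by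
    rw [Nat.totient_prime hq, Nat.cast_sub hq.one_le, div_le_div_iff₀ (by push_cast; linarith) (by norm_num)]
    push_cast
    linarith
  have h3 : C * (N' / Real.log N') * ((q : ℝ) / (Nat.totient q : ℝ)) ≤ 120 * C * (N / q) := by
    have g1 : (N' : ℝ) / Real.log N' ≤ 80 * (N / q) := by
      rw [div_le_iff₀ (by linarith)]
      calc (N' : ℝ) ≤ 2 * (X / q) := hN'le
        _ = 80 * (N / q) * (3 / 5 * Real.log N) := by
            rw [hX]
            ring
        _ ≤ 80 * (N / q) * Real.log N' := mul_le_mul_of_nonneg_left hlN' (by positivity)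
    calc C * (N' / Real.log N') * ((q : ℝ) / (Nat.totient q : ℝ))
        ≤ C * (80 * (N / q)) * (3 / 2) := by
          refine mul_le_mul (mul_le_mul_of_nonneg_left g1 hC.le) htot (by positivity) (by positivity)
      _ = 120 * C * (N / q) := by ring
  have h4 : (1 : ℝ) ≤ N / q := by
    rw [one_le_div (by linarith)]
    exact hqNr
  have h5 : 0 ≤ C * ((N : ℝ) / q) := by positivity
  calc (F.card : ℝ) ≤ 120 * C * (N / q) + N / q := by linarith
    _ ≤ (180 * C + 1) * (N / q) := by
        have : (180 * C + 1) * ((N : ℝ) / q) = 180 * (C * (N / q)) + N / q := by ring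
        rw [this]
        have : 120 * C * ((N : ℝ) / q) = 120 * (C * (N / q)) := by ring
        linarith

/-- a small prime factor -/
def Dv (y : ℝ) (n k : ℕ) : Prop :=
  0 < k ∧ 2 * k < n ∧ ∃ q : ℕ, q.Prime ∧ (q : ℝ) ≤ y ∧ q ∣ Nat.centralBinom k + P (n - k)

theorem a_pairs : ∃ C : ℝ, 0 < C ∧ ∀ (N K : ℕ) (δ : ℝ), 3 ≤ K → K ≤ N → 0 < δ → δ ≤ 2 / 5 →
    (((Icc 1 N ×ˢ Icc 1 K).filter (fun nk => Dv ((K : ℝ) ^ δ) nk.1 nk.2)).card : ℝ) ≤
      C * Real.exp (-(2 / (5 * δ))) * (N * K) := by
  obtain ⟨C1, hC1, hcnt⟩ := cnt_q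
  obtain ⟨C2, hC2, hmer⟩ := Pool.Agent.Helper31.LG.mertens
  refine ⟨6 * C1 * C2 + 1, by positivity, fun N K δ hK hKN hδ hδ2 => ?_⟩
  have hKr : (3 : ℝ) ≤ K := by exact_mod_cast hK
  have hK0 : (0 : ℝ) < K := by linarith
  have hNr : (3 : ℝ) ≤ N := by exact_mod_cast (hK.trans hKN)
  have hN0 : (0 : ℝ) < N := by linarith
  have hKN' : (K : ℝ) ≤ N := by exact_mod_cast hKN
  have hlK : 1 ≤ Real.log K := log_ge_one hK
  set y := (K : ℝ) ^ δ with hy
  have hy0 : 0 < y := by positivity
  have hly : Real.log y = δ * Real.log K := Real.log_rpow hK0 δ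
  set W := (Icc 1 N ×ˢ Icc 1 K).filter (fun nk => Dv y nk.1 nk.2) with hW
  -- the odd prime
  have hodd : ∀ n k q : ℕ, 0 < k → 2 * k < n → q.Prime → q ∣ Nat.centralBinom k + P (n - k) →
      3 ≤ q := by
    intro n k q hk hkn hq hd
    rcases Nat.lt_or_ge q 3 with h | h
    · have h2 : q = 2 := le_antisymm (by omega) hq.two_le
      rw [h2] at hd
      exact absurd hd (not_two_dvd hk (by omega))
    · exact h
  rcases lt_or_ge y 3 with hy3 | hy3
  · have : W = ∅ := by
      rw [eq_empty_iff_forall_notMem]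
      intro nk hnk
      rw [hW, mem_filter] at hnk
      obtain ⟨_, h1, h2, q, hq, hqy, hd⟩ := hnk
      have h3 := hodd _ _ q h1 h2 hq hd
      have h4 : (3 : ℝ) ≤ q := by exact_mod_cast h3
      linarith
    rw [this, card_empty]
    push_cast
    positivity
  set Y := ⌊y⌋₊ with hY
  have hY3 : 3 ≤ Y := Nat.le_floor (by exact_mod_cast hy3)
  have hYy : (Y : ℝ) ≤ y := Nat.floor_le hy0.le
  -- the cover
  set F1 : Finset (ℕ × ℕ) := Icc 1 Y ×ˢ Icc 1 Y with hF1
  set F2 : Finset (Σ _ : Σ _ : ℕ, ℕ, ℕ) := ((pr3 Y).sigma (fun q => ND q (K + 1))).sigma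
    (fun qk => (Icc 1 N).filter (fun m => qk.1 ∣ Nat.centralBinom qk.2 + P m)) with hF2
  have h1 : W.image (fun nk => (nk.2, nk.1 - nk.2)) ⊆ F1 ∪ (F2.image (fun t => (t.1.2, t.2))) := by
    intro km hkm
    rw [mem_image] at hkm
    obtain ⟨nk, hnk, rfl⟩ := hkm
    rw [hW, mem_filter, mem_product, mem_Icc, mem_Icc] at hnk
    obtain ⟨⟨hn, hk⟩, h1, h2, q, hq, hqy, hd⟩ := hnk
    have hq3 := hodd _ _ q h1 h2 hq hd
    have hqY : q ≤ Y := Nat.le_floor hqy
    rw [mem_union]
    by_cases hqk : q ∣ Nat.centralBinom nk.2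
    · left
      have h3 : q ∣ P (nk.1 - nk.2) := (Nat.dvd_add_right hqk).1 hd
      have h4 := (Nat.prime_dvd_prime_iff_eq hq (P_prime _)).1 h3
      have h5 := P_ge (show 1 ≤ nk.1 - nk.2 by omega)
      rw [hF1, mem_product, mem_Icc, mem_Icc]
      dsimp only
      omega
    · right
      rw [mem_image]
      refine ⟨⟨⟨q, nk.2⟩, nk.1 - nk.2⟩, ?_, rfl⟩
      rw [hF2, mem_sigma, mem_sigma, mem_filter, mem_pr3, mem_ND, mem_Icc]
      dsimp only
      exact ⟨⟨⟨⟨hq3, hqY⟩, hq⟩, by omega, hqk⟩, ⟨by omega, by omega⟩, hd⟩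
  have h2 : W.card ≤ F1.card + F2.card := by
    have g1 : (W.image (fun nk => (nk.2, nk.1 - nk.2))).card = W.card := by
      apply card_image_of_injOn
      intro a ha b hb hab
      rw [mem_coe, hW, mem_filter] at ha hb
      obtain ⟨n, k⟩ := a
      obtain ⟨n', k'⟩ := b
      simp only [Prod.mk.injEq] at hab
      have g1 := ha.2.2.1
      have g2 := hb.2.2.1
      dsimp only at g1 g2
      obtain ⟨e1, e2⟩ := hab
      subst e1
      have : n = n' := by omega
      rw [this]
    rw [← g1]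
    refine (card_le_card h1).trans ((card_union_le _ _).trans ?_)
    exact Nat.add_le_add_left card_image_le _
  -- the first part
  have hexp : (K : ℝ) ^ (-(2 / 5) : ℝ) ≤ Real.exp (-(2 / (5 * δ))) := by
    rw [Real.rpow_def_of_pos hK0]
    apply Real.exp_le_exp.2
    have g1 : 1 ≤ δ * Real.log K := by
      rw [← hly, Real.le_log_iff_exp_le hy0]
      have := Real.exp_one_lt_d9
      linarith
    have g2 : 1 / δ ≤ Real.log K := by
      rw [div_le_iff₀ hδ]
      linarith
    have g3 : 2 / (5 * δ) = 2 / 5 * (1 / δ) := by field_simp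
    rw [g3]
    linarith
  have h3 : (F1.card : ℝ) ≤ Real.exp (-(2 / (5 * δ))) * (N * K) := by
    have g1 : (F1.card : ℝ) = (Y : ℝ) ^ 2 := by
      rw [hF1, card_product, Nat.card_Icc, Nat.add_sub_cancel]
      push_cast
      ring
    rw [g1]
    have g2 : (Y : ℝ) ^ 2 ≤ y ^ 2 := pow_le_pow_left₀ (Nat.cast_nonneg _) hYy 2
    have g3 : y ^ 2 ≤ (K : ℝ) ^ (4 / 5 : ℝ) := by
      rw [hy, ← Real.rpow_natCast, ← Real.rpow_mul hK0.le]
      apply Real.rpow_le_rpow_of_exponent_le (by linarith)
      push_cast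
      linarith
    have g4 : (K : ℝ) ^ (4 / 5 : ℝ) ≤ (K : ℝ) ^ (-(2 / 5) : ℝ) * (N * K) := by
      have g5 : (K : ℝ) ^ (4 / 5 : ℝ) ≤ (K : ℝ) ^ (8 / 5 : ℝ) :=
        Real.rpow_le_rpow_of_exponent_le (by linarith) (by norm_num)
      have g6 : (K : ℝ) ^ (8 / 5 : ℝ) = (K : ℝ) ^ (-(2 / 5) : ℝ) * (K * K) := by
        have e1 : (K : ℝ) * K = (K : ℝ) ^ (2 : ℝ) := by
          rw [Real.rpow_two]
          ring
        rw [e1, ← Real.rpow_add hK0]
        norm_num
      rw [g6] at g5
      refine g5.trans ?_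
      refine mul_le_mul_of_nonneg_left ?_ (by positivity)
      exact mul_le_mul_of_nonneg_right hKN' hK0.le
    have g5 : (K : ℝ) ^ (-(2 / 5) : ℝ) * (N * K) ≤ Real.exp (-(2 / (5 * δ))) * (N * K) :=
      mul_le_mul_of_nonneg_right hexp (by positivity)
    linarith
  -- the second part
  have h4 : (F2.card : ℝ) ≤ 6 * C1 * C2 * Real.exp (-(2 / (5 * δ))) * (N * K) := by
    have g1 : (F2.card : ℝ) ≤ ∑ q ∈ pr3 Y, ((ND q (K + 1)).card : ℝ) * (C1 * (N / q)) := by
      rw [hF2, card_sigma, sum_sigma]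
      push_cast
      refine sum_le_sum fun q hq => ?_
      rw [mem_pr3] at hq
      rw [← nsmul_eq_mul]
      refine sum_le_card_nsmul _ _ _ fun k hk => ?_
      rw [mem_ND] at hk
      refine hcnt N q (Nat.centralBinom k) (hK.trans hKN) hq.2 hq.1.1 ?_ hk.2
      have g2 : (q : ℝ) ≤ (K : ℝ) ^ (2 / 5 : ℝ) := by
        have g3 : (q : ℝ) ≤ Y := by exact_mod_cast hq.1.2
        refine (g3.trans hYy).trans ?_
        exact Real.rpow_le_rpow_of_exponent_le (by linarith) hδ2
      have g3 : (q : ℝ) ^ 5 ≤ (K : ℝ) ^ 2 := by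
        have g4 := pow_le_pow_left₀ (Nat.cast_nonneg q) g2 5
        rw [← Real.rpow_natCast ((K : ℝ) ^ (2 / 5 : ℝ)), ← Real.rpow_mul hK0.le] at g4
        norm_num at g4
        exact g4
      have g4 : q ^ 5 ≤ K ^ 2 := by exact_mod_cast g3
      exact g4.trans (Nat.pow_le_pow_left hKN 2)
    refine g1.trans ?_
    have g2 : ∀ q ∈ pr3 Y, ((ND q (K + 1)).card : ℝ) * (C1 * (N / q)) ≤
        6 * C1 * (N * K) * (1 / (δ * Real.log K) * Real.exp (-(2 / (5 * δ)))) * (Real.log q / q) := by
      intro q hq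
      rw [mem_pr3] at hq
      have hq0 : (0 : ℝ) < q := by exact_mod_cast (by omega : 0 < q)
      have hlq : 1 ≤ Real.log q := log_ge_one hq.1.1
      have hqy : (q : ℝ) ≤ y := by
        have g3 : (q : ℝ) ≤ Y := by exact_mod_cast hq.1.2
        exact g3.trans hYy
      have hlqy : Real.log q ≤ δ * Real.log K := by
        rw [← hly]
        exact Real.log_le_log hq0 hqy
      have hqK : q ≤ K + 1 := by
        have g3 : (q : ℝ) ≤ K := by
          refine hqy.trans ?_
          have g4 : (K : ℝ) ^ δ ≤ (K : ℝ) ^ (1 : ℝ) :=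
            Real.rpow_le_rpow_of_exponent_le (by linarith) (by linarith)
          rw [Real.rpow_one] at g4
          exact g4
        have : q ≤ K := by exact_mod_cast g3
        omega
      have g3 := card_ND_exp hq.2 hq.1.1 hqK
      set u := Real.log K / Real.log q with hu
      have hu0 : 0 < u := by positivity
      have g4 : Real.exp (-(2 / 5 * (Real.log ((K + 1 : ℕ) : ℝ) / Real.log q)))
          ≤ Real.exp (-(2 / 5 * u)) := by
        apply Real.exp_le_exp.2
        have g5 : u ≤ Real.log ((K + 1 : ℕ) : ℝ) / Real.log q := by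
          rw [hu]
          refine div_le_div_of_nonneg_right ?_ (by linarith)
          apply Real.log_le_log hK0
          push_cast
          linarith
        linarith
      have g5 : ((K + 1 : ℕ) : ℝ) ≤ 2 * K := by
        push_cast
        linarith
      -- the exponential
      have huδ : 1 / δ ≤ u := by
        rw [hu, div_le_div_iff₀ hδ (by linarith)]
        linarith
      have g6 : Real.exp (-(2 / 5 * u)) ≤ 1 / (δ * u) * Real.exp (-(2 / (5 * δ))) := by
        have g7 : δ * u ≤ Real.exp (2 / 5 * (u - 1 / δ)) := by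
          have g8 := Real.add_one_le_exp (2 / 5 * (u - 1 / δ))
          have g9 : δ * (u - 1 / δ) ≤ 2 / 5 * (u - 1 / δ) :=
            mul_le_mul_of_nonneg_right hδ2 (by linarith)
          have g10 : δ * (u - 1 / δ) = δ * u - 1 := by
            field_simp
          linarith
        have g8 : Real.exp (-(2 / (5 * δ))) = Real.exp (-(2 / 5 * u)) * Real.exp (2 / 5 * (u - 1 / δ)) := by
          rw [← Real.exp_add]
          congr 1
          field_simp
          ring
        rw [g8]
        have g9 : 0 < δ * u := by positivity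
        set ex := Real.exp (-(2 / 5 * u)) with hex
        have hex0 : 0 < ex := Real.exp_pos _
        have g10 : ex = 1 / (δ * u) * (ex * (δ * u)) := by
          rw [one_div, mul_comm ex (δ * u), inv_mul_cancel_left₀ g9.ne']
        calc ex = 1 / (δ * u) * (ex * (δ * u)) := g10
          _ ≤ 1 / (δ * u) * (ex * Real.exp (2 / 5 * (u - 1 / δ))) :=
            mul_le_mul_of_nonneg_left (mul_le_mul_of_nonneg_left g7 hex0.le) (by positivity)
      have g7 : 1 / (δ * u) = 1 / (δ * Real.log K) * Real.log q := by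
        rw [hu]
        field_simp
      calc ((ND q (K + 1)).card : ℝ) * (C1 * (N / q))
          ≤ (3 * (2 * K) * (1 / (δ * u) * Real.exp (-(2 / (5 * δ))))) * (C1 * (N / q)) := by
            refine mul_le_mul_of_nonneg_right ?_ (by positivity)
            refine g3.trans ?_
            refine mul_le_mul ?_ (g4.trans g6) (Real.exp_pos _).le (by positivity)
            exact mul_le_mul_of_nonneg_left g5 (by norm_num)
        _ = _ := by
            rw [g7]
            ring
    refine (sum_le_sum g2).trans ?_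
    rw [← mul_sum]
    have g3 : ∑ q ∈ pr3 Y, Real.log q / q ≤ C2 * (δ * Real.log K) := by
      have g4 : ∑ q ∈ pr3 Y, Real.log q / q ≤ ∑ p ∈ (Icc 1 Y).filter Nat.Prime, Real.log p / p := by
        refine sum_le_sum_of_subset_of_nonneg ?_ ?_
        · intro q hq
          rw [mem_pr3] at hq
          rw [mem_filter, mem_Icc]
          exact ⟨⟨by omega, hq.1.2⟩, hq.2⟩
        · intro q _ _
          exact div_nonneg (Real.log_natCast_nonneg q) (Nat.cast_nonneg q)
      refine (g4.trans (hmer Y (by omega))).trans ?_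
      refine mul_le_mul_of_nonneg_left ?_ hC2.le
      rw [← hly]
      exact Real.log_le_log (by exact_mod_cast (by omega : 0 < Y)) hYy
    refine (mul_le_mul_of_nonneg_left g3 (by positivity)).trans (le_of_eq ?_)
    field_simp
  calc (W.card : ℝ) ≤ F1.card + F2.card := by exact_mod_cast h2
    _ ≤ Real.exp (-(2 / (5 * δ))) * (N * K) + 6 * C1 * C2 * Real.exp (-(2 / (5 * δ))) * (N * K) :=
        add_le_add h3 h4
    _ = _ := by ring

/-- almost all `n`, almost all `k` -/
theorem a_almost : ∀ ε : ℝ, 0 < ε → ∃ δ : ℝ, 0 < δ ∧ ∀ N K : ℕ, 3 ≤ K → K ≤ N →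
    (((Icc 1 N).filter (fun n => ε * K ≤
      (((Icc 1 K).filter (fun k => Dv ((K : ℝ) ^ δ) n k)).card : ℝ))).card : ℝ) ≤ ε * N := by
  intro ε hε
  obtain ⟨C, hC, h⟩ := a_pairs
  -- the choice of delta
  set δ := min (2 / 5) (2 / 5 * (ε ^ 2 / C)) with hδ
  have hδ0 : 0 < δ := by positivity
  have hexp : C * Real.exp (-(2 / (5 * δ))) ≤ ε ^ 2 := by
    have h1 : C / ε ^ 2 ≤ 2 / (5 * δ) := by
      rw [div_le_div_iff₀ (by positivity) (by positivity)]
      have h2 : δ ≤ 2 / 5 * (ε ^ 2 / C) := min_le_right _ _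
      have h3 : C * (5 * δ) ≤ C * (5 * (2 / 5 * (ε ^ 2 / C))) :=
        mul_le_mul_of_nonneg_left (mul_le_mul_of_nonneg_left h2 (by norm_num)) hC.le
      have h4 : C * (5 * (2 / 5 * (ε ^ 2 / C))) = 2 * ε ^ 2 := by
        field_simp
      linarith
    have h2 : C / ε ^ 2 ≤ Real.exp (2 / (5 * δ)) := by
      have := Real.add_one_le_exp (2 / (5 * δ))
      linarith
    rw [Real.exp_neg, ← div_eq_mul_inv, div_le_iff₀ (Real.exp_pos _)]
    rw [div_le_iff₀ (by positivity)] at h2
    linarith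
  refine ⟨δ, hδ0, fun N K hK hKN => ?_⟩
  have hK0 : (0 : ℝ) < K := by exact_mod_cast (by omega : 0 < K)
  have hN0 : (0 : ℝ) < N := by exact_mod_cast (by omega : 0 < N)
  have h1 := h N K δ hK hKN hδ0 (min_le_left _ _)
  set S := (Icc 1 N).filter (fun n => ε * K ≤
      (((Icc 1 K).filter (fun k => Dv ((K : ℝ) ^ δ) n k)).card : ℝ)) with hS
  have h2 : (S.card : ℝ) * (ε * K) ≤
      (((Icc 1 N ×ˢ Icc 1 K).filter (fun nk => Dv ((K : ℝ) ^ δ) nk.1 nk.2)).card : ℝ) := by
    have h3 : ((Icc 1 N ×ˢ Icc 1 K).filter (fun nk => Dv ((K : ℝ) ^ δ) nk.1 nk.2)).card =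
        ∑ n ∈ Icc 1 N, ((Icc 1 K).filter (fun k => Dv ((K : ℝ) ^ δ) n k)).card := by
      rw [card_filter, sum_product]
      refine sum_congr rfl fun n _ => ?_
      rw [card_filter]
    rw [h3]
    push_cast
    have h4 : ∑ n ∈ S, (((Icc 1 K).filter (fun k => Dv ((K : ℝ) ^ δ) n k)).card : ℝ) ≤
        ∑ n ∈ Icc 1 N, (((Icc 1 K).filter (fun k => Dv ((K : ℝ) ^ δ) n k)).card : ℝ) :=
      sum_le_sum_of_subset_of_nonneg (filter_subset _ _) fun _ _ _ => Nat.cast_nonneg _
    refine le_trans ?_ h4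
    rw [← nsmul_eq_mul]
    refine card_nsmul_le_sum _ _ _ fun n hn => ?_
    rw [hS, mem_filter] at hn
    exact hn.2
  have h3 : (S.card : ℝ) * (ε * K) ≤ (ε * N) * (ε * K) := by
    calc (S.card : ℝ) * (ε * K) ≤ C * Real.exp (-(2 / (5 * δ))) * (N * K) := h2.trans h1
      _ ≤ ε ^ 2 * (N * K) := mul_le_mul_of_nonneg_right hexp (by positivity)
      _ = (ε * N) * (ε * K) := by ring
  exact le_of_mul_le_mul_right h3 (by positivity)

end Pool.Agent.Helper10.CB
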