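import Pool.Agent.Helper10.CB.MO
import Pool.Agent.Helper10.CB.H1

/-!
# The main counting argument
-/

set_option autoImplicit false

open Finset Filter Topology

open scoped Classical

namespace Pool.Agent.Helper10.CB

/-- the index of the prime `p` -/
noncomputable def idx (p : ℕ) : ℕ := Nat.count Nat.Prime p + 1

theorem P_idx {p : ℕ} (hp : p.Prime) : P (idx p) = p := by
  unfold P idx
  rw [Nat.add_sub_cancel]
  exact Nat.nth_count hp

theorem idx_add {p p' : ℕ} (hp : p.Prime) (hp' : p'.Prime) (h : p ≤ p') :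
    idx p + ((Ioc p p').filter Nat.Prime).card = idx p' := by
  unfold idx
  have hc : ∀ r : ℕ, r.Prime → ((range (r + 1)).filter Nat.Prime).card = Nat.count Nat.Prime r + 1 := by
    intro r hr
    have h1 : Nat.count Nat.Prime (r + 1) = Nat.count Nat.Prime r + 1 := by
      rw [Nat.count_succ, if_pos hr]
    rw [← h1, Nat.count_eq_card_filter_range]
  have h1 := hc p hp
  have h2 := hc p' hp'
  have h3 : (range (p' + 1)).filter Nat.Prime =
      (range (p + 1)).filter Nat.Prime ∪ (Ioc p p').filter Nat.Prime := by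
    ext q
    simp only [mem_filter, mem_union, mem_range, mem_Ioc]
    constructor
    · rintro ⟨h1, h2⟩
      rcases Nat.lt_or_ge q (p + 1) with h | h
      · exact Or.inl ⟨h, h2⟩
      · exact Or.inr ⟨⟨by omega, by omega⟩, h2⟩
    · rintro (⟨h1, h2⟩ | ⟨h1, h2⟩)
      · exact ⟨by omega, h2⟩
      · exact ⟨by omega, h2⟩
  have h4 : Disjoint ((range (p + 1)).filter Nat.Prime) ((Ioc p p').filter Nat.Prime) := by
    rw [disjoint_left]
    intro q h5 h6
    rw [mem_filter, mem_range] at h5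
    rw [mem_filter, mem_Ioc] at h6
    omega
  have h5 := congrArg card h3
  rw [card_union_of_disjoint h4] at h5
  omega

/-- the primes with fewer than `K` primes in the next `B` numbers -/
noncomputable def Iso (X K B : ℕ) : Finset ℕ :=
  (Icc 1 X).filter (fun p => p.Prime ∧ ((Ioc p (p + B)).filter Nat.Prime).card < K)

theorem mem_Iso {X K B p : ℕ} : p ∈ Iso X K B ↔
    (1 ≤ p ∧ p ≤ X) ∧ p.Prime ∧ ((Ioc p (p + B)).filter Nat.Prime).card < K := by
  unfold Iso
  rw [mem_filter, mem_Icc]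

theorem card_Iso {X K B : ℕ} (hB : 1 ≤ B) : (Iso X K B).card ≤ K * (X / B + 1) := by
  have h1 : ∀ j ∈ (Iso X K B).image (fun p => p / B),
      ((Iso X K B).filter (fun p => p / B = j)).card ≤ K := by
    intro j hj
    set F := (Iso X K B).filter (fun p => p / B = j) with hF
    have hne : F.Nonempty := by
      rw [mem_image] at hj
      obtain ⟨p, hp, hpj⟩ := hj
      exact ⟨p, mem_filter.2 ⟨hp, hpj⟩⟩
    have hm := F.min'_mem hne
    set p1 := F.min' hne with hp1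
    have hm2 : p1 ∈ Iso X K B ∧ p1 / B = j := mem_filter.1 hm
    have h2 : F ⊆ insert p1 ((Ioc p1 (p1 + B)).filter Nat.Prime) := by
      intro p hp
      have hle : p1 ≤ p := F.min'_le p hp
      rw [mem_insert]
      rcases Nat.eq_or_lt_of_le hle with h | h
      · exact Or.inl h.symm
      · right
        have hp2 : p ∈ Iso X K B ∧ p / B = j := mem_filter.1 hp
        rw [mem_filter, mem_Ioc]
        refine ⟨⟨h, ?_⟩, (mem_Iso.1 hp2.1).2.1⟩
        have e1 : p1 / B = p / B := by rw [hm2.2, hp2.2]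
        have e2 := Nat.div_add_mod p1 B
        have e3 := Nat.div_add_mod p B
        have e4 := Nat.mod_lt p (by omega : 0 < B)
        rw [e1] at e2
        omega
    have h3 := card_le_card h2
    have h4 := card_insert_le p1 ((Ioc p1 (p1 + B)).filter Nat.Prime)
    have h5 := (mem_Iso.1 hm2.1).2.2
    omega
  have h2 := card_le_mul_card_image (Iso X K B) K h1
  refine h2.trans (Nat.mul_le_mul_left _ ?_)
  have h3 : (Iso X K B).image (fun p => p / B) ⊆ range (X / B + 1) := by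
    intro j hj
    rw [mem_image] at hj
    obtain ⟨p, hp, hpj⟩ := hj
    rw [mem_range, ← hpj]
    have := Nat.div_le_div_right (c := B) (mem_Iso.1 hp).1.2
    omega
  have h4 := card_le_card h3
  rw [card_range] at h4
  exact h4

/-- Cauchy and Schwarz: many values if few collisions -/
theorem cs {α : Type*} [DecidableEq α] (F : Finset α) (f : α → ℕ) :
    F.card ^ 2 ≤ (F.image f).card * ((F ×ˢ F).filter (fun ab => f ab.1 = f ab.2)).card := by
  have h1 : F.card = ∑ n ∈ F.image f, (F.filter (fun a => f a = n)).card :=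
    card_eq_sum_card_image f F
  have h2 : ((F ×ˢ F).filter (fun ab => f ab.1 = f ab.2)).card =
      ∑ n ∈ F.image f, (F.filter (fun a => f a = n)).card ^ 2 := by
    rw [card_eq_sum_card_fiberwise (f := fun ab : α × α => f ab.1) (t := F.image f)]
    · refine sum_congr rfl fun n _ => ?_
      rw [pow_two, ← card_product]
      congr 1
      ext ⟨a, b⟩
      simp only [mem_filter, mem_product]
      constructor
      · rintro ⟨⟨⟨h1, h2⟩, h3⟩, h4⟩
        exact ⟨⟨h1, h4⟩, h2, by rw [← h3, h4]⟩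
      · rintro ⟨⟨h1, h2⟩, h3, h4⟩
        exact ⟨⟨⟨h1, h3⟩, by rw [h2, h4]⟩, h2⟩
    · intro ab hab
      rw [mem_coe, mem_filter, mem_product] at hab
      exact mem_coe.2 (mem_image_of_mem f hab.1.1)
  rw [h2, h1]
  have h3 := sq_sum_le_card_mul_sum_sq (s := F.image f) (f := fun n => (F.filter (fun a => f a = n)).card)
  exact h3

/-- the block with the index `j` -/
noncomputable def Bl (K K2 j : ℕ) : Finset ℕ := (Icc 1 K2).filter (fun k => (k - 1) / K = j)

theorem mem_Bl {K K2 j k : ℕ} : k ∈ Bl K K2 j ↔ (1 ≤ k ∧ k ≤ K2) ∧ (k - 1) / K = j := by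
  unfold Bl
  rw [mem_filter, mem_Icc]

theorem Bl_lt {K K2 j k k' : ℕ} (hK : 1 ≤ K) (h : k ∈ Bl K K2 j) (h' : k' ∈ Bl K K2 j) :
    k < k' + K := by
  rw [mem_Bl] at h h'
  have e2 := Nat.div_add_mod (k - 1) K
  have e3 := Nat.div_add_mod (k' - 1) K
  have e4 := Nat.mod_lt (k - 1) (by omega : 0 < K)
  rw [h.2] at e2
  rw [h'.2] at e3
  omega

theorem card_Bl {K K2 j : ℕ} (hK : 1 ≤ K) : (Bl K K2 j).card ≤ K := by
  rcases (Bl K K2 j).eq_empty_or_nonempty with h | h
  · rw [h, card_empty]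
    omega
  · have h1 := (Bl K K2 j).min'_mem h
    set a := (Bl K K2 j).min' h with ha
    have h2 : Bl K K2 j ⊆ Ico a (a + K) := by
      intro k hk
      rw [mem_Ico]
      exact ⟨(Bl K K2 j).min'_le k hk, Bl_lt hK hk h1⟩
    have h3 := card_le_card h2
    rw [Nat.card_Ico] at h3
    omega

/-- the pairs with the second coordinate in the block -/
noncomputable def GP (x z K K2 B j : ℕ) : Finset (ℕ × ℕ) :=
  (((Ioc (2 * x) (32 * x)).filter Nat.Prime \ Iso (32 * x) K B) ×ˢ Bl K K2 j).filter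
    (fun a => a.1 ∈ Gk x z a.2)

theorem mem_GP {x z K K2 B j : ℕ} {a : ℕ × ℕ} : a ∈ GP x z K K2 B j ↔
    a.1 ∈ Gk x z a.2 ∧ a.1 ∉ Iso (32 * x) K B ∧ a.2 ∈ Bl K K2 j := by
  unfold GP
  rw [mem_filter, mem_product, Finset.mem_sdiff, mem_filter, mem_Ioc]
  constructor
  · exact fun h => ⟨h.2, h.1.1.2, h.1.2⟩
  · intro h
    have h1 := h.1
    unfold Gk at h1
    rw [mem_G] at h1
    exact ⟨⟨⟨⟨h1.1, h1.2.1⟩, h.2.1⟩, h.2.2⟩, h.1⟩

theorem near {x z K K2 B j : ℕ} {a b : ℕ × ℕ} (hK : 1 ≤ K) (ha : a ∈ GP x z K K2 B j)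
    (hb : b ∈ GP x z K K2 B j) (hab : a.1 < b.1) (he : idx a.1 + a.2 = idx b.1 + b.2) :
    b.1 ≤ a.1 + B := by
  rw [mem_GP] at ha hb
  obtain ⟨ha1, ha2, ha3⟩ := ha
  obtain ⟨hb1, hb2, hb3⟩ := hb
  unfold Gk at ha1 hb1
  rw [mem_G] at ha1 hb1
  have h1 := idx_add ha1.2.1 hb1.2.1 hab.le
  have h2 := Bl_lt hK ha3 hb3
  by_contra h
  push Not at h
  have h3 : (Ioc a.1 (a.1 + B)).filter Nat.Prime ⊆ (Ioc a.1 b.1).filter Nat.Prime := by
    intro q hq
    rw [mem_filter, mem_Ioc] at hq ⊢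
    exact ⟨⟨hq.1.1, by omega⟩, hq.2⟩
  have h4 := card_le_card h3
  rw [mem_Iso] at ha2
  push Not at ha2
  have h5 := ha2 ⟨by omega, by omega⟩ ha1.2.1
  omega

theorem coll_lt {x z K K2 B j : ℕ} (hK : 1 ≤ K) :
    ((GP x z K K2 B j ×ˢ GP x z K K2 B j).filter
      (fun ab => idx ab.1.1 + ab.1.2 = idx ab.2.1 + ab.2.2 ∧ ab.1.1 < ab.2.1)).card ≤
    ∑ t ∈ Bl K K2 j ×ˢ Bl K K2 j, ∑ d ∈ Icc 1 B,
      (PC x z (Nat.centralBinom t.1) (Nat.centralBinom t.2) d).card := by
  rw [← sum_product (s := Bl K K2 j ×ˢ Bl K K2 j) (t := Icc 1 B)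
    (f := fun u => (PC x z (Nat.centralBinom u.1.1) (Nat.centralBinom u.1.2) u.2).card)]
  rw [← card_sigma]
  refine card_le_card_of_injOn
    (fun ab => ⟨((ab.1.2, ab.2.2), ab.2.1 - ab.1.1), ab.1.1⟩) ?_ ?_
  · intro ab hab
    rw [mem_coe, mem_filter, mem_product] at hab
    obtain ⟨⟨ha, hb⟩, he, hlt⟩ := hab
    have h1 := near hK ha hb hlt he
    rw [mem_GP] at ha hb
    rw [mem_coe, mem_sigma, mem_product, mem_product, mem_Icc]
    refine ⟨⟨⟨ha.2.2, hb.2.2⟩, by dsimp only; omega, by dsimp only; omega⟩, ?_⟩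
    dsimp only
    unfold PC
    have e : ab.1.1 + (ab.2.1 - ab.1.1) = ab.2.1 := by omega
    rw [mem_filter, e]
    have hb1 := hb.1
    unfold Gk at hb1
    rw [mem_G] at hb1
    exact ⟨ha.1, hb1.2.1, hb1.2.2⟩
  · intro ab hab cd hcd h
    rw [mem_coe, mem_filter, mem_product] at hab hcd
    obtain ⟨⟨a1, a2⟩, ⟨b1, b2⟩⟩ := ab
    obtain ⟨⟨c1, c2⟩, ⟨d1, d2⟩⟩ := cd
    simp only [Sigma.mk.injEq, Prod.mk.injEq, heq_eq_eq] at h
    obtain ⟨⟨⟨h1, h2⟩, h3⟩, h4⟩ := h
    have h5 := hab.2.2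
    have h6 := hcd.2.2
    dsimp only at h5 h6
    subst h1 h2 h4
    have : b1 = d1 := by omega
    rw [this]

theorem coll {x z K K2 B j : ℕ} (hK : 1 ≤ K) :
    ((GP x z K K2 B j ×ˢ GP x z K K2 B j).filter
      (fun ab => idx ab.1.1 + ab.1.2 = idx ab.2.1 + ab.2.2)).card ≤
    (GP x z K K2 B j).card + 2 * ∑ t ∈ Bl K K2 j ×ˢ Bl K K2 j, ∑ d ∈ Icc 1 B,
      (PC x z (Nat.centralBinom t.1) (Nat.centralBinom t.2) d).card := by
  set F := GP x z K K2 B j with hF
  have h1 := coll_lt (x := x) (z := z) (K := K) (K2 := K2) (B := B) (j := j) hK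
  rw [← hF] at h1
  set Q := (F ×ˢ F).filter (fun ab => idx ab.1.1 + ab.1.2 = idx ab.2.1 + ab.2.2) with hQ
  set Q1 := (F ×ˢ F).filter
      (fun ab => idx ab.1.1 + ab.1.2 = idx ab.2.1 + ab.2.2 ∧ ab.1.1 < ab.2.1) with hQ1
  have h2 : Q ⊆ F.image (fun a => (a, a)) ∪ (Q1 ∪ Q1.image Prod.swap) := by
    intro ab hab
    rw [hQ, mem_filter, mem_product] at hab
    rw [mem_union, mem_union, mem_image, mem_image]
    rcases lt_trichotomy ab.1.1 ab.2.1 with h | h | h
    · right; left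
      rw [hQ1, mem_filter, mem_product]
      exact ⟨hab.1, hab.2, h⟩
    · left
      refine ⟨ab.1, hab.1.1, ?_⟩
      have e : ab.1 = ab.2 := by
        refine Prod.ext h ?_
        have := hab.2
        rw [h] at this
        omega
      exact Prod.ext rfl e
    · right; right
      refine ⟨(ab.2, ab.1), ?_, rfl⟩
      rw [hQ1, mem_filter, mem_product]
      exact ⟨⟨hab.1.2, hab.1.1⟩, hab.2.symm, h⟩
  have h3 := card_le_card h2
  have h4 := card_union_le (F.image (fun a => (a, a))) (Q1 ∪ Q1.image Prod.swap)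
  have h5 := card_union_le Q1 (Q1.image Prod.swap)
  have h6 : (F.image (fun a => (a, a))).card ≤ F.card := card_image_le
  have h7 : (Q1.image Prod.swap).card ≤ Q1.card := card_image_le
  omega

/-- the number of the `k` for the prime `p` -/
noncomputable def av (x z K2 p : ℕ) : ℕ := ((Icc 1 K2).filter (fun k => p ∈ Gk x z k)).card

theorem Gk_sub {x z k : ℕ} : Gk x z k ⊆ (Ioc (2 * x) (32 * x)).filter Nat.Prime := by
  intro p hp
  unfold Gk at hp
  rw [mem_G] at hp
  rw [mem_filter, mem_Ioc]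
  exact ⟨hp.1, hp.2.1⟩

theorem sum_av {x z K2 : ℕ} :
    ∑ p ∈ (Ioc (2 * x) (32 * x)).filter Nat.Prime, av x z K2 p = ∑ k ∈ Icc 1 K2, (Gk x z k).card := by
  unfold av
  simp only [card_filter]
  rw [sum_comm]
  refine sum_congr rfl fun k _ => ?_
  rw [← card_filter]
  congr 1
  rw [filter_mem_eq_inter]
  exact inter_eq_right.2 Gk_sub

theorem sum_av_sq {x z K2 : ℕ} :
    ∑ p ∈ (Ioc (2 * x) (32 * x)).filter Nat.Prime, av x z K2 p ^ 2
      = ∑ k ∈ Icc 1 K2, ∑ k' ∈ Icc 1 K2, (Gk x z k ∩ Gk x z k').card := by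
  have h1 : ∀ p, av x z K2 p ^ 2 = ∑ k ∈ Icc 1 K2, ∑ k' ∈ Icc 1 K2,
      if p ∈ Gk x z k ∩ Gk x z k' then 1 else 0 := by
    intro p
    unfold av
    simp only [card_filter]
    rw [pow_two, sum_mul_sum]
    refine sum_congr rfl fun k _ => sum_congr rfl fun k' _ => ?_
    by_cases h : p ∈ Gk x z k <;> by_cases h' : p ∈ Gk x z k' <;> simp [h, h']
  rw [sum_congr rfl fun p _ => h1 p, sum_comm]
  refine sum_congr rfl fun k _ => ?_
  rw [sum_comm]
  refine sum_congr rfl fun k' _ => ?_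
  rw [← card_filter]
  congr 1
  rw [filter_mem_eq_inter]
  exact inter_eq_right.2 (inter_subset_left.trans Gk_sub)

theorem sum_GP {x z K K2 B : ℕ} :
    ∑ j ∈ range (K2 / K + 1), (GP x z K K2 B j).card =
      ∑ p ∈ (Ioc (2 * x) (32 * x)).filter Nat.Prime \ Iso (32 * x) K B, av x z K2 p := by
  have h1 : ∀ j, (GP x z K K2 B j).card =
      ∑ p ∈ (Ioc (2 * x) (32 * x)).filter Nat.Prime \ Iso (32 * x) K B, ∑ k ∈ Bl K K2 j,
        if p ∈ Gk x z k then 1 else 0 := by
    intro j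
    unfold GP
    rw [card_filter, sum_product]
  rw [sum_congr rfl fun j _ => h1 j, sum_comm]
  refine sum_congr rfl fun p _ => ?_
  unfold av Bl
  rw [card_filter]
  refine sum_fiberwise_of_maps_to (fun k hk => ?_) _
  rw [mem_Icc] at hk
  rw [mem_range]
  have := Nat.div_le_div_right (c := K) (by omega : k - 1 ≤ K2)
  omega

theorem exists_block {x z K K2 B : ℕ} {M M2 : ℝ} (hM : 0 ≤ M)
    (h1 : M ≤ ∑ k ∈ Icc 1 K2, ((Gk x z k).card : ℝ))
    (h2 : ∑ k ∈ Icc 1 K2, ∑ k' ∈ Icc 1 K2, ((Gk x z k ∩ Gk x z k').card : ℝ) ≤ M2)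
    (h3 : ((Iso (32 * x) K B).card : ℝ) * M2 ≤ (M / 2) ^ 2) :
    ∃ j, M / 2 ≤ ((K2 / K + 1 : ℕ) : ℝ) * ((GP x z K K2 B j).card : ℝ) := by
  set PP := (Ioc (2 * x) (32 * x)).filter Nat.Prime with hPP
  have g1 : M ≤ ∑ p ∈ PP, (av x z K2 p : ℝ) := by
    refine h1.trans (le_of_eq ?_)
    have := sum_av (x := x) (z := z) (K2 := K2)
    rw [← hPP] at this
    exact_mod_cast this.symm
  have g2 : ∑ p ∈ PP, (av x z K2 p : ℝ) ^ 2 ≤ M2 := by
    refine le_trans (le_of_eq ?_) h2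
    have := sum_av_sq (x := x) (z := z) (K2 := K2)
    rw [← hPP] at this
    exact_mod_cast this
  have g3 : ∑ p ∈ PP ∩ Iso (32 * x) K B, (av x z K2 p : ℝ) ≤ M / 2 := by
    refine (le_abs_self _).trans (abs_le_of_sq_le_sq ?_ (by positivity))
    refine (sq_sum_le_card_mul_sum_sq).trans ?_
    refine le_trans ?_ h3
    refine mul_le_mul ?_ ?_ (sum_nonneg fun _ _ => by positivity) (Nat.cast_nonneg _)
    · exact_mod_cast card_le_card inter_subset_right
    · refine le_trans ?_ g2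
      exact sum_le_sum_of_subset_of_nonneg inter_subset_left fun _ _ _ => by positivity
  have g4 : ∑ p ∈ PP, (av x z K2 p : ℝ) = ∑ p ∈ PP ∩ Iso (32 * x) K B, (av x z K2 p : ℝ) +
      ∑ p ∈ PP \ Iso (32 * x) K B, (av x z K2 p : ℝ) := by
    rw [← sum_inter_add_sum_sdiff PP (Iso (32 * x) K B)]
  have g5 : M / 2 ≤ ∑ j ∈ range (K2 / K + 1), ((GP x z K K2 B j).card : ℝ) := by
    have := sum_GP (x := x) (z := z) (K := K) (K2 := K2) (B := B)
    rw [← hPP] at this
    have e : ∑ j ∈ range (K2 / K + 1), ((GP x z K K2 B j).card : ℝ)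
        = ∑ p ∈ PP \ Iso (32 * x) K B, (av x z K2 p : ℝ) := by exact_mod_cast this
    rw [e]
    linarith
  by_contra h
  push Not at h
  have g6 : ∀ j ∈ range (K2 / K + 1), ((GP x z K K2 B j).card : ℝ) < M / 2 / ((K2 / K + 1 : ℕ) : ℝ) := by
    intro j _
    rw [lt_div_iff₀ (by positivity)]
    have := h j
    linarith
  have g7 := sum_lt_sum_of_nonempty (by simp) g6
  rw [sum_const, card_range, nsmul_eq_mul, mul_div_cancel₀] at g7
  · linarith
  · positivity

end Pool.Agent.Helper10.CB
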