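import Pool.Agent.Helper10.CB.MM
import Pool.Agent.Helper90.Tot.BT

/-!
# Many sums of indices: the count in terms of x
-/

set_option autoImplicit false

open Finset Filter Topology

open scoped Classical

namespace Pool.Agent.Helper10.CB

theorem pow_log_le (n : ℕ) (C : ℝ) : ∀ᶠ x : ℝ in atTop, C * Real.log x ^ n ≤ x := by
  have h := (Real.isLittleO_pow_log_id_atTop (n := n)).def (show (0:ℝ) < 1/(|C|+1) by positivity)
  filter_upwards [h, eventually_ge_atTop 1] with x hx hx1
  have h0 : 0 ≤ Real.log x := Real.log_nonneg hx1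
  rw [Real.norm_eq_abs, abs_of_nonneg (by positivity), id, Real.norm_eq_abs,
    abs_of_nonneg (by linarith : (0 : ℝ) ≤ x)] at hx
  have h1 : (|C| + 1) * Real.log x ^ n ≤ x := by
    have h2 := mul_le_mul_of_nonneg_left hx (by positivity : 0 ≤ |C| + 1)
    have h3 : (|C| + 1) * (1 / (|C| + 1) * x) = x := by field_simp
    linarith
  have h4 : C * Real.log x ^ n ≤ (|C| + 1) * Real.log x ^ n :=
    mul_le_mul_of_nonneg_right (by linarith [le_abs_self C]) (by positivity)
  linarith

/-- what is needed of `L = log x`, `J = log L` -/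
structure Lg (A : ℝ) (E : ℕ) (x : ℕ) : Prop where
  h1 : 1 ≤ Real.log (Real.log x)
  h2 : 16 * Real.log (Real.log x) ^ 2 ≤ Real.log x
  h3 : 2916 * Real.log (Real.log x) ^ 7 ≤ Real.log x
  h4 : 4 * A ≤ Real.log x
  h5 : Real.log x ^ 3 ≤ x
  h6 : (2 * Real.log x + 2) ^ E < x
  h7 : 4 * A * Real.log x ^ 2 ≤ x
  h8 : 24 * Real.log (Real.log x) ≤ Real.log x

theorem lg (A : ℝ) (E : ℕ) : ∃ x0 : ℕ, ∀ x : ℕ, x0 ≤ x → Lg A E x := by
  have ht : Tendsto (fun x : ℕ => (x : ℝ)) atTop atTop := tendsto_natCast_atTop_atTop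
  have hl : Tendsto (fun x : ℕ => Real.log x) atTop atTop := Real.tendsto_log_atTop.comp ht
  have hll : Tendsto (fun x : ℕ => Real.log (Real.log x)) atTop atTop :=
    Real.tendsto_log_atTop.comp hl
  have e1 := hll.eventually_ge_atTop 1
  have e2 := hl.eventually (pow_log_le 2 16)
  have e3 := hl.eventually (pow_log_le 7 2916)
  have e4 := hl.eventually_ge_atTop (4 * A)
  have e5 := ht.eventually (pow_log_le 3 1)
  have e6 := ht.eventually (pow_log_le E (4 ^ E + 1))
  have e7 := ht.eventually (pow_log_le 2 (4 * A))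
  have e8 := hl.eventually (pow_log_le 1 24)
  have e9 := hl.eventually_ge_atTop 1
  obtain ⟨x0, h⟩ := eventually_atTop.1 (e1.and (e2.and (e3.and (e4.and (e5.and (e6.and
    (e7.and (e8.and e9))))))))
  refine ⟨x0, fun x hx => ?_⟩
  obtain ⟨h1, h2, h3, h4, h5, h6, h7, h8, h9⟩ := h x hx
  refine ⟨h1, h2, h3, h4, by linarith, ?_, h7, by linarith⟩
  have h10 : (2 * Real.log x + 2) ^ E ≤ (4 * Real.log x) ^ E :=
    pow_le_pow_left₀ (by linarith) (by linarith) E
  rw [mul_pow] at h10
  have h11 : 0 < Real.log (x : ℝ) ^ E := by positivity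
  nlinarith

/-- the parameters -/
theorem params {A : ℝ} {E x z : ℕ} (hA : 1 ≤ A) (h : Lg A E x) (hz : z ^ E ≤ x)
    (hxz : x < (z + 1) ^ E) :
    ∃ K2 K B : ℕ, XZ E x z ∧ KC x z K2 ∧ 1 ≤ K ∧ K ≤ K2 ∧
      (K2 : ℝ) ≤ Real.log x / (2 * Real.log (Real.log x)) ∧
      Real.log x / 8 ≤ K2 * Real.log K2 ∧ K2 * Real.log K2 ≤ Real.log x / 2 ∧
      Real.log K2 ≤ Real.log (Real.log x) ∧
      (K : ℝ) ≤ Real.sqrt (Real.log x / Real.log (Real.log x)) ∧
      Real.sqrt (Real.log x / Real.log (Real.log x)) / 2 ≤ K ∧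
      A * K * Real.log x ≤ B ∧ (B : ℝ) ≤ 2 * A * K * Real.log x ∧
      3 ≤ B ∧ B ≤ x ∧ Real.log x + 1 ≤ B ∧ Real.log x * Real.log B ^ 3 ≤ B := by
  obtain ⟨h1, h2, h3, h4, h5, h6, h7, h8⟩ := h
  set L := Real.log (x : ℝ) with hL
  set J := Real.log L with hJ
  have hL24 : 24 ≤ L := by linarith
  have hL0 : 0 < L := by linarith
  have hJ0 : 0 < J := by linarith
  have hx0 : (0 : ℝ) < x := by
    rcases Nat.eq_zero_or_pos x with h | h
    · rw [h] at hL
      simp at hL
      linarith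
    · exact_mod_cast h
  -- z is large
  have hz1 : 2 * L + 2 < (z : ℝ) + 1 := by
    by_contra hc
    push Not at hc
    have g1 : ((z : ℝ) + 1) ^ E ≤ (2 * L + 2) ^ E := pow_le_pow_left₀ (by positivity) hc E
    have g2 : (x : ℝ) < ((z : ℝ) + 1) ^ E := by exact_mod_cast hxz
    linarith
  have hz3 : 3 ≤ z := by
    have : (3 : ℝ) ≤ z := by linarith
    exact_mod_cast this
  have hXZ : XZ E x z := ⟨hz, hxz, hz3⟩
  -- K2
  set Q := L / (2 * J) with hQ
  have hQ12 : 12 ≤ Q := by
    rw [hQ, le_div_iff₀ (by positivity)]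
    linarith
  have hQL : Q * (2 * J) = L := by
    rw [hQ]
    field_simp
  set K2 := ⌊Q⌋₊ with hK2
  have hK2le : (K2 : ℝ) ≤ Q := Nat.floor_le (by linarith)
  have hK2ge : Q / 2 ≤ K2 := by
    have := Nat.lt_floor_add_one Q
    rw [← hK2] at this
    linarith
  have hK26 : (6 : ℝ) ≤ K2 := by linarith
  have hK2n : 6 ≤ K2 := by exact_mod_cast hK26
  have hlogK2 : Real.log K2 ≤ J := by
    refine Real.log_le_log (by linarith) (hK2le.trans ?_)
    rw [hQ]
    exact div_le_self hL0.le (by linarith)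
  have hlogK2' : J / 2 ≤ Real.log K2 := by
    have g1 : Real.sqrt L ≤ K2 := by
      refine le_trans ?_ hK2ge
      rw [Real.sqrt_le_left (by positivity)]
      have g2 : (Q / 2) ^ 2 = L * (L / (16 * J ^ 2)) := by
        rw [hQ]
        field_simp
        ring
      rw [g2]
      have g3 : 1 ≤ L / (16 * J ^ 2) := by
        rw [le_div_iff₀ (by positivity)]
        linarith
      nlinarith
    have g2 := Real.log_le_log (Real.sqrt_pos.2 hL0) g1
    rw [Real.log_sqrt hL0.le] at g2
    exact g2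
  have hKC : KC x z K2 := by
    refine ⟨by omega, ?_, ?_⟩
    · have g1 : 2 * (K2 : ℝ) ≤ z := by
        have : Q ≤ L := by
          rw [hQ]
          exact div_le_self hL0.le (by linarith)
        linarith
      exact_mod_cast g1
    · have g1 : ((4 : ℝ) ^ K2) ≤ x := by
        rw [← Real.log_le_log_iff (by positivity) hx0, Real.log_pow]
        have g2 : Real.log 4 ≤ 2 := by
          have g3 : Real.log 4 = 2 * Real.log 2 := by
            rw [show (4 : ℝ) = 2 ^ 2 by norm_num, Real.log_pow]; norm_num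
          have := Real.log_two_lt_d9
          linarith
        have g4 : (K2 : ℝ) * 2 ≤ L := by
          rw [← hQL]
          nlinarith
        calc (K2 : ℝ) * Real.log 4 ≤ K2 * 2 := mul_le_mul_of_nonneg_left g2 (by positivity)
          _ ≤ L := g4
      exact_mod_cast g1
  -- K
  set s := Real.sqrt (L / J) with hs
  have hs2 : s ^ 2 = L / J := Real.sq_sqrt (by positivity)
  have hs2J : s ^ 2 * J = L := by
    rw [hs2]
    field_simp
  have hs0 : 0 ≤ s := Real.sqrt_nonneg _
  have hs4 : 4 ≤ s := by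
    rw [hs]
    apply Real.le_sqrt_of_sq_le
    rw [le_div_iff₀ hJ0]
    linarith
  set K := ⌊s⌋₊ with hK
  have hKle : (K : ℝ) ≤ s := Nat.floor_le hs0
  have hKge : s / 2 ≤ K := by
    have := Nat.lt_floor_add_one s
    rw [← hK] at this
    linarith
  have hK2' : (2 : ℝ) ≤ K := by linarith
  have hKn : 2 ≤ K := by exact_mod_cast hK2'
  have hKK2 : K ≤ K2 := by
    have g1 : (K : ℝ) ≤ K2 := by
      refine hKle.trans (le_trans ?_ hK2ge)
      have g2 : Q / 2 = s ^ 2 / 4 := by
        rw [hs2, hQ]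
        field_simp
        norm_num
      rw [g2]
      nlinarith
    exact_mod_cast g1
  -- B
  set B := ⌈A * K * L⌉₊ with hB
  have hAKL : 1 ≤ A * K * L := by
    have g1 : 1 ≤ A * K := one_le_mul_of_one_le_of_one_le hA (by linarith)
    exact one_le_mul_of_one_le_of_one_le g1 (by linarith)
  have hBge : A * K * L ≤ B := Nat.le_ceil _
  have hBle : (B : ℝ) ≤ 2 * A * K * L := by
    have := Nat.ceil_lt_add_one (by linarith : 0 ≤ A * K * L)
    rw [← hB] at this
    linarith
  have hKL : (K : ℝ) * L ≤ A * K * L := by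
    have g1 : 0 ≤ (K : ℝ) * L := by positivity
    have g2 : 1 * ((K : ℝ) * L) ≤ A * (K * L) := mul_le_mul_of_nonneg_right hA g1
    have g3 : A * K * L = A * (K * L) := by ring
    linarith
  have hB1 : L + 1 ≤ (B : ℝ) := by
    have : 2 * L ≤ K * L := mul_le_mul_of_nonneg_right hK2' hL0.le
    linarith
  have hKL2 : (K : ℝ) ≤ L := by
    have g1 : (K : ℝ) ≤ K2 := by exact_mod_cast hKK2
    have : Q ≤ L := by
      rw [hQ]
      exact div_le_self hL0.le (by linarith)
    linarith
  have hBL2 : (B : ℝ) ≤ 2 * A * L ^ 2 := by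
    have g1 : A * K * L ≤ A * L * L :=
      mul_le_mul_of_nonneg_right (mul_le_mul_of_nonneg_left hKL2 (by linarith)) hL0.le
    have g2 : 2 * A * K * L = 2 * (A * K * L) := by ring
    have g3 : 2 * A * L ^ 2 = 2 * (A * L * L) := by ring
    linarith
  have hBL3 : (B : ℝ) ≤ L ^ 3 := by
    have g1 : 2 * A * L ^ 2 ≤ L * L ^ 2 := by
      refine mul_le_mul_of_nonneg_right ?_ (by positivity)
      linarith
    have g2 : L ^ 3 = L * L ^ 2 := by ring
    linarith
  have hB0 : (0 : ℝ) < B := by linarith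
  have hlogB : Real.log B ≤ 3 * J := by
    have g1 := Real.log_le_log hB0 hBL3
    rw [Real.log_pow] at g1
    exact_mod_cast g1
  have hlogB0 : 0 ≤ Real.log B := Real.log_nonneg (by linarith)
  refine ⟨K2, K, B, hXZ, hKC, by omega, hKK2, hK2le, ?_, ?_, hlogK2, hKle, hKge, hBge, hBle, ?_,
    ?_, hB1, ?_⟩
  · have g1 : L / 8 = Q / 2 * (J / 2) := by
      rw [hQ]
      field_simp
      norm_num
    rw [g1]
    exact mul_le_mul hK2ge hlogK2' (by positivity) (by positivity)
  · have g1 : L / 2 = Q * J := by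
      rw [hQ]
      field_simp
    rw [g1]
    exact mul_le_mul hK2le hlogK2 (Real.log_nonneg (by linarith)) (by linarith)
  · have : (3 : ℝ) ≤ B := by linarith
    exact_mod_cast this
  · have : (B : ℝ) ≤ x := hBL3.trans h5
    exact_mod_cast this
  · have g1 : Real.log B ^ 3 ≤ (3 * J) ^ 3 := pow_le_pow_left₀ hlogB0 hlogB 3
    have g2 : (3 * J) ^ 3 ≤ s / 2 := by
      have g3 : (2 * (3 * J) ^ 3) ^ 2 ≤ s ^ 2 := by
        rw [hs2, le_div_iff₀ hJ0]
        calc (2 * (3 * J) ^ 3) ^ 2 * J = 2916 * J ^ 7 := by ring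
          _ ≤ L := h3
      have g4 := abs_le_of_sq_le_sq g3 hs0
      have g5 := le_abs_self (2 * (3 * J) ^ 3)
      linarith
    calc L * Real.log B ^ 3 ≤ L * (s / 2) := mul_le_mul_of_nonneg_left (g1.trans g2) hL0.le
      _ ≤ L * K := mul_le_mul_of_nonneg_left hKge hL0.le
      _ = K * L := by ring
      _ ≤ B := hKL.trans hBge

end Pool.Agent.Helper10.CB
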