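import Pool.Agent.Helper10.CB.CF

/-!
# The moments
-/

set_option autoImplicit false

open Finset Filter Topology

open scoped Classical

namespace Pool.Agent.Helper10.CB

open Pool.Agent.Helper90.Twin (Ps mem_Ps Sz)

/-- the set for the central binomial coefficient -/
noncomputable def Gk (x z k : ℕ) : Finset ℕ := G x z (Nat.centralBinom k)

theorem sum_exp_T : ∃ C : ℝ, 1 ≤ C ∧ ∀ K : ℕ, 3 ≤ K →
    ∑ k ∈ Icc 1 K, Real.exp (T (2 * K) k) ≤ C * K := by
  obtain ⟨C, hC, h⟩ := tt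
  refine ⟨2 * C + 1, by linarith, fun K hK => ?_⟩
  have h1 := h (2 * K) (by omega)
  have h2 : ∑ k ∈ Icc 1 K, Real.exp (T (2 * K) k) ≤ ∑ k ∈ range (2 * K), Real.exp (T (2 * K) k) := by
    refine sum_le_sum_of_subset_of_nonneg ?_ fun _ _ _ => (Real.exp_pos _).le
    intro k hk
    rw [mem_Icc] at hk
    rw [mem_range]
    omega
  push_cast at h1
  have hK0 : (0 : ℝ) ≤ K := Nat.cast_nonneg K
  nlinarith

theorem sum_exp_neg_T : ∃ c : ℝ, 0 < c ∧ ∀ K : ℕ, 3 ≤ K →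
    c * K ≤ ∑ k ∈ Icc 1 K, Real.exp (-(T (2 * K) k)) := by
  obtain ⟨C, hC, h⟩ := sum_exp_T
  refine ⟨1 / C, by positivity, fun K hK => ?_⟩
  have h1 := h K hK
  have h2 : ∀ k ∈ Icc 1 K, 2 * (1 / C) - (1 / C) ^ 2 * Real.exp (T (2 * K) k)
      ≤ Real.exp (-(T (2 * K) k)) := by
    intro k _
    have e : Real.exp (T (2 * K) k) * Real.exp (-(T (2 * K) k)) = 1 := by
      rw [← Real.exp_add, add_neg_cancel, Real.exp_zero]
    set a := Real.exp (T (2 * K) k) with ha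
    set b := Real.exp (-(T (2 * K) k)) with hb
    have ha0 : 0 < a := Real.exp_pos _
    have hb0 : 0 < b := Real.exp_pos _
    have h3 : 0 ≤ ((1 / C) * a - 1) ^ 2 := sq_nonneg _
    have h4 : 0 ≤ b * ((1 / C) * a - 1) ^ 2 := mul_nonneg hb0.le h3
    have h5 : b * ((1 / C) * a - 1) ^ 2 = (1 / C) ^ 2 * a * (a * b) - 2 * (1 / C) * (a * b) + b := by
      ring
    rw [h5, e] at h4
    linarith
  have h3 := sum_le_sum h2
  rw [sum_sub_distrib, sum_const, ← mul_sum, Nat.card_Icc, nsmul_eq_mul] at h3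
  refine le_trans ?_ h3
  have h4 : (1 / C) ^ 2 * ∑ k ∈ Icc 1 K, Real.exp (T (2 * K) k) ≤ (1 / C) ^ 2 * (C * K) :=
    mul_le_mul_of_nonneg_left h1 (by positivity)
  have h5 : (1 / C) ^ 2 * (C * (K : ℝ)) = 1 / C * K := by
    field_simp
  have h6 : ((K + 1 - 1 : ℕ) : ℝ) = K := by rw [Nat.add_sub_cancel]
  rw [h6]
  rw [h5] at h4
  linarith

/-- the conditions for `K` -/
structure KC (x z K : ℕ) : Prop where
  three : 3 ≤ K
  two : 2 * K ≤ z
  four : 4 ^ K ≤ x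

theorem KC.cb_le {x z K k : ℕ} (h : KC x z K) (hk : k ≤ K) : Nat.centralBinom k ≤ x :=
  (CB.cb_le k).trans ((Nat.pow_le_pow_right (by norm_num) hk).trans h.four)

theorem moments : ∃ E0 : ℕ, ∀ E : ℕ, E0 ≤ E → ∃ (c C : ℝ) (x0 : ℕ), 0 < c ∧ 0 < C ∧
    ∀ x z K : ℕ, x0 ≤ x → XZ E x z → KC x z K →
    c * (x / Real.log x ^ 2) * (K * Real.log K) ≤ ∑ k ∈ Icc 1 K, ((Gk x z k).card : ℝ) ∧
    ∑ k ∈ Icc 1 K, ((Gk x z k).card : ℝ) ≤ C * (x / Real.log x ^ 2) * (K * Real.log K) ∧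
    (∑ k ∈ Icc 1 K, ∑ k' ∈ (Icc 1 K).filter (fun k' => k' ≠ k), ((Gk x z k ∩ Gk x z k').card : ℝ)
      ≤ C * (x / Real.log x ^ 3) * (K * Real.log K) ^ 2) ∧
    (∀ k k' B : ℕ, 1 ≤ k → k ≤ K → 1 ≤ k' → k' ≤ K →
      3 ≤ B → B ≤ x → Real.log x + 1 ≤ B → Real.log x * Real.log B ^ 3 ≤ B →
      ∑ d ∈ Icc 1 B, ((PC x z (Nat.centralBinom k) (Nat.centralBinom k') d).card : ℝ)
        ≤ C * (x / Real.log x ^ 4) * B * Real.log K ^ 2) := by
  obtain ⟨E1, hfm⟩ := fm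
  obtain ⟨E2, hu2⟩ := u2
  obtain ⟨E3, hu3⟩ := u3
  obtain ⟨E4, hu4⟩ := u4
  obtain ⟨Cu, hCu, hup⟩ := up_k
  obtain ⟨cl, hcl, hlow⟩ := low_k
  obtain ⟨Ct, hCt, hT⟩ := sum_exp_T
  obtain ⟨ct, hct, hT'⟩ := sum_exp_neg_T
  obtain ⟨Cd, hCd, hd⟩ := dsum
  refine ⟨E1 + E2 + E3 + E4 + 1, fun E hE => ?_⟩
  obtain ⟨c1, x0, hc1, hfm⟩ := hfm E (by omega)
  obtain ⟨C2, hC2, hu2⟩ := hu2 E (by omega)
  obtain ⟨C3, hC3, hu3⟩ := hu3 E (by omega)
  obtain ⟨C4, hC4, hu4⟩ := hu4 E (by omega)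
  have hE1 : 1 ≤ E := by omega
  refine ⟨c1 * cl * ct, C2 * Cu + C3 * Cu ^ 2 * Real.exp 2 * Ct + C4 * Cu ^ 2 * Cd, x0,
    by positivity, by positivity, fun x z K hx hxz hKC => ?_⟩
  have hK3 := hKC.three
  have hlK := log_ge_one hK3
  obtain ⟨hl1, hl2, hl3⟩ := hxz.logx hE1
  have hx0 : (0 : ℝ) ≤ x := Nat.cast_nonneg x
  set L := Real.log x with hL
  have hL0 : 0 < L := by linarith
  have hKr : (0 : ℝ) ≤ K := Nat.cast_nonneg K
  refine ⟨?_, ?_, ?_, ?_⟩
  · have h1 : ∀ k ∈ Icc 1 K, c1 * (x / L ^ 2) * (cl * Real.log K * Real.exp (-(T (2 * K) k)))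
        ≤ ((Gk x z k).card : ℝ) := by
      intro k hk
      rw [mem_Icc] at hk
      refine le_trans ?_ (hfm x hx z (Nat.centralBinom k) hxz.le hxz.lt (cb_ge hk.1)
        (hKC.cb_le hk.2) (cb_even hk.1))
      exact mul_le_mul_of_nonneg_left (hlow K z k hK3 hKC.two) (by positivity)
    refine le_trans ?_ (sum_le_sum h1)
    have h2 := hT' K hK3
    have h3 : ∑ k ∈ Icc 1 K, c1 * (x / L ^ 2) * (cl * Real.log K * Real.exp (-(T (2 * K) k)))
        = c1 * (x / L ^ 2) * (cl * Real.log K) * ∑ k ∈ Icc 1 K, Real.exp (-(T (2 * K) k)) := by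
      rw [mul_sum]
      exact sum_congr rfl fun _ _ => by ring
    rw [h3]
    calc c1 * cl * ct * (x / L ^ 2) * (K * Real.log K)
        = c1 * (x / L ^ 2) * (cl * Real.log K) * (ct * K) := by ring
      _ ≤ _ := mul_le_mul_of_nonneg_left h2 (by positivity)
  · have h1 : ∀ k ∈ Icc 1 K, ((Gk x z k).card : ℝ) ≤ C2 * (x / L ^ 2) * (Cu * Real.log K) := by
      intro k hk
      rw [mem_Icc] at hk
      refine (hu2 x z _ hxz).trans ?_
      exact mul_le_mul_of_nonneg_left (hup K z k hK3 hk.1 hk.2) (by positivity)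
    refine (sum_le_sum h1).trans ?_
    rw [sum_const, Nat.card_Icc, Nat.add_sub_cancel, nsmul_eq_mul]
    have h2 : 0 ≤ (x : ℝ) / L ^ 2 * (K * Real.log K) := by positivity
    have h3 : (K : ℝ) * (C2 * (x / L ^ 2) * (Cu * Real.log K))
        = C2 * Cu * (x / L ^ 2 * (K * Real.log K)) := by ring
    have h6 : ∀ A : ℝ, A * (x / L ^ 2) * (K * Real.log K)
        = A * (x / L ^ 2 * (K * Real.log K)) := fun A => by ring
    rw [h3, h6]
    refine mul_le_mul_of_nonneg_right ?_ h2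
    have h4 : 0 ≤ C3 * Cu ^ 2 * Real.exp 2 * Ct := by positivity
    have h5 : 0 ≤ C4 * Cu ^ 2 * Cd := by positivity
    linarith
  · have h1 : ∀ k ∈ Icc 1 K, ∑ k' ∈ (Icc 1 K).filter (fun k' => k' ≠ k),
        ((Gk x z k ∩ Gk x z k').card : ℝ)
        ≤ K * (C3 * (x / L ^ 3) * ((Cu * Real.log K) ^ 2 * (Real.exp 2 * Real.exp (T (2 * K) k)))) := by
      intro k hk
      rw [mem_Icc] at hk
      have h2 : ∀ k' ∈ (Icc 1 K).filter (fun k' => k' ≠ k), ((Gk x z k ∩ Gk x z k').card : ℝ)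
          ≤ C3 * (x / L ^ 3) * ((Cu * Real.log K) ^ 2 * (Real.exp 2 * Real.exp (T (2 * K) k))) := by
        intro k' hk'
        rw [mem_filter, mem_Icc] at hk'
        refine (hu3 x z _ _ hxz).trans ?_
        refine mul_le_mul_of_nonneg_left ?_ (by positivity)
        rw [Real.exp_add, Real.exp_add]
        have g1 := hup K z k hK3 hk.1 hk.2
        have g2 := hup K z k' hK3 hk'.1.1 hk'.1.2
        have g3 := Real.exp_le_exp.2 (third (z := z) hK3 hk.2 hk'.1.2 (Ne.symm hk'.2))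
        rw [add_comm (T (2 * K) k) 2, Real.exp_add] at g3
        have g4 : (Cu * Real.log K) ^ 2 = (Cu * Real.log K) * (Cu * Real.log K) := by ring
        rw [g4]
        exact mul_le_mul (mul_le_mul g1 g2 (Real.exp_pos _).le (by positivity)) g3
          (Real.exp_pos _).le (by positivity)
      refine (sum_le_sum h2).trans ?_
      rw [sum_const, nsmul_eq_mul]
      refine mul_le_mul_of_nonneg_right ?_ (by positivity)
      have h3 : ((Icc 1 K).filter (fun k' => k' ≠ k)).card ≤ K := by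
        refine (card_filter_le _ _).trans ?_
        rw [Nat.card_Icc, Nat.add_sub_cancel]
      exact_mod_cast h3
    refine (sum_le_sum h1).trans ?_
    have h2 : ∑ k ∈ Icc 1 K, (K : ℝ) * (C3 * (x / L ^ 3) *
        ((Cu * Real.log K) ^ 2 * (Real.exp 2 * Real.exp (T (2 * K) k))))
        = K * (C3 * (x / L ^ 3) * ((Cu * Real.log K) ^ 2 * Real.exp 2)) *
          ∑ k ∈ Icc 1 K, Real.exp (T (2 * K) k) := by
      rw [mul_sum]
      exact sum_congr rfl fun _ _ => by ring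
    rw [h2]
    have h30 : 0 ≤ (K : ℝ) * (C3 * (x / L ^ 3) * ((Cu * Real.log K) ^ 2 * Real.exp 2)) := by
      positivity
    have h3 := mul_le_mul_of_nonneg_left (hT K hK3) h30
    refine h3.trans ?_
    have h4 : (K : ℝ) * (C3 * (x / L ^ 3) * ((Cu * Real.log K) ^ 2 * Real.exp 2)) * (Ct * K)
        = C3 * Cu ^ 2 * Real.exp 2 * Ct * (x / L ^ 3 * (K * Real.log K) ^ 2) := by ring
    have h6 : ∀ A : ℝ, A * (x / L ^ 3) * (K * Real.log K) ^ 2
        = A * (x / L ^ 3 * (K * Real.log K) ^ 2) := fun A => by ring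
    rw [h4, h6]
    refine mul_le_mul_of_nonneg_right ?_ (by positivity)
    have h4 : 0 ≤ C2 * Cu := by positivity
    have h5 : 0 ≤ C4 * Cu ^ 2 * Cd := by positivity
    linarith
  · intro k k' B hk1 hk2 hk'1 hk'2 hB3 hBx hB1 hB2
    have h1 : ∀ d ∈ Icc 1 B, ((PC x z (Nat.centralBinom k) (Nat.centralBinom k') d).card : ℝ)
        ≤ C4 * (x / L ^ 4) * (Cu * Real.log K) ^ 2 *
          Real.exp (Sd z d + Sd z (d + Nat.centralBinom k') + Sd z (dd d (Nat.centralBinom k)) +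
            Sd z (dd (d + Nat.centralBinom k') (Nat.centralBinom k))) := by
      intro d _
      refine (hu4 x z _ _ d hxz).trans ?_
      rw [mul_assoc (C4 * (x / L ^ 4))]
      refine mul_le_mul_of_nonneg_left ?_ (by positivity)
      refine mul_le_mul_of_nonneg_right ?_ (Real.exp_pos _).le
      rw [Real.exp_add, pow_two]
      exact mul_le_mul (hup K z k hK3 hk1 hk2) (hup K z k' hK3 hk'1 hk'2) (Real.exp_pos _).le
        (by positivity)
    refine (sum_le_sum h1).trans ?_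
    rw [← mul_sum]
    have h2 := hd x z B (Nat.centralBinom k) (Nat.centralBinom k') hxz.two (hxz.zx hE1)
      (cb_ge hk1) (hKC.cb_le hk2) (cb_ge hk'1) (hKC.cb_le hk'2) hB3 hBx hB1 hB2
    refine (mul_le_mul_of_nonneg_left h2 (by positivity)).trans ?_
    have h4 : C4 * (x / L ^ 4) * (Cu * Real.log K) ^ 2 * (Cd * B)
        = C4 * Cu ^ 2 * Cd * (x / L ^ 4 * B * Real.log K ^ 2) := by ring
    have h6 : ∀ A : ℝ, A * (x / L ^ 4) * B * Real.log K ^ 2
        = A * (x / L ^ 4 * B * Real.log K ^ 2) := fun A => by ring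
    rw [h4, h6]
    refine mul_le_mul_of_nonneg_right ?_ (by positivity)
    have h4 : 0 ≤ C2 * Cu := by positivity
    have h5 : 0 ≤ C3 * Cu ^ 2 * Real.exp 2 * Ct := by positivity
    linarith

end Pool.Agent.Helper10.CB
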