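import Pool.Agent.Helper10.CB.MN

/-!
# Many sums of indices: the count in terms of x
-/

set_option autoImplicit false

open Finset Filter Topology

open scoped Classical

namespace Pool.Agent.Helper10.CB

theorem main_x : ∃ (E : ℕ) (c : ℝ) (x0 : ℕ), 1 ≤ E ∧ 0 < c ∧ ∀ x : ℕ, x0 ≤ x →
    ∃ (z K2 : ℕ) (F : Finset (ℕ × ℕ)), XZ E x z ∧ KC x z K2 ∧
      (K2 : ℝ) ≤ Real.log x / (2 * Real.log (Real.log x)) ∧
      (∀ a ∈ F, a.1 ∈ Gk x z a.2 ∧ 1 ≤ a.2 ∧ a.2 ≤ K2) ∧
      c * (x / Real.log x) * Real.sqrt (Real.log (Real.log x) / Real.log x) ≤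
        ((F.image (fun a => idx a.1 + a.2)).card : ℝ) ∧
      c * (x / Real.log x) ≤ ∑ k ∈ Icc 1 K2, ((Gk x z k).card : ℝ) := by
  obtain ⟨E0, hE0⟩ := moments
  obtain ⟨c, C, x1, hc, hC, hm⟩ := hE0 (E0 + 1) (by omega)
  set E := E0 + 1 with hE
  set A := 33 * 256 * C / c ^ 2 + 1 with hA
  have hA1 : 1 ≤ A := by
    have : 0 ≤ 33 * 256 * C / c ^ 2 := by positivity
    linarith
  have hAC : 33 * C / A ≤ (c / 16) ^ 2 := by
    rw [div_le_iff₀ (by linarith)]
    have g1 : (c / 16) ^ 2 * (33 * 256 * C / c ^ 2) = 33 * C := by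
      field_simp
      norm_num
    have g2 : 0 ≤ (c / 16) ^ 2 := by positivity
    calc 33 * C = (c / 16) ^ 2 * (33 * 256 * C / c ^ 2) := g1.symm
      _ ≤ (c / 16) ^ 2 * A := mul_le_mul_of_nonneg_left (by linarith) g2
  obtain ⟨x2, hx2⟩ := lg A E
  set D1 := 1 + 64 * A * C / c with hD1
  have hD1p : 1 ≤ D1 := by
    have : 0 ≤ 64 * A * C / c := by positivity
    linarith
  refine ⟨E, min (c / 8) (c / (32 * D1)), x1 + x2, by omega, by positivity, fun x hx => ?_⟩
  obtain ⟨z, hz1, hz2⟩ := Pool.Agent.Helper90.Tot.exists_root x E (by omega)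
  have hlg := hx2 x (by omega)
  obtain ⟨K2, K, B, hXZ, hKC, hK1, hKK2, hK2le, hKl1, hKl2, hlogK2, hKs, hKs2, hB1, hB2, hB3, hB4,
    hB5, hB6⟩ := params hA1 hlg hz1 hz2
  obtain ⟨m1, m2, m3, m4⟩ := hm x z K2 (by omega) hXZ hKC
  obtain ⟨h1, h2, h3, h4, h5, h6, h7, h8⟩ := hlg
  set L := Real.log (x : ℝ) with hL
  set J := Real.log L with hJ
  have hL0 : 0 < L := by linarith
  have hJ0 : 0 < J := by linarith
  have hx0 : (0 : ℝ) < x := by
    have : 0 < L ^ 3 := by positivity
    linarith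
  have hK0 : (0 : ℝ) < K := by exact_mod_cast hK1
  have hK20 : (0 : ℝ) < K2 := by exact_mod_cast (by omega : 0 < K2)
  have hxL0 : 0 < (x : ℝ) / L := by positivity
  have hB0 : (0 : ℝ) < B := by linarith
  -- the first moment
  have hM : c / 8 * (x / L) ≤ ∑ k ∈ Icc 1 K2, ((Gk x z k).card : ℝ) := by
    refine le_trans ?_ m1
    have g1 : c / 8 * (x / L) = c * (x / L ^ 2) * (L / 8) := by
      field_simp
    rw [g1]
    exact mul_le_mul_of_nonneg_left hKl1 (by positivity)
  -- the second moment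
  have hM2 : ∑ k ∈ Icc 1 K2, ∑ k' ∈ Icc 1 K2, ((Gk x z k ∩ Gk x z k').card : ℝ) ≤ C * (x / L) := by
    have g1 : ∀ k ∈ Icc 1 K2, ∑ k' ∈ Icc 1 K2, ((Gk x z k ∩ Gk x z k').card : ℝ)
        = ((Gk x z k).card : ℝ) +
          ∑ k' ∈ (Icc 1 K2).filter (fun k' => k' ≠ k), ((Gk x z k ∩ Gk x z k').card : ℝ) := by
      intro k hk
      rw [← add_sum_erase _ _ hk, inter_self]
      congr 1
      refine sum_congr ?_ fun _ _ => rfl
      ext a
      rw [mem_erase, mem_filter]
      exact and_comm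
    rw [sum_congr rfl g1, sum_add_distrib]
    have g2 : C * (x / L ^ 2) * (K2 * Real.log K2) ≤ C * (x / L ^ 2) * (L / 2) :=
      mul_le_mul_of_nonneg_left hKl2 (by positivity)
    have g30 : 0 ≤ (K2 : ℝ) * Real.log K2 := by
      have : 0 ≤ L / 8 := by positivity
      linarith
    have g3 : C * (x / L ^ 3) * (K2 * Real.log K2) ^ 2 ≤ C * (x / L ^ 3) * (L / 2) ^ 2 :=
      mul_le_mul_of_nonneg_left (pow_le_pow_left₀ g30 hKl2 2) (by positivity)
    have g4 : C * (x / L ^ 2) * (L / 2) = C * (x / L) / 2 := by field_simp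
    have g5 : C * (x / L ^ 3) * (L / 2) ^ 2 = C * (x / L) / 4 := by
      field_simp
      norm_num
    have g6 : 0 < C * (x / L) := by positivity
    rw [g4] at g2
    rw [g5] at g3
    linarith
  -- the isolated primes
  have hI : ((Iso (32 * x) K B).card : ℝ) ≤ 33 * (x / L) / A := by
    have g1 : ((Iso (32 * x) K B).card : ℝ) ≤ (K * (32 * x / B + 1) : ℕ) := by
      exact_mod_cast card_Iso (by omega)
    have g2 : ((32 * x / B : ℕ) : ℝ) ≤ 32 * x / B := by
      have := @Nat.cast_div_le ℝ _ _ _ (32 * x) B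
      push_cast at this
      exact this
    push_cast at g1 g2
    have g3 : (K : ℝ) * (((32 * x / B : ℕ) : ℝ) + 1) ≤ K * (32 * x / B + 1) :=
      mul_le_mul_of_nonneg_left (by linarith) hK0.le
    have g4 : (K : ℝ) * (32 * x / B) ≤ 32 * (x / L) / A := by
      rw [mul_div_assoc', div_le_iff₀ hB0]
      have g5 : 32 * ((x : ℝ) / L) / A * (A * K * L) = K * (32 * x) := by
        field_simp
      rw [← g5]
      exact mul_le_mul_of_nonneg_left hB1 (by positivity)
    have g6 : (K : ℝ) ≤ x / L / A := by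
      rw [div_div, le_div_iff₀ (by positivity)]
      have g7 : (K : ℝ) ≤ L := by
        have g8 : (K : ℝ) ≤ K2 := by exact_mod_cast hKK2
        have g9 : L / (2 * J) ≤ L := div_le_self hL0.le (by linarith)
        linarith
      have g8 : (K : ℝ) * (L * A) ≤ L * (L * A) := mul_le_mul_of_nonneg_right g7 (by positivity)
      have g9 : 4 * A * L ^ 2 = 4 * (L * (L * A)) := by ring
      have g10 : 0 ≤ L * (L * A) := by positivity
      linarith
    have g7 : (K : ℝ) * (32 * x / B + 1) = K * (32 * x / B) + K := by ring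
    have g8 : 33 * ((x : ℝ) / L) / A = 32 * (x / L) / A + x / L / A := by ring
    rw [g7] at g3
    rw [g8]
    linarith
  have hIM : ((Iso (32 * x) K B).card : ℝ) * (C * (x / L)) ≤ (c / 8 * (x / L) / 2) ^ 2 := by
    calc ((Iso (32 * x) K B).card : ℝ) * (C * (x / L))
        ≤ 33 * (x / L) / A * (C * (x / L)) := mul_le_mul_of_nonneg_right hI (by positivity)
      _ = 33 * C / A * (x / L) ^ 2 := by ring
      _ ≤ (c / 16) ^ 2 * (x / L) ^ 2 := mul_le_mul_of_nonneg_right hAC (by positivity)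
      _ = _ := by ring
  obtain ⟨j, hj⟩ := exists_block (K := K) (K2 := K2) (B := B) (by positivity) hM hM2 hIM
  set g := ((GP x z K K2 B j).card : ℝ) with hg
  refine ⟨z, K2, GP x z K K2 B j, hXZ, hKC, hK2le, ?_, ?_, ?_⟩
  · intro a ha
    rw [mem_GP] at ha
    have := mem_Bl.1 ha.2.2
    exact ⟨ha.1, this.1.1, this.1.2⟩
  · -- the lower bound for the number of pairs
    have g1 : ((K2 / K + 1 : ℕ) : ℝ) ≤ 2 * K2 / K := by
      have g2 : ((K2 / K : ℕ) : ℝ) ≤ K2 / K := Nat.cast_div_le
      have g3 : 1 ≤ (K2 : ℝ) / K := by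
        rw [one_le_div hK0]
        exact_mod_cast hKK2
      have g4 : 2 * (K2 : ℝ) / K = K2 / K + K2 / K := by ring
      push_cast at g2 ⊢
      linarith
    have hg0 : 0 ≤ g := Nat.cast_nonneg _
    have g2 : c / 8 * (x / L) / 2 ≤ 2 * K2 / K * g := hj.trans (mul_le_mul_of_nonneg_right g1 hg0)
    have g3 : c / 16 * (x / L ^ 2) * (J * K) ≤ g := by
      have g4 : (2 : ℝ) * K2 / K * g ≤ L / (J * K) * g := by
        refine mul_le_mul_of_nonneg_right ?_ hg0
        have g5 : L / (J * K) = 2 * (L / (2 * J)) / K := by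
          field_simp
        rw [g5]
        exact div_le_div_of_nonneg_right (by linarith) hK0.le
      have g5 := g2.trans g4
      have g6 : c / 16 * (x / L ^ 2) * (J * K) = (c / 8 * (x / L) / 2) * (J * K / L) := by
        field_simp
        norm_num
      have g7 : L / (J * K) * g * (J * K / L) = g := by
        field_simp
      rw [g6, ← g7]
      exact mul_le_mul_of_nonneg_right g5 (by positivity)
    have hgpos : 0 < g := by
      have : 0 < c / 16 * (x / L ^ 2) * (J * K) := by positivity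
      linarith
    -- the collisions
    have g4 := cs (GP x z K K2 B j) (fun a => idx a.1 + a.2)
    have g5 := coll (x := x) (z := z) (K := K) (K2 := K2) (B := B) (j := j) hK1
    have g6 : ((∑ t ∈ Bl K K2 j ×ˢ Bl K K2 j, ∑ d ∈ Icc 1 B,
        (PC x z (Nat.centralBinom t.1) (Nat.centralBinom t.2) d).card : ℕ) : ℝ) ≤
        K ^ 2 * (C * (x / L ^ 4) * B * J ^ 2) := by
      push_cast
      have g7 : ∀ t ∈ Bl K K2 j ×ˢ Bl K K2 j, ∑ d ∈ Icc 1 B,
          ((PC x z (Nat.centralBinom t.1) (Nat.centralBinom t.2) d).card : ℝ) ≤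
          C * (x / L ^ 4) * B * J ^ 2 := by
        intro t ht
        rw [mem_product, mem_Bl, mem_Bl] at ht
        refine (m4 t.1 t.2 B ht.1.1.1 ht.1.1.2 ht.2.1.1 ht.2.1.2 hB3 hB4 hB5 hB6).trans ?_
        refine mul_le_mul_of_nonneg_left ?_ (by positivity)
        refine pow_le_pow_left₀ (Real.log_nonneg ?_) hlogK2 2
        exact_mod_cast (by omega : 1 ≤ K2)
      refine (sum_le_sum g7).trans ?_
      rw [sum_const, card_product, nsmul_eq_mul]
      refine mul_le_mul_of_nonneg_right ?_ (by positivity)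
      have g8 := card_Bl (K2 := K2) (j := j) hK1
      have g9 : (Bl K K2 j).card * (Bl K K2 j).card ≤ K ^ 2 := by
        rw [pow_two]
        exact Nat.mul_le_mul g8 g8
      exact_mod_cast g9
    have g7 : (K : ℝ) ^ 2 * (C * (x / L ^ 4) * B * J ^ 2) ≤ 32 * A * C / c * g := by
      have g8 : (K : ℝ) ^ 2 ≤ L / J := by
        have g9 := pow_le_pow_left₀ hK0.le hKs 2
        rw [Real.sq_sqrt (by positivity)] at g9
        exact g9
      calc (K : ℝ) ^ 2 * (C * (x / L ^ 4) * B * J ^ 2)
          ≤ (L / J) * (C * (x / L ^ 4) * (2 * A * K * L) * J ^ 2) := by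
            refine mul_le_mul g8 ?_ (by positivity) (by positivity)
            refine mul_le_mul_of_nonneg_right ?_ (by positivity)
            exact mul_le_mul_of_nonneg_left hB2 (by positivity)
        _ = 32 * A * C / c * (c / 16 * (x / L ^ 2) * (J * K)) := by
            field_simp
            norm_num
        _ ≤ 32 * A * C / c * g := mul_le_mul_of_nonneg_left g3 (by positivity)
    set D := ((GP x z K K2 B j ×ˢ GP x z K K2 B j).filter
      (fun ab => idx ab.1.1 + ab.1.2 = idx ab.2.1 + ab.2.2)).card with hD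
    set im := ((GP x z K K2 B j).image (fun a => idx a.1 + a.2)).card with him
    have g8 : (D : ℝ) ≤ D1 * g := by
      have g9 : (D : ℝ) ≤ g + 2 * ((∑ t ∈ Bl K K2 j ×ˢ Bl K K2 j, ∑ d ∈ Icc 1 B,
        (PC x z (Nat.centralBinom t.1) (Nat.centralBinom t.2) d).card : ℕ) : ℝ) := by
        rw [hg]
        exact_mod_cast g5
      have g10 : D1 * g = g + 2 * (32 * A * C / c * g) := by
        rw [hD1]
        ring
      rw [g10]
      linarith
    have g9 : g ^ 2 ≤ im * (D1 * g) := by
      have g10 : g ^ 2 ≤ (im : ℝ) * D := by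
        rw [hg]
        exact_mod_cast g4
      exact g10.trans (mul_le_mul_of_nonneg_left g8 (Nat.cast_nonneg _))
    have g10 : g ≤ im * D1 := by
      have g11 : g * g ≤ (im * D1) * g := by
        calc g * g = g ^ 2 := by ring
          _ ≤ im * (D1 * g) := g9
          _ = (im * D1) * g := by ring
      exact le_of_mul_le_mul_right g11 hgpos
    have g11 : g / D1 ≤ im := by
      rw [div_le_iff₀ (by linarith)]
      exact g10
    refine le_trans ?_ g11
    rw [le_div_iff₀ (by linarith)]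
    refine le_trans ?_ g3
    set s := Real.sqrt (L / J) with hs
    have hs0 : 0 < s := Real.sqrt_pos.2 (by positivity)
    have hs2 : s ^ 2 = L / J := Real.sq_sqrt (by positivity)
    have hs3 : Real.sqrt (J / L) = s⁻¹ := by
      rw [hs, ← Real.sqrt_inv, inv_div]
    rw [hs3]
    have g12 : min (c / 8) (c / (32 * D1)) ≤ c / (32 * D1) := min_le_right _ _
    calc min (c / 8) (c / (32 * D1)) * (x / L) * s⁻¹ * D1
        ≤ c / (32 * D1) * (x / L) * s⁻¹ * D1 := by
          refine mul_le_mul_of_nonneg_right ?_ (by linarith)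
          refine mul_le_mul_of_nonneg_right ?_ (by positivity)
          exact mul_le_mul_of_nonneg_right g12 hxL0.le
      _ = c / 16 * (x / L) * ((s ^ 2)⁻¹ * (s / 2)) := by
          field_simp
          norm_num
      _ = c / 16 * (x / L ^ 2) * (J * (s / 2)) := by
          rw [hs2]
          field_simp
      _ ≤ c / 16 * (x / L ^ 2) * (J * K) := by
          refine mul_le_mul_of_nonneg_left ?_ (by positivity)
          exact mul_le_mul_of_nonneg_left hKs2 hJ0.le
  · refine le_trans (mul_le_mul_of_nonneg_right (min_le_left _ _) hxL0.le) hM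

end Pool.Agent.Helper10.CB
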