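import Pool.Agent.Helper10.CB.H1
import Pool.Agent.Helper31.LG.SM
import Pool.Agent.Helper69.LG.ME

/-!
# Averages over k of the primes which do not divide the central binomial coefficient
-/

set_option autoImplicit false

open Finset

namespace Pool.Agent.Helper10.CB

/-- the odd primes up to `K` -/
def pr3 (K : ℕ) : Finset ℕ := (Icc 3 K).filter Nat.Prime

theorem mem_pr3 {K q : ℕ} : q ∈ pr3 K ↔ (3 ≤ q ∧ q ≤ K) ∧ q.Prime := by
  unfold pr3
  rw [mem_filter, mem_Icc]

theorem log_ge_one {q : ℕ} (h : 3 ≤ q) : 1 ≤ Real.log q := by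
  have h1 : (3 : ℝ) ≤ q := by exact_mod_cast h
  rw [Real.le_log_iff_exp_le (by linarith)]
  have := Real.exp_one_lt_d9
  linarith

theorem cube_exp (u : ℝ) (hu : 0 < u) : u ^ 2 * Real.exp (-(u / 5)) ≤ 750 / u := by
  have h1 : (u / 5) ^ 3 / (Nat.factorial 3 : ℝ) ≤ Real.exp (u / 5) :=
    Real.pow_div_factorial_le_exp (u / 5) (by positivity) 3
  have h2 : u ^ 3 ≤ 750 * Real.exp (u / 5) := by
    have h3 : (Nat.factorial 3 : ℝ) = 6 := by norm_num [Nat.factorial]
    rw [h3] at h1
    nlinarith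
  rw [Real.exp_neg, le_div_iff₀ hu, ← div_eq_mul_inv, div_mul_eq_mul_div, div_le_iff₀ (Real.exp_pos _)]
  nlinarith

/-- the weighted sum over the primes -/
theorem wsum : ∃ C : ℝ, 0 < C ∧ ∀ K : ℕ, 3 ≤ K →
    ∑ q ∈ pr3 K, 1 / (q : ℝ) * ((Real.log K / Real.log q) ^ 2 *
      Real.exp (-(Real.log K / Real.log q / 5))) ≤ C := by
  obtain ⟨C, hC, h⟩ := Pool.Agent.Helper31.LG.mertens
  refine ⟨750 * C, by positivity, fun K hK => ?_⟩
  have hlK := log_ge_one hK
  have h1 : ∀ q ∈ pr3 K, 1 / (q : ℝ) * ((Real.log K / Real.log q) ^ 2 *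
      Real.exp (-(Real.log K / Real.log q / 5))) ≤ 750 / Real.log K * (Real.log q / q) := by
    intro q hq
    rw [mem_pr3] at hq
    have hlq := log_ge_one hq.1.1
    have hq0 : (0 : ℝ) < q := by exact_mod_cast (by omega : 0 < q)
    have h2 := cube_exp (Real.log K / Real.log q) (by positivity)
    calc 1 / (q : ℝ) * ((Real.log K / Real.log q) ^ 2 *
      Real.exp (-(Real.log K / Real.log q / 5))) ≤ 1 / (q : ℝ) * (750 / (Real.log K / Real.log q)) :=
          mul_le_mul_of_nonneg_left h2 (by positivity)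
      _ = 750 / Real.log K * (Real.log q / q) := by field_simp
  refine (sum_le_sum h1).trans ?_
  rw [← mul_sum]
  have h3 : ∑ q ∈ pr3 K, Real.log q / q ≤ ∑ p ∈ (Icc 1 K).filter Nat.Prime, Real.log p / p := by
    refine sum_le_sum_of_subset_of_nonneg ?_ ?_
    · intro q hq
      rw [mem_pr3] at hq
      rw [mem_filter, mem_Icc]
      exact ⟨⟨by omega, hq.1.2⟩, hq.2⟩
    · intro q _ _
      exact div_nonneg (Real.log_natCast_nonneg q) (Nat.cast_nonneg q)
  have h4 := h3.trans (h K (by omega))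
  calc 750 / Real.log K * ∑ q ∈ pr3 K, Real.log q / q ≤ 750 / Real.log K * (C * Real.log K) :=
        mul_le_mul_of_nonneg_left h4 (by positivity)
    _ = 750 * C := by field_simp

/-- the number of `k` with the sharp exponent -/
theorem card_ND_exp {q K : ℕ} (hq : q.Prime) (h3 : 3 ≤ q) (hK : q ≤ K) :
    ((ND q K).card : ℝ) ≤ 3 * K * Real.exp (-(2 / 5 * (Real.log K / Real.log q))) := by
  have h1 := card_ND_le q hq h3 K (Nat.log q K) (Nat.pow_log_le_self q (by omega))
  have h2 := two_thirds_pow (Nat.log q K)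
  have hlq := log_ge_one h3
  have hK0 : (0 : ℝ) < K := by exact_mod_cast (by omega : 0 < K)
  have h4 : Real.log K / Real.log q ≤ (Nat.log q K : ℝ) + 1 := by
    rw [div_le_iff₀ (by linarith)]
    have h5 : K < q ^ (Nat.log q K + 1) := Nat.lt_pow_succ_log_self hq.one_lt K
    have h6 : (K : ℝ) ≤ (q : ℝ) ^ (Nat.log q K + 1) := by exact_mod_cast h5.le
    have h7 := Real.log_le_log hK0 h6
    rw [Real.log_pow] at h7
    push_cast at h7
    exact h7
  have h8 : Real.exp (-(2 / 5 * (Nat.log q K : ℝ)))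
      ≤ 3 / 2 * Real.exp (-(2 / 5 * (Real.log K / Real.log q))) := by
    have h9 : Real.exp (-(2 / 5 * (Nat.log q K : ℝ)))
        ≤ Real.exp (2 / 5) * Real.exp (-(2 / 5 * (Real.log K / Real.log q))) := by
      rw [← Real.exp_add]
      apply Real.exp_le_exp.2
      linarith
    exact h9.trans (mul_le_mul_of_nonneg_right exp_le (Real.exp_pos _).le)
  calc ((ND q K).card : ℝ) ≤ 2 * K * (2 / 3 : ℝ) ^ (Nat.log q K) := h1
    _ ≤ 2 * K * (3 / 2 * Real.exp (-(2 / 5 * (Real.log K / Real.log q)))) :=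
        mul_le_mul_of_nonneg_left (h2.trans h8) (by positivity)
    _ = 3 * K * Real.exp (-(2 / 5 * (Real.log K / Real.log q))) := by ring

/-- sum of the reciprocals of the odd primes up to `K` not dividing the central binomial coefficient -/
noncomputable def T (K k : ℕ) : ℝ :=
  ∑ q ∈ (pr3 K).filter (fun q => ¬ q ∣ Nat.centralBinom k), 1 / (q : ℝ)

theorem T_nonneg (K k : ℕ) : 0 ≤ T K k := sum_nonneg fun _ _ => by positivity

theorem exp_T_le (K k : ℕ) : Real.exp (T K k) ≤ 1 + ∑ q ∈ pr3 K,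
    (if q ∣ Nat.centralBinom k then 0 else 2 / (q : ℝ)) *
      ∏ p ∈ (pr3 K).filter (fun p => q < p), (1 + 2 / (p : ℝ)) := by
  classical
  set a : ℕ → ℝ := fun q => if q ∣ Nat.centralBinom k then 0 else 2 / (q : ℝ) with ha
  have ha0 : ∀ q, 0 ≤ a q := by
    intro q
    simp only [ha]
    split_ifs
    · exact le_rfl
    · positivity
  have ha1 : ∀ q, a q ≤ 2 / (q : ℝ) := by
    intro q
    simp only [ha]
    split_ifs
    · positivity
    · exact le_rfl
  have h1 : Real.exp (T K k) ≤ ∏ q ∈ pr3 K, (1 + a q) := by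
    unfold T
    rw [Real.exp_sum, prod_filter]
    refine prod_le_prod (fun _ _ => ?_) fun q hq => ?_
    · split_ifs
      · exact zero_le_one
      · exact (Real.exp_pos _).le
    · rw [mem_pr3] at hq
      simp only [ha]
      by_cases h : q ∣ Nat.centralBinom k
      · rw [if_neg (not_not.2 h), if_pos h, add_zero]
      · rw [if_pos h, if_neg h]
        have h2 : (3 : ℝ) ≤ q := by exact_mod_cast hq.1.1
        have h3 : 1 / (q : ℝ) ≤ 1 := by
          rw [div_le_one (by linarith)]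
          linarith
        have h4 := Real.abs_exp_sub_one_le (x := 1 / (q : ℝ)) (by
          rw [abs_of_nonneg (by positivity)]
          exact h3)
        rw [abs_of_nonneg (by positivity : (0:ℝ) ≤ 1 / (q : ℝ))] at h4
        have h5 := (abs_le.1 h4).2
        have h6 : 2 / (q : ℝ) = 2 * (1 / (q : ℝ)) := by ring
        linarith
  have h2 : ∏ q ∈ pr3 K, (1 + a q) = 1 + ∑ q ∈ pr3 K, a q *
      ∏ p ∈ (pr3 K).filter (fun p => q < p), (1 + a p) := by
    have h3 := prod_add_ordered (pr3 K) (fun q => 1 + a q) (fun q => - a q)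
    simp only [add_neg_cancel_right, prod_const_one, mul_one] at h3
    have h4 : ∑ i ∈ pr3 K, -a i * ∏ j ∈ (pr3 K).filter (fun j => i < j), (1 + a j)
        = - ∑ q ∈ pr3 K, a q * ∏ p ∈ (pr3 K).filter (fun p => q < p), (1 + a p) := by
      rw [← sum_neg_distrib]
      exact sum_congr rfl fun _ _ => by ring
    rw [h4] at h3
    linarith
  rw [h2] at h1
  refine h1.trans ?_
  have h5 : ∑ q ∈ pr3 K, a q * ∏ p ∈ (pr3 K).filter (fun p => q < p), (1 + a p)
      ≤ ∑ q ∈ pr3 K, a q * ∏ p ∈ (pr3 K).filter (fun p => q < p), (1 + 2 / (p : ℝ)) := by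
    refine sum_le_sum fun q _ => mul_le_mul_of_nonneg_left ?_ (ha0 q)
    refine prod_le_prod (fun p _ => ?_) fun p _ => ?_
    · have := ha0 p
      linarith
    · have := ha1 p
      linarith
  linarith

/-- the average of `exp T` is bounded -/
theorem tt : ∃ C : ℝ, 0 < C ∧ ∀ K : ℕ, 3 ≤ K →
    ∑ k ∈ range K, Real.exp (T K k) ≤ C * K := by
  obtain ⟨C1, hC1, hw⟩ := wsum
  obtain ⟨C2, hC2, hme⟩ := Pool.Agent.Helper69.LG.me
  refine ⟨1 + 6 * Real.exp (2 * C2) * C1, by positivity, fun K hK => ?_⟩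
  have hlK := log_ge_one hK
  have hK0 : (0 : ℝ) < K := by exact_mod_cast (by omega : 0 < K)
  have h1 : ∑ k ∈ range K, Real.exp (T K k) ≤ ∑ k ∈ range K, (1 + ∑ q ∈ pr3 K,
    (if q ∣ Nat.centralBinom k then 0 else 2 / (q : ℝ)) *
      ∏ p ∈ (pr3 K).filter (fun p => q < p), (1 + 2 / (p : ℝ))) :=
    sum_le_sum fun k _ => exp_T_le K k
  refine h1.trans ?_
  rw [sum_add_distrib, sum_const, card_range, nsmul_eq_mul, mul_one, sum_comm]
  have h2 : ∀ q ∈ pr3 K, ∑ k ∈ range K, (if q ∣ Nat.centralBinom k then 0 else 2 / (q : ℝ)) *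
      ∏ p ∈ (pr3 K).filter (fun p => q < p), (1 + 2 / (p : ℝ))
      ≤ (6 * Real.exp (2 * C2) * K) * (1 / (q : ℝ) * ((Real.log K / Real.log q) ^ 2 *
      Real.exp (-(Real.log K / Real.log q / 5)))) := by
    intro q hq
    rw [mem_pr3] at hq
    obtain ⟨⟨hq3, hqK⟩, hqp⟩ := hq
    have hlq := log_ge_one hq3
    have hq0 : (0 : ℝ) < q := by exact_mod_cast (by omega : 0 < q)
    rw [← sum_mul]
    have h3 : ∑ k ∈ range K, (if q ∣ Nat.centralBinom k then 0 else 2 / (q : ℝ))
        = ((ND q K).card : ℝ) * (2 / (q : ℝ)) := by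
      have h4 : ∀ k ∈ range K, (if q ∣ Nat.centralBinom k then (0 : ℝ) else 2 / (q : ℝ))
          = if ¬ q ∣ Nat.centralBinom k then 2 / (q : ℝ) else 0 := by
        intro k _
        by_cases h : q ∣ Nat.centralBinom k
        · rw [if_pos h, if_neg (not_not.2 h)]
        · rw [if_neg h, if_pos h]
      rw [sum_congr rfl h4, ← sum_filter, sum_const, nsmul_eq_mul]
      rfl
    rw [h3]
    have h5 := card_ND_exp hqp hq3 hqK
    -- the product
    have h6 : ∏ p ∈ (pr3 K).filter (fun p => q < p), (1 + 2 / (p : ℝ))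
        ≤ Real.exp (2 * C2) * (Real.log K / Real.log q) ^ 2 := by
      have h7 : ∏ p ∈ (pr3 K).filter (fun p => q < p), (1 + 2 / (p : ℝ))
          ≤ Real.exp (∑ p ∈ (pr3 K).filter (fun p => q < p), 2 / (p : ℝ)) := by
        rw [Real.exp_sum]
        refine prod_le_prod (fun p _ => by positivity) fun p _ => ?_
        have := Real.add_one_le_exp (2 / (p : ℝ))
        linarith
      refine h7.trans ?_
      have h8 := hme (q : ℝ) K (by exact_mod_cast (by omega : 2 ≤ q)) (by exact_mod_cast hqK)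
      have h9 : ∑ p ∈ (pr3 K).filter (fun p => q < p), 2 / (p : ℝ)
          ≤ 2 * ∑ p ∈ (Icc 1 K).filter (fun p : ℕ => p.Prime ∧ (q : ℝ) < (p : ℝ)), 1 / (p : ℝ) := by
        rw [mul_sum]
        refine (sum_le_sum_of_subset_of_nonneg (f := fun p : ℕ => 2 / (p : ℝ)) ?_ ?_).trans
          (le_of_eq (sum_congr rfl fun p _ => by ring))
        · intro p hp
          rw [mem_filter, mem_pr3] at hp
          rw [mem_filter, mem_Icc]
          exact ⟨⟨by omega, hp.1.1.2⟩, hp.1.2, by exact_mod_cast hp.2⟩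
        · intro p _ _
          positivity
      have h10 : C2 / Real.log q ≤ C2 := div_le_self hC2.le hlq
      have h11 : ∑ p ∈ (pr3 K).filter (fun p => q < p), 2 / (p : ℝ)
          ≤ 2 * C2 + Real.log ((Real.log K / Real.log q) ^ 2) := by
        rw [Real.log_pow]
        push_cast
        linarith
      calc Real.exp (∑ p ∈ (pr3 K).filter (fun p => q < p), 2 / (p : ℝ))
          ≤ Real.exp (2 * C2 + Real.log ((Real.log K / Real.log q) ^ 2)) := Real.exp_le_exp.2 h11
        _ = Real.exp (2 * C2) * (Real.log K / Real.log q) ^ 2 := by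
          rw [Real.exp_add, Real.exp_log (by positivity)]
    have h12 : Real.exp (-(2 / 5 * (Real.log K / Real.log q)))
        ≤ Real.exp (-(Real.log K / Real.log q / 5)) := by
      apply Real.exp_le_exp.2
      have : 0 ≤ Real.log K / Real.log q := by positivity
      linarith
    have h13 : ((ND q K).card : ℝ) * (2 / (q : ℝ))
        ≤ 3 * K * Real.exp (-(Real.log K / Real.log q / 5)) * (2 / (q : ℝ)) := by
      refine mul_le_mul_of_nonneg_right ?_ (by positivity)
      exact h5.trans (mul_le_mul_of_nonneg_left h12 (by positivity))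
    calc ((ND q K).card : ℝ) * (2 / (q : ℝ)) *
          ∏ p ∈ (pr3 K).filter (fun p => q < p), (1 + 2 / (p : ℝ))
        ≤ (3 * K * Real.exp (-(Real.log K / Real.log q / 5)) * (2 / (q : ℝ))) *
          (Real.exp (2 * C2) * (Real.log K / Real.log q) ^ 2) :=
          mul_le_mul h13 h6 (prod_nonneg fun p _ => by positivity) (by positivity)
      _ = (6 * Real.exp (2 * C2) * K) * (1 / (q : ℝ) * ((Real.log K / Real.log q) ^ 2 *
      Real.exp (-(Real.log K / Real.log q / 5)))) := by ring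
  have h3 := sum_le_sum h2
  rw [← mul_sum] at h3
  have h4 := mul_le_mul_of_nonneg_left (hw K hK) (by positivity : 0 ≤ 6 * Real.exp (2 * C2) * (K : ℝ))
  calc (K : ℝ) + _ ≤ K + 6 * Real.exp (2 * C2) * K * C1 := by linarith
    _ = (1 + 6 * Real.exp (2 * C2) * C1) * K := by ring

end Pool.Agent.Helper10.CB
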