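import Pool.Agent.Helper10.CB.FM
import Pool.Agent.Helper10.CB.FA
import Pool.Agent.Helper10.CB.TT

/-!
# Upper bounds for the primes p with p + h free of prime factors up to z
-/

set_option autoImplicit false

open Finset Filter Topology

open scoped Classical

namespace Pool.Agent.Helper10.CB

open Pool.Agent.Helper90.Twin (Ps mem_Ps Sz)
open Pool.Agent.Helper94.Tot (allSz)

/-- the relation between `x` and `z` -/
structure XZ (E x z : ℕ) : Prop where
  le : z ^ E ≤ x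
  lt : x < (z + 1) ^ E
  two : 3 ≤ z

theorem XZ.zx {E x z : ℕ} (h : XZ E x z) (hE : 1 ≤ E) : z ≤ x :=
  (Nat.le_self_pow (by omega) z).trans h.le

theorem XZ.logz {E x z : ℕ} (h : XZ E x z) : 1 ≤ Real.log z := by
  have h3 : (3 : ℝ) ≤ z := by exact_mod_cast h.two
  rw [Real.le_log_iff_exp_le (by linarith)]
  have := Real.exp_one_lt_d9
  linarith

theorem XZ.logx {E x z : ℕ} (h : XZ E x z) (hE : 1 ≤ E) :
    1 ≤ Real.log x ∧ Real.log z ≤ Real.log x ∧ Real.log x ≤ 2 * E * Real.log z := by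
  have h3 : (3 : ℝ) ≤ z := by exact_mod_cast h.two
  have h4 : (z : ℝ) ≤ x := by exact_mod_cast h.zx hE
  have h5 : Real.log z ≤ Real.log x := Real.log_le_log (by linarith) h4
  refine ⟨h.logz.trans h5, h5, ?_⟩
  have h1 : x ≤ (z ^ 2) ^ E := by
    refine h.lt.le.trans (Nat.pow_le_pow_left ?_ E)
    nlinarith [h.two]
  have h2 : (x : ℝ) ≤ (z : ℝ) ^ (2 * E) := by
    rw [pow_mul]
    exact_mod_cast h1
  have h6 := Real.log_le_log (by linarith) h2
  rw [Real.log_pow] at h6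
  push_cast at h6
  exact h6

/-- powers of the main factor -/
theorem exp_Sz_pow : ∃ C : ℝ, 1 ≤ C ∧ ∀ E x z : ℕ, 1 ≤ E → XZ E x z → ∀ r : ℕ, r ≤ 4 →
    Real.exp (-(r * Sz z)) ≤ (C * E) ^ 4 / Real.log x ^ r := by
  obtain ⟨C3, hC3, hSz⟩ := allSz
  refine ⟨2 * C3 + 1, by linarith, fun E x z hE hxz r hr => ?_⟩
  obtain ⟨h1, h2, h3⟩ := hxz.logx hE
  have hlz := hxz.logz
  have h4 := hSz z (by have := hxz.two; omega)
  have hEr : (1 : ℝ) ≤ E := by exact_mod_cast hE
  have h5 : Real.exp (-(r * Sz z)) = Real.exp (-(Sz z)) ^ r := by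
    rw [← Real.exp_nat_mul]
    ring_nf
  rw [h5]
  have h6 : Real.exp (-(Sz z)) ≤ (2 * C3 + 1) * E / Real.log x := by
    refine h4.trans ?_
    rw [div_le_div_iff₀ (by linarith) (by linarith)]
    calc C3 * Real.log x ≤ C3 * (2 * E * Real.log z) := mul_le_mul_of_nonneg_left h3 hC3.le
      _ = 2 * C3 * E * Real.log z := by ring
      _ ≤ (2 * C3 + 1) * E * Real.log z := by
          refine mul_le_mul_of_nonneg_right ?_ (by linarith)
          nlinarith
  refine (pow_le_pow_left₀ (Real.exp_pos _).le h6 r).trans ?_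
  rw [div_pow]
  refine div_le_div_of_nonneg_right ?_ (by positivity)
  have h7 : 1 ≤ (2 * C3 + 1) * (E : ℝ) := by nlinarith
  exact pow_le_pow_right₀ h7 hr

/-- two shifts -/
theorem u2 : ∃ E0 : ℕ, ∀ E : ℕ, E0 ≤ E → ∃ C : ℝ, 0 < C ∧ ∀ x z h : ℕ, XZ E x z →
    ((G x z h).card : ℝ) ≤ C * (x / Real.log x ^ 2) * Real.exp (Sd z h) := by
  obtain ⟨K, C, hC, h2⟩ := f2
  obtain ⟨C1, hC1, hS⟩ := exp_Sz_pow
  refine ⟨K + 1, fun E hE => ⟨C * 33 * (C1 * E) ^ 4, by
    have : (1 : ℝ) ≤ E := by exact_mod_cast (by omega : 1 ≤ E)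
    positivity, fun x z h hxz => ?_⟩⟩
  have hE1 : 1 ≤ E := by omega
  have hz := hxz.two
  have hzx := hxz.zx hE1
  have h3 := h2 z (32 * x + 1) (by
    have := (Nat.pow_le_pow_right (by omega : 0 < z) (by omega : K ≤ E)).trans hxz.le
    omega) 0 h (G x z h) (fun p hp => by
      rw [mem_G] at hp
      refine ⟨by omega, ?_, hp.2.2.R⟩
      intro q hq hd
      rw [add_zero] at hd
      have hq' := mem_Ps.1 hq
      have := (Nat.prime_dvd_prime_iff_eq hq'.2.2 hp.2.1).1 hd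
      omega)
  refine h3.trans ?_
  have e : dd 0 h = h := by
    unfold dd
    simp
  rw [e]
  have h4 := hS E x z hE1 hxz 2 (by norm_num)
  push_cast at h4
  obtain ⟨g1, g2, g3⟩ := hxz.logx hE1
  have hx1 : (1 : ℝ) ≤ x := by exact_mod_cast (by omega : 1 ≤ x)
  have h5 : ((32 * x + 1 : ℕ) : ℝ) ≤ 33 * x := by push_cast; linarith
  calc C * ((32 * x + 1 : ℕ) : ℝ) * (Real.exp (-(2 * Sz z)) * Real.exp (Sd z h))
      ≤ C * (33 * x) * (((C1 * E) ^ 4 / Real.log x ^ 2) * Real.exp (Sd z h)) := by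
        refine mul_le_mul (mul_le_mul_of_nonneg_left h5 hC.le)
          (mul_le_mul_of_nonneg_right h4 (Real.exp_pos _).le) (by positivity) (by positivity)
    _ = _ := by ring

/-- three shifts -/
theorem u3 : ∃ E0 : ℕ, ∀ E : ℕ, E0 ≤ E → ∃ C : ℝ, 0 < C ∧ ∀ x z h h' : ℕ, XZ E x z →
    ((G x z h ∩ G x z h').card : ℝ) ≤ C * (x / Real.log x ^ 3) *
      Real.exp (Sd z h + Sd z h' +
        ∑ p ∈ (Ps z).filter (fun p => p ∣ dd h h' ∧ ¬ p ∣ h), 1 / (p : ℝ)) := by
  obtain ⟨K, C, hC, h2⟩ := f3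
  obtain ⟨C1, hC1, hS⟩ := exp_Sz_pow
  refine ⟨K + 1, fun E hE => ⟨C * 33 * (C1 * E) ^ 4, by
    have : (1 : ℝ) ≤ E := by exact_mod_cast (by omega : 1 ≤ E)
    positivity, fun x z h h' hxz => ?_⟩⟩
  have hE1 : 1 ≤ E := by omega
  have hz := hxz.two
  have hzx := hxz.zx hE1
  have h3 := h2 z (32 * x + 1) (by
    have := (Nat.pow_le_pow_right (by omega : 0 < z) (by omega : K ≤ E)).trans hxz.le
    omega) 0 h h' (G x z h ∩ G x z h') (fun p hp => by
      rw [mem_inter, mem_G, mem_G] at hp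
      refine ⟨by omega, ?_, hp.1.2.2.R, hp.2.2.2.R⟩
      intro q hq hd
      rw [add_zero] at hd
      have hq' := mem_Ps.1 hq
      have := (Nat.prime_dvd_prime_iff_eq hq'.2.2 hp.1.2.1).1 hd
      omega)
  refine h3.trans ?_
  have e : ∀ h : ℕ, dd 0 h = h := by
    intro h
    unfold dd
    simp
  rw [e, e]
  have h4 := hS E x z hE1 hxz 3 (by norm_num)
  push_cast at h4
  obtain ⟨g1, g2, g3⟩ := hxz.logx hE1
  have hx1 : (1 : ℝ) ≤ x := by exact_mod_cast (by omega : 1 ≤ x)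
  have h5 : ((32 * x + 1 : ℕ) : ℝ) ≤ 33 * x := by push_cast; linarith
  set ex := Real.exp (Sd z h + Sd z h' +
        ∑ p ∈ (Ps z).filter (fun p => p ∣ dd h h' ∧ ¬ p ∣ h), 1 / (p : ℝ)) with hex
  calc C * ((32 * x + 1 : ℕ) : ℝ) * (Real.exp (-(3 * Sz z)) * ex)
      ≤ C * (33 * x) * (((C1 * E) ^ 4 / Real.log x ^ 3) * ex) := by
        refine mul_le_mul (mul_le_mul_of_nonneg_left h5 hC.le)
          (mul_le_mul_of_nonneg_right h4 (Real.exp_pos _).le) (by positivity) (by positivity)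
    _ = _ := by ring

/-- the pairs of primes at the distance `d` -/
noncomputable def PC (x z h h' d : ℕ) : Finset ℕ :=
  (G x z h).filter (fun p => (p + d).Prime ∧ Ro z (p + d + h'))

/-- four shifts -/
theorem u4 : ∃ E0 : ℕ, ∀ E : ℕ, E0 ≤ E → ∃ C : ℝ, 0 < C ∧ ∀ x z h h' d : ℕ, XZ E x z →
    ((PC x z h h' d).card : ℝ) ≤ C * (x / Real.log x ^ 4) *
      (Real.exp (Sd z h + Sd z h') *
      Real.exp (Sd z d + Sd z (d + h') + Sd z (dd d h) + Sd z (dd (d + h') h))) := by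
  obtain ⟨K, C, hC, h2⟩ := f4
  obtain ⟨C1, hC1, hS⟩ := exp_Sz_pow
  refine ⟨K + 1, fun E hE => ⟨C * 33 * (C1 * E) ^ 4, by
    have : (1 : ℝ) ≤ E := by exact_mod_cast (by omega : 1 ≤ E)
    positivity, fun x z h h' d hxz => ?_⟩⟩
  have hE1 : 1 ≤ E := by omega
  have hz := hxz.two
  have hzx := hxz.zx hE1
  have h3 := h2 z (32 * x + 1) (by
    have := (Nat.pow_le_pow_right (by omega : 0 < z) (by omega : K ≤ E)).trans hxz.le
    omega) 0 d h (d + h') (PC x z h h' d) (fun p hp => by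
      unfold PC at hp
      rw [mem_filter, mem_G] at hp
      obtain ⟨⟨hp1, hp2, hp3⟩, hp4, hp5⟩ := hp
      refine ⟨by omega, ?_, ?_, hp3.R, ?_⟩
      · intro q hq hd
        rw [add_zero] at hd
        have hq' := mem_Ps.1 hq
        have := (Nat.prime_dvd_prime_iff_eq hq'.2.2 hp2).1 hd
        omega
      · intro q hq hd
        have hq' := mem_Ps.1 hq
        have := (Nat.prime_dvd_prime_iff_eq hq'.2.2 hp4).1 hd
        omega
      · rw [← add_assoc]
        exact hp5.R)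
  refine h3.trans ?_
  have e : ∀ h : ℕ, dd 0 h = h := by
    intro h
    unfold dd
    simp
  have e2 : dd d (d + h') = h' := by
    unfold dd
    push_cast
    have : (d : ℤ) - (d + h') = -h' := by ring
    rw [this, Int.natAbs_neg, Int.natAbs_natCast]
  have e3 : dd h (d + h') = dd (d + h') h := by
    unfold dd
    rw [← Int.natAbs_neg, neg_sub]
  rw [e, e, e, e2, e3]
  have h4 := hS E x z hE1 hxz 4 le_rfl
  push_cast at h4
  obtain ⟨g1, g2, g3⟩ := hxz.logx hE1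
  have hx1 : (1 : ℝ) ≤ x := by exact_mod_cast (by omega : 1 ≤ x)
  have h5 : ((32 * x + 1 : ℕ) : ℝ) ≤ 33 * x := by push_cast; linarith
  have h6 : Real.exp (Sd z d + Sd z h + Sd z (d + h') + Sd z (dd d h) + Sd z h' +
      Sd z (dd (d + h') h)) = Real.exp (Sd z h + Sd z h') *
      Real.exp (Sd z d + Sd z (d + h') + Sd z (dd d h) + Sd z (dd (d + h') h)) := by
    rw [← Real.exp_add]
    ring_nf
  rw [h6]
  set ex := Real.exp (Sd z h + Sd z h') *
      Real.exp (Sd z d + Sd z (d + h') + Sd z (dd d h) + Sd z (dd (d + h') h)) with hex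
  calc C * ((32 * x + 1 : ℕ) : ℝ) * (Real.exp (-(4 * Sz z)) * ex)
      ≤ C * (33 * x) * (((C1 * E) ^ 4 / Real.log x ^ 4) * ex) := by
        refine mul_le_mul (mul_le_mul_of_nonneg_left h5 hC.le)
          (mul_le_mul_of_nonneg_right h4 (by positivity)) (by positivity) (by positivity)
    _ = _ := by ring

/-- upper bound for the sum of the reciprocals of the primes -/
theorem exp_Sz_up : ∃ C : ℝ, 1 ≤ C ∧ ∀ z : ℕ, 3 ≤ z → Real.exp (Sz z) ≤ C * Real.log z := by
  obtain ⟨C, hC, hme⟩ := Pool.Agent.Helper69.LG.me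
  have hl2 : 0 < Real.log 2 := Real.log_pos (by norm_num)
  refine ⟨Real.exp (C / Real.log 2) / Real.log 2 + 1, by
    have : 0 ≤ Real.exp (C / Real.log 2) / Real.log 2 := by positivity
    linarith, fun z hz => ?_⟩
  have hlz := log_ge_one hz
  have h1 := hme 2 z le_rfl (by exact_mod_cast (by omega : 2 ≤ z))
  have h2 : Sz z ≤ ∑ p ∈ (Icc 1 z).filter (fun p : ℕ => p.Prime ∧ (2 : ℝ) < (p : ℝ)), 1 / (p : ℝ) := by
    unfold Pool.Agent.Helper90.Twin.Sz
    refine sum_le_sum_of_subset_of_nonneg ?_ fun _ _ _ => by positivity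
    intro p hp
    rw [mem_Ps] at hp
    rw [mem_filter, mem_Icc]
    exact ⟨⟨by omega, hp.2.1⟩, hp.2.2, by exact_mod_cast (by omega : 2 < p)⟩
  have h3 := Real.exp_le_exp.2 (h2.trans h1)
  rw [Real.exp_add, Real.exp_log (by positivity)] at h3
  refine h3.trans ?_
  have h4 : Real.log z / Real.log 2 * Real.exp (C / Real.log 2)
      = Real.exp (C / Real.log 2) / Real.log 2 * Real.log z := by ring
  rw [h4]
  refine mul_le_mul_of_nonneg_right (by linarith) (by linarith)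

end Pool.Agent.Helper10.CB
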