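import Pool.Agent.Helper10.CB.U

/-!
# Pairs of primes at short distances
-/

set_option autoImplicit false

open Finset Filter Topology

open scoped Classical

namespace Pool.Agent.Helper10.CB

open Pool.Agent.Helper90.Twin (Ps mem_Ps Sz)

theorem am4 (a b c d : ℝ) : Real.exp (a + b + c + d) ≤
    (Real.exp (4 * a) + Real.exp (4 * b) + Real.exp (4 * c) + Real.exp (4 * d)) / 4 := by
  have e : ∀ t : ℝ, Real.exp (4 * t) = (Real.exp t) ^ 4 := by
    intro t
    rw [← Real.exp_nat_mul]
    norm_num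
  rw [e, e, e, e, Real.exp_add, Real.exp_add, Real.exp_add]
  set p := Real.exp a
  set q := Real.exp b
  set r := Real.exp c
  set s := Real.exp d
  nlinarith [sq_nonneg (p ^ 2 - q ^ 2), sq_nonneg (r ^ 2 - s ^ 2), sq_nonneg (p * q - r * s)]

/-- one factor -/
theorem one_fac : ∃ C : ℝ, 1 ≤ C ∧ ∀ z B m : ℕ, 3 ≤ B → m ≠ 0 → Real.log m ≤ B →
    Real.exp (Sd z m) ≤ C * Real.log B := by
  obtain ⟨C, hC, h⟩ := exp_Sz_up
  refine ⟨Real.exp 2 * C, ?_, fun z B m hB hm hl => ?_⟩
  · have : 1 ≤ Real.exp 2 := Real.one_le_exp (by norm_num)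
    nlinarith
  · have h1 := Sd_le_add (z := z) (by omega : 1 ≤ B) hm hl
    have h2 : Sd z m ≤ Sz B + 2 := h1.trans (by linarith [Sd_le B m])
    have h3 := Real.exp_le_exp.2 h2
    rw [Real.exp_add] at h3
    have h4 := h B hB
    calc Real.exp (Sd z m) ≤ Real.exp (Sz B) * Real.exp 2 := h3
      _ ≤ (C * Real.log B) * Real.exp 2 := mul_le_mul_of_nonneg_right h4 (Real.exp_pos _).le
      _ = _ := by ring

/-- the sum over the distances -/
theorem dsum : ∃ C : ℝ, 0 < C ∧ ∀ x z B h h' : ℕ, 3 ≤ z → z ≤ x → 1 ≤ h → h ≤ x → 1 ≤ h' → h' ≤ x →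
    3 ≤ B → B ≤ x → Real.log x + 1 ≤ B → Real.log x * Real.log B ^ 3 ≤ B →
    ∑ d ∈ Icc 1 B, Real.exp (Sd z d + Sd z (d + h') + Sd z (dd d h) + Sd z (dd (d + h') h))
      ≤ C * B := by
  obtain ⟨C1, hC1, hfa⟩ := fa
  obtain ⟨C2, hC2, hof⟩ := one_fac
  obtain ⟨C3, hC3, hsu⟩ := exp_Sz_up
  refine ⟨C1 + 2 * (C2 ^ 3 * C3), by positivity,
    fun x z B h h' hz hzx h1 h1x h2 h2x hB hBx hLB hLB3 => ?_⟩
  have hBr : (3 : ℝ) ≤ B := by exact_mod_cast hB
  have hlB := log_ge_one hB
  have hx0 : 1 ≤ x := by omega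
  have hxr : (1 : ℝ) ≤ x := by exact_mod_cast hx0
  have hlx : 0 ≤ Real.log x := Real.log_nonneg hxr
  -- logs of the numbers
  have hlog : ∀ m : ℕ, m ≤ 2 * x → Real.log m ≤ B := by
    intro m hm
    rcases Nat.eq_zero_or_pos m with h0 | h0
    · rw [h0, Nat.cast_zero, Real.log_zero]
      linarith
    · have h3 : (m : ℝ) ≤ 2 * x := by exact_mod_cast hm
      have h4 := Real.log_le_log (by exact_mod_cast h0) h3
      rw [Real.log_mul (by norm_num) (by positivity)] at h4
      have := Real.log_two_lt_d9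
      linarith
  set F : ℕ → ℝ := fun d => Real.exp (Sd z d + Sd z (d + h') + Sd z (dd d h) +
    Sd z (dd (d + h') h)) with hF
  -- exceptional distances
  set Ex := (Icc 1 B).filter (fun d => dd d h = 0 ∨ dd (d + h') h = 0) with hEx
  have hsplit : ∑ d ∈ Icc 1 B, F d = ∑ d ∈ Ex, F d +
      ∑ d ∈ (Icc 1 B).filter (fun d => ¬ (dd d h = 0 ∨ dd (d + h') h = 0)), F d :=
    (sum_filter_add_sum_filter_not _ _ _).symm
  have hz1 : Real.exp (Sd z 0) ≤ C3 * Real.log x := by
    have h3 : Real.exp (Sd z 0) ≤ Real.exp (Sz z) := Real.exp_le_exp.2 (Sd_le z 0)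
    refine h3.trans ((hsu z hz).trans (mul_le_mul_of_nonneg_left ?_ (by linarith)))
    exact Real.log_le_log (by exact_mod_cast (by omega : 0 < z)) (by exact_mod_cast hzx)
  have hexc : ∑ d ∈ Ex, F d ≤ 2 * (C2 ^ 3 * C3) * B := by
    have hcard : Ex.card ≤ 2 := by
      have hs : Ex ⊆ {h, h - h'} := by
        intro d hd
        rw [hEx, mem_filter, mem_Icc] at hd
        rw [mem_insert, mem_singleton]
        unfold dd at hd
        omega
      exact (card_le_card hs).trans (card_le_two)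
    have hF1 : ∀ d ∈ Ex, F d ≤ C2 ^ 3 * C3 * B := by
      intro d hd
      rw [hEx, mem_filter, mem_Icc] at hd
      obtain ⟨⟨hd1, hdB⟩, hd2⟩ := hd
      have g1 := hof z B d hB (by omega) (hlog d (by omega))
      have g2 := hof z B (d + h') hB (by omega) (hlog _ (by omega))
      have hdd1 : dd d h ≤ 2 * x := by unfold dd; omega
      have hdd2 : dd (d + h') h ≤ 2 * x := by unfold dd; omega
      have g34 : Real.exp (Sd z (dd d h)) * Real.exp (Sd z (dd (d + h') h))
          ≤ (C2 * Real.log B) * (C3 * Real.log x) := by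
        rcases hd2 with h0 | h0
        · have h5 : dd (d + h') h ≠ 0 := by
            unfold dd at h0 ⊢
            omega
          have g4 := hof z B _ hB h5 (hlog _ hdd2)
          rw [h0]
          calc Real.exp (Sd z 0) * Real.exp (Sd z (dd (d + h') h))
              ≤ (C3 * Real.log x) * (C2 * Real.log B) :=
                mul_le_mul hz1 g4 (Real.exp_pos _).le (by positivity)
            _ = _ := mul_comm _ _
        · have h5 : dd d h ≠ 0 := by
            unfold dd at h0 ⊢
            omega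
          have g4 := hof z B _ hB h5 (hlog _ hdd1)
          rw [h0]
          exact mul_le_mul g4 hz1 (Real.exp_pos _).le (by positivity)
      have e1 : F d = Real.exp (Sd z d) * Real.exp (Sd z (d + h')) *
          (Real.exp (Sd z (dd d h)) * Real.exp (Sd z (dd (d + h') h))) := by
        simp only [hF]
        rw [Real.exp_add, Real.exp_add, Real.exp_add]
        ring
      rw [e1]
      calc Real.exp (Sd z d) * Real.exp (Sd z (d + h')) *
          (Real.exp (Sd z (dd d h)) * Real.exp (Sd z (dd (d + h') h)))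
          ≤ (C2 * Real.log B) * (C2 * Real.log B) * ((C2 * Real.log B) * (C3 * Real.log x)) := by
            refine mul_le_mul (mul_le_mul g1 g2 (Real.exp_pos _).le (by positivity)) g34
              (by positivity) (by positivity)
        _ = C2 ^ 3 * C3 * (Real.log x * Real.log B ^ 3) := by ring
        _ ≤ C2 ^ 3 * C3 * B := mul_le_mul_of_nonneg_left hLB3 (by positivity)
    calc ∑ d ∈ Ex, F d ≤ ∑ d ∈ Ex, C2 ^ 3 * C3 * B := sum_le_sum hF1
      _ = Ex.card * (C2 ^ 3 * C3 * B) := by rw [sum_const, nsmul_eq_mul]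
      _ ≤ 2 * (C2 ^ 3 * C3 * B) := by
          refine mul_le_mul_of_nonneg_right ?_ (by positivity)
          exact_mod_cast hcard
      _ = 2 * (C2 ^ 3 * C3) * B := by ring
  -- the other distances
  have key : ∀ a : ℤ, -(x : ℤ) ≤ a → a ≤ x → ∀ f : ℕ → ℕ,
      (∀ d ∈ Icc 1 B, f d = ((d : ℤ) + a).natAbs) →
      (∀ d ∈ (Icc 1 B).filter (fun d => ¬ (dd d h = 0 ∨ dd (d + h') h = 0)), f d ≠ 0) →
      ∑ d ∈ (Icc 1 B).filter (fun d => ¬ (dd d h = 0 ∨ dd (d + h') h = 0)),
        Real.exp (4 * Sd z (f d)) ≤ C1 * B := by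
    intro a ha1 ha2 f hf hf0
    refine le_trans ?_ (hfa B z (by omega) a (fun d hd => hlog _ (by
      rw [mem_Icc] at hd
      omega)))
    have e1 : ∑ d ∈ (Icc 1 B).filter (fun d => ¬ (dd d h = 0 ∨ dd (d + h') h = 0)),
        Real.exp (4 * Sd z (f d))
        = ∑ d ∈ (Icc 1 B).filter (fun d => ¬ (dd d h = 0 ∨ dd (d + h') h = 0)),
        Real.exp (4 * Sd z ((d : ℤ) + a).natAbs) := by
      refine sum_congr rfl fun d hd => ?_
      rw [hf d (mem_filter.1 hd).1]
    rw [e1]
    refine sum_le_sum_of_subset_of_nonneg ?_ fun _ _ _ => (Real.exp_pos _).le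
    intro d hd
    have h5 := hf0 d hd
    rw [mem_filter] at hd ⊢
    rw [hf d hd.1] at h5
    exact ⟨hd.1, h5⟩
  have k1 := key 0 (by omega) (by omega) (fun d => d) (fun d _ => by omega) (fun d hd => by
    rw [mem_filter, mem_Icc] at hd
    omega)
  have k2 := key h' (by omega) (by omega) (fun d => d + h') (fun d _ => by omega) (fun d hd => by
    omega)
  have k3 := key (-h) (by omega) (by omega) (fun d => dd d h) (fun d _ => by
    unfold dd
    omega) (fun d hd => by
    rw [mem_filter] at hd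
    exact fun h0 => hd.2 (Or.inl h0))
  have k4 := key (h' - h) (by omega) (by omega) (fun d => dd (d + h') h) (fun d _ => by
    unfold dd
    omega) (fun d hd => by
    rw [mem_filter] at hd
    exact fun h0 => hd.2 (Or.inr h0))
  have hoth : ∑ d ∈ (Icc 1 B).filter (fun d => ¬ (dd d h = 0 ∨ dd (d + h') h = 0)), F d
      ≤ C1 * B := by
    have h3 : ∀ d ∈ (Icc 1 B).filter (fun d => ¬ (dd d h = 0 ∨ dd (d + h') h = 0)), F d
        ≤ 1 / 4 * Real.exp (4 * Sd z d) + 1 / 4 * Real.exp (4 * Sd z (d + h')) +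
          1 / 4 * Real.exp (4 * Sd z (dd d h)) + 1 / 4 * Real.exp (4 * Sd z (dd (d + h') h)) := by
      intro d _
      have := am4 (Sd z d) (Sd z (d + h')) (Sd z (dd d h)) (Sd z (dd (d + h') h))
      simp only [hF]
      linarith
    refine (sum_le_sum h3).trans ?_
    rw [sum_add_distrib, sum_add_distrib, sum_add_distrib, ← mul_sum, ← mul_sum, ← mul_sum,
      ← mul_sum]
    linarith
  calc ∑ d ∈ Icc 1 B, F d ≤ 2 * (C2 ^ 3 * C3) * B + C1 * B := by
        rw [hsplit]
        exact add_le_add hexc hoth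
    _ = (C1 + 2 * (C2 ^ 3 * C3)) * B := by ring

end Pool.Agent.Helper10.CB
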